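import Mathlib

/-!
Primitive completely normal elements: basic definitions.

`K` is a finite field with `q` elements, `L` a finite extension of degree `n`,
`Om` an algebraically closed field containing `L`.

`Res K d z x = ∑_{i < n/d} z^i * x^(q^(d i))` is the resolvent of `x` at `z` relative to the
subfield with `q^d` elements.  `per K z` is the degree of `z` over `K`
(least `t ≥ 1` with `z^(q^t) = z`).  `Ev K L d z` : the pair `(d,z)` is an event.
-/

namespace Pool.Agent.MM

open Finset Polynomial

section

variable (K : Type) {L Om : Type} [Field K] [Field L] [Field Om]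
  [Algebra K L] [Algebra K Om] [Algebra L Om]

/-- Frobenius additivity for powers of `|K|` in any extension field of `K`. -/
theorem add_pow_card [Finite K] (k : ℕ) (a b : Om) :
    (a + b) ^ ((Nat.card K) ^ k) = a ^ ((Nat.card K) ^ k) + b ^ ((Nat.card K) ^ k) := by
  classical
  have : Fintype K := Fintype.ofFinite K
  obtain ⟨p, hp⟩ := CharP.exists K
  have := hp
  have hpp : Fact p.Prime := ⟨CharP.char_is_prime K p⟩
  obtain ⟨m, -, hm⟩ := FiniteField.card K p
  have : CharP Om p := charP_of_injective_algebraMap (algebraMap K Om).injective p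
  rw [Nat.card_eq_fintype_card, hm, ← pow_mul]
  exact add_pow_char_pow a b p _

/-- Elements of `K` are fixed by the `|K|`-power map. -/
theorem algebraMap_pow_card [Finite K] (k : ℕ) (c : K) :
    (algebraMap K Om c) ^ ((Nat.card K) ^ k) = algebraMap K Om c := by
  classical
  have : Fintype K := Fintype.ofFinite K
  rw [Nat.card_eq_fintype_card, ← map_pow, FiniteField.pow_card_pow]

variable (L) in
/-- degree of `L` over `K` -/
noncomputable def deg : ℕ := Module.finrank K L

variable (L) in
/-- The Frobenius `x ↦ x^|K|` as a `K`-linear map `L → L`. -/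
noncomputable def frob [Finite K] : L →ₗ[K] L where
  toFun x := x ^ (Nat.card K)
  map_add' x y := by simpa using add_pow_card K 1 x y
  map_smul' c x := by
    rw [RingHom.id_apply, Algebra.smul_def, Algebra.smul_def, mul_pow]
    have h := algebraMap_pow_card K (Om := L) 1 c
    rw [pow_one] at h
    rw [h]

theorem frob_apply [Finite K] (x : L) : frob K L x = x ^ (Nat.card K) := rfl

/-- The resolvent, as a `K`-linear map `L → Om`. -/
noncomputable def Res [Finite K] [IsScalarTower K L Om] (d : ℕ) (z : Om) : L →ₗ[K] Om where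
  toFun x := ∑ i ∈ range (deg K L / d), z ^ i * (algebraMap L Om x) ^ ((Nat.card K) ^ (d * i))
  map_add' x y := by
    rw [← sum_add_distrib]
    refine sum_congr rfl fun i _ => ?_
    rw [map_add, add_pow_card K, mul_add]
  map_smul' c x := by
    rw [RingHom.id_apply, Algebra.smul_def, Algebra.smul_def, mul_sum]
    refine sum_congr rfl fun i _ => ?_
    rw [map_mul, ← IsScalarTower.algebraMap_apply K L Om, mul_pow,
      algebraMap_pow_card K]
    ring

theorem Res_apply [Finite K] [IsScalarTower K L Om] (d : ℕ) (z : Om) (x : L) :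
    Res K d z x = ∑ i ∈ range (deg K L / d),
      z ^ i * (algebraMap L Om x) ^ ((Nat.card K) ^ (d * i)) := rfl

/-- Degree of `z` over `K`: the least period of `z` under the `|K|`-power map. -/
noncomputable def per (z : Om) : ℕ := Function.minimalPeriod (fun y : Om => y ^ (Nat.card K)) z

variable (L) in
/-- `(d, z)` is an event. -/
def Ev (d : ℕ) (z : Om) : Prop := d ∣ deg K L ∧ z ^ (deg K L / d) = 1 ∧ d ∣ per K z

variable (L Om) in
open scoped Classical in
/-- The finite set of `z` with `(d, z)` an event of degree `t`. -/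
noncomputable def Zs (d t : ℕ) : Finset Om :=
  ((Polynomial.nthRootsFinset (deg K L / d) (1 : Om))).filter
    (fun z : Om => Ev K L d z ∧ per K z = t)

variable (L Om) in
/-- `∑_{t ≤ T} ∑_{d ∣ t} #(Zs d t) * d / t`: bound for the number of distinct kernels. -/
noncomputable def KT (T : ℕ) : ℝ :=
  ∑ t ∈ Icc 1 T, ∑ d ∈ t.divisors, ((Zs K L Om d t).card : ℝ) * d / t

variable (L Om) in
/-- `∑_{t ≤ T} ∑_{d ∣ t} #(Zs d t) * (d / t) * q^(-t)`. -/
noncomputable def ET (T : ℕ) : ℝ :=
  ∑ t ∈ Icc 1 T, ∑ d ∈ t.divisors, ((Zs K L Om d t).card : ℝ) * d / t / (Nat.card K : ℝ) ^ t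

/-- `x` generates all nonzero elements of `L` as powers. -/
def Prim (x : L) : Prop := ∀ y : L, y ≠ 0 → ∃ k : ℕ, x ^ k = y

/-- completely normal -/
def CN (x : L) : Prop := ∀ M : IntermediateField K L,
  LinearIndependent M (fun i : Fin (Module.finrank M L) => x ^ (Nat.card M ^ (i : ℕ)))

end

/-- `f : L → ℂ` is a combination of additive characters with coefficient sum at most `B`. -/
def AN {L : Type} [Field L] (f : L → ℂ) (B : ℝ) : Prop :=
  ∃ (ι : Type) (_ : Fintype ι) (b : ι → ℂ) (ψ : ι → AddChar L ℂ),
    (∀ x, f x = ∑ i, b i * ψ i x) ∧ ∑ i, ‖b i‖ ≤ B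

/-- On nonzero elements `f : L → ℂ` equals `c` plus a combination of nontrivial multiplicative
characters `χ` with `χ^s = 1` whose coefficient sum is at most `B`. -/
def MN {L : Type} [Field L] (f : L → ℂ) (s : ℕ) (c : ℂ) (B : ℝ) : Prop :=
  ∃ (ι : Type) (_ : Fintype ι) (b : ι → ℂ) (χ : ι → MulChar L ℂ),
    (∀ i, χ i ≠ 1 ∧ (χ i) ^ s = 1) ∧ (∀ x, x ≠ 0 → f x = c + ∑ i, b i * χ i x) ∧
      ∑ i, ‖b i‖ ≤ B

open scoped Classical in
/-- indicator of nonzero `r`-th powers -/
noncomputable def powInd {L : Type} [Field L] (r : ℕ) (x : L) : ℂ :=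
  if ∃ y : L, y ≠ 0 ∧ y ^ r = x then 1 else 0

open scoped Classical in
/-- indicator of an additive subgroup -/
noncomputable def subInd {L : Type} [Field L] (M : AddSubgroup L) (x : L) : ℂ :=
  if x ∈ M then 1 else 0

end Pool.Agent.MM
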