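import Mathlib
import Pool.Agent.MM.Defs

/-!
Basic facts on `per K z`, the degree of a root of unity `z` over the finite field `K`.
-/

namespace Pool.Agent.MM

open Finset Polynomial

section

variable {K L Om : Type} [Field K] [Field L] [Field Om] [Algebra K L] [Algebra K Om]
  [Algebra L Om] [IsScalarTower K L Om] [Finite K] [Finite L]

omit [Algebra K Om] [Finite K] in
theorem per_iterate (z : Om) (k : ℕ) :
    (fun y : Om => y ^ Nat.card K)^[k] z = z ^ (Nat.card K ^ k) := by
  induction k with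
  | zero => simp
  | succ k ih => rw [Function.iterate_succ_apply', ih, ← pow_mul, ← pow_succ]

omit [Algebra K Om] [Finite K] in
theorem per_dvd_iff (z : Om) (j : ℕ) : per K z ∣ j ↔ z ^ (Nat.card K ^ j) = z := by
  unfold per
  rw [← Function.isPeriodicPt_iff_minimalPeriod_dvd, Function.IsPeriodicPt, Function.IsFixedPt,
    per_iterate]

theorem orderOf_coprime (N : ℕ) (hN : 0 < N) (z : Om) (hz : z ^ N = 1) :
    (orderOf z).Coprime (Nat.card K) := by
  classical
  have : Fintype K := Fintype.ofFinite K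
  obtain ⟨p, hp⟩ := CharP.exists K
  have := hp
  have hpp : Fact p.Prime := ⟨CharP.char_is_prime K p⟩
  obtain ⟨m, -, hm⟩ := FiniteField.card K p
  have hOm : CharP Om p := charP_of_injective_algebraMap (algebraMap K Om).injective p
  rw [Nat.card_eq_fintype_card, hm]
  apply Nat.Coprime.pow_right
  rw [Nat.coprime_comm, Nat.Prime.coprime_iff_not_dvd hpp.out]
  intro hdvd
  have hfin : IsOfFinOrder z := isOfFinOrder_iff_pow_eq_one.2 ⟨N, hN, hz⟩
  have hpos : 0 < orderOf z := hfin.orderOf_pos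
  obtain ⟨a, ha⟩ := hdvd
  have h1 : (z ^ a) ^ p = 1 := by rw [← pow_mul, mul_comm, ← ha, pow_orderOf_eq_one]
  have h2 : z ^ a = 1 := by
    have h3 : (z ^ a - 1) ^ p = 0 := by rw [sub_pow_char, h1, one_pow, sub_self]
    exact sub_eq_zero.1 (pow_eq_zero_iff hpp.out.ne_zero |>.1 h3)
  have h4 := orderOf_dvd_of_pow_eq_one h2
  have ha0 : 0 < a := by
    rcases Nat.eq_zero_or_pos a with h | h
    · rw [h, mul_zero] at ha; omega
    · exact h
  have h5 := Nat.le_of_dvd ha0 h4
  have h6 := hpp.out.two_le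
  nlinarith

theorem per_pow_iff (N : ℕ) (hN : 0 < N) (z : Om) (hz : z ^ N = 1) (j : ℕ) :
    z ^ (Nat.card K ^ j) = z ↔ ((Nat.card K : ℕ) : ZMod (orderOf z)) ^ j = 1 := by
  have hq : 0 < Nat.card K := Nat.card_pos
  have hz0 : z ≠ 0 := by
    rintro rfl
    rw [zero_pow hN.ne'] at hz
    exact zero_ne_one hz
  have h1 : z ^ (Nat.card K ^ j) = z ↔ z ^ (Nat.card K ^ j - 1) = 1 := by
    have h2 : Nat.card K ^ j = (Nat.card K ^ j - 1) + 1 := by
      have := Nat.pos_of_ne_zero (pow_ne_zero j hq.ne')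
      omega
    constructor
    · intro h
      rw [h2, pow_succ] at h
      exact mul_right_cancel₀ hz0 (by rw [h, one_mul])
    · intro h
      rw [h2, pow_succ, h, one_mul]
  rw [h1, ← orderOf_dvd_iff_pow_eq_one, ← (ZMod.natCast_eq_zero_iff _ _),
    Nat.cast_sub (Nat.pos_of_ne_zero (pow_ne_zero j hq.ne')), sub_eq_zero]
  push_cast
  rfl

theorem per_eq_orderOf (N : ℕ) (hN : 0 < N) (z : Om) (hz : z ^ N = 1) :
    per K z = orderOf ((Nat.card K : ℕ) : ZMod (orderOf z)) := by
  apply Nat.dvd_antisymm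
  · rw [per_dvd_iff, per_pow_iff N hN z hz, pow_orderOf_eq_one]
  · rw [orderOf_dvd_iff_pow_eq_one, ← per_pow_iff N hN z hz, ← per_dvd_iff]

theorem per_pos (N : ℕ) (hN : 0 < N) (z : Om) (hz : z ^ N = 1) : 0 < per K z := by
  rw [per_eq_orderOf (K := K) N hN z hz]
  have hfin : IsOfFinOrder z := isOfFinOrder_iff_pow_eq_one.2 ⟨N, hN, hz⟩
  have : NeZero (orderOf z) := ⟨hfin.orderOf_pos.ne'⟩
  have hc := orderOf_coprime (K := K) N hN z hz
  have hu : IsUnit ((Nat.card K : ℕ) : ZMod (orderOf z)) := (ZMod.isUnit_iff_coprime _ _).2 hc.symm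
  obtain ⟨u, hu⟩ := hu
  rw [← hu, orderOf_units]
  exact orderOf_pos u

theorem per_frob (N : ℕ) (hN : 0 < N) (z : Om) (hz : z ^ N = 1) (j : ℕ) :
    per K (z ^ (Nat.card K ^ j)) = per K z := by
  have hc := orderOf_coprime (K := K) N hN z hz
  have ho : orderOf (z ^ (Nat.card K ^ j)) = orderOf z :=
    Nat.Coprime.orderOf_pow (Nat.Coprime.pow_right j hc)
  have hz' : (z ^ (Nat.card K ^ j)) ^ N = 1 := by rw [← pow_mul, mul_comm, pow_mul, hz, one_pow]
  rw [per_eq_orderOf (K := K) N hN z hz, per_eq_orderOf (K := K) N hN _ hz', ho]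

theorem mem_Zs (d t : ℕ) (z : Om) : z ∈ Zs K L Om d t ↔ Ev K L d z ∧ per K z = t := by
  classical
  unfold Zs
  rw [mem_filter]
  constructor
  · exact fun h => h.2
  · intro h
    refine ⟨?_, h⟩
    have hfin : Module.Finite K L := inferInstance
    have hn : 0 < deg K L := Module.finrank_pos
    have hd : 0 < deg K L / d :=
      Nat.div_pos (Nat.le_of_dvd hn h.1.1) (Nat.pos_of_dvd_of_pos h.1.1 hn)
    rw [Polynomial.mem_nthRootsFinset hd]
    exact h.1.2.1

end

end Pool.Agent.MM
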