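import Mathlib
import Pool.Agent.MM.Defs

/-!
The resolvent `Res K d z` vanishes on the image of `g(frob)` iff `X^d - 1/z` divides `g`.
-/

namespace Pool.Agent.MM

open Finset Polynomial

section

variable {K L Om : Type} [Field K] [Field L] [Field Om] [Algebra K L] [Algebra K Om]
  [Algebra L Om] [IsScalarTower K L Om] [Finite K] [Finite L]

theorem frob_pow_apply (j : ℕ) (x : L) : ((frob K L) ^ j) x = x ^ (Nat.card K ^ j) := by
  induction j with
  | zero => simp
  | succ j ih => rw [pow_succ', Module.End.mul_apply, ih, frob_apply, ← pow_mul, ← pow_succ]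

omit [Finite L] [Finite K] in
variable (K) in
theorem card_eq_pow_deg [Finite K] [Finite L] : Nat.card L = Nat.card K ^ (deg K L) :=
  Module.natCard_eq_pow_finrank

theorem pow_card_deg (x : L) : x ^ (Nat.card K ^ (deg K L)) = x := by
  have : Fintype L := Fintype.ofFinite L
  have hfin : Module.Finite K L := inferInstance
  rw [← card_eq_pow_deg K (L := L), Nat.card_eq_fintype_card]
  exact FiniteField.pow_card x

/-- `∑ p_k x^(q^k)` as a linear functional of the polynomial `p`. -/
noncomputable def vanLam (K : Type) {L Om : Type} [Field K] [Field L] [Field Om] [Algebra K L]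
    [Algebra L Om] (x : L) : Om[X] →ₗ[Om] Om :=
  Polynomial.lsum (fun k => LinearMap.mulRight Om ((algebraMap L Om x) ^ (Nat.card K ^ k)))

omit [Finite K] [Finite L] in
theorem vanLam_monomial (x : L) (k : ℕ) (c : Om) :
    vanLam K x (monomial k c) = c * (algebraMap L Om x) ^ (Nat.card K ^ k) := by
  unfold vanLam
  rw [Polynomial.lsum_apply, Polynomial.sum_monomial_index _ _ (by simp)]
  simp

/-- `A = ∑ z^i X^(d i)` -/
noncomputable def vanA (d N : ℕ) (z : Om) : Om[X] := ∑ i ∈ range N, monomial (d * i) (z ^ i)

theorem vanA_mul (d N : ℕ) (z : Om) (hz0 : z ≠ 0) (hz : z ^ N = 1) :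
    (X ^ d - C z⁻¹ : Om[X]) * vanA d N z = C z⁻¹ * (X ^ (d * N) - 1) := by
  have key : ∀ M : ℕ, (X ^ d - C z⁻¹ : Om[X]) * vanA d M z =
      C z⁻¹ * (C (z ^ M) * X ^ (d * M) - 1) := by
    intro M
    induction M with
    | zero => simp [vanA]
    | succ M ih =>
      have h1 : vanA d (M + 1) z = vanA d M z + monomial (d * M) (z ^ M) := by
        unfold vanA
        rw [sum_range_succ]
      rw [h1, mul_add, ih, ← Polynomial.C_mul_X_pow_eq_monomial]
      have h2 : (C z⁻¹ : Om[X]) * C (z ^ (M + 1)) = C (z ^ M) := by
        rw [← C_mul, pow_succ']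
        congr 1
        field_simp
      have h3 : (X : Om[X]) ^ (d * (M + 1)) = X ^ d * X ^ (d * M) := by
        rw [← pow_add]; congr 1; ring
      rw [mul_sub, mul_sub, ← mul_assoc (C z⁻¹) (C (z ^ (M + 1))), h2, h3]
      ring
  rw [key N, hz, C_1, one_mul]

theorem vanLam_A (d : ℕ) (z : Om) (x : L) (g : K[X]) :
    Res K d z (aeval (frob K L) g x) =
      vanLam K x (vanA d (deg K L / d) z * g.map (algebraMap K Om)) := by
  induction g using Polynomial.induction_on' with
  | add p q hp hq =>
    rw [map_add, LinearMap.add_apply, map_add, hp, hq, Polynomial.map_add, mul_add, map_add]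
  | monomial j c =>
    rw [Polynomial.aeval_monomial, Module.End.mul_apply, frob_pow_apply,
      Polynomial.map_monomial]
    have h1 : (algebraMap K (Module.End K L) c) (x ^ (Nat.card K ^ j)) =
        c • (x ^ (Nat.card K ^ j)) := rfl
    rw [h1, map_smul, Res_apply]
    unfold vanA
    rw [sum_mul, map_sum, Algebra.smul_def, mul_sum]
    refine sum_congr rfl fun i _ => ?_
    rw [monomial_mul_monomial, vanLam_monomial, map_pow, ← pow_mul, ← pow_add, add_comm j]
    ring

theorem vanLam_period (x : L) (u : Om[X]) :
    vanLam K x ((X ^ (deg K L) - 1) * u) = 0 := by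
  induction u using Polynomial.induction_on' with
  | add p q hp hq => rw [mul_add, map_add, hp, hq, add_zero]
  | monomial j c =>
    rw [sub_mul, one_mul, ← Polynomial.monomial_one_right_eq_X_pow, monomial_mul_monomial, map_sub,
      vanLam_monomial, vanLam_monomial, one_mul, pow_add, pow_mul, ← map_pow, pow_card_deg,
      sub_self]

theorem vanLam_iff (p : Om[X]) :
    (∀ x : L, vanLam K x p = 0) ↔ (X ^ (deg K L) - 1 : Om[X]) ∣ p := by
  classical
  have hfin : Module.Finite K L := inferInstance
  have hn : 0 < deg K L := Module.finrank_pos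
  have hq : 1 < Nat.card K := Finite.one_lt_card
  constructor
  · intro h
    have hm : (X ^ (deg K L) - 1 : Om[X]).Monic := by
      simpa using monic_X_pow_sub_C (1 : Om) hn.ne'
    set r := p %ₘ (X ^ (deg K L) - 1) with hr
    have hr1 : ∀ x : L, vanLam K x r = 0 := by
      intro x
      have h1 := Polynomial.modByMonic_add_div p (X ^ (deg K L) - 1 : Om[X])
      have h2 := h x
      rw [← h1, map_add, vanLam_period, add_zero] at h2
      exact h2
    have hdeg : r.natDegree < deg K L := by
      by_cases hr0 : r = 0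
      · rw [hr0]; simpa using hn
      have h1 := Polynomial.degree_modByMonic_lt p hm
      have h2 : (X ^ (deg K L) - 1 : Om[X]).degree = (deg K L : ℕ) := by
        have := Polynomial.degree_X_pow_sub_C hn (1 : Om)
        simpa using this
      rw [h2] at h1
      exact (Polynomial.natDegree_lt_iff_degree_lt hr0).2 h1
    -- the linearized polynomial
    let G : Om[X] := ∑ k ∈ range (deg K L), C (r.coeff k) * X ^ (Nat.card K ^ k)
    have hG : ∀ x : L, G.eval (algebraMap L Om x) = 0 := by
      intro x
      have h1 := hr1 x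
      unfold vanLam at h1
      rw [Polynomial.lsum_apply, Polynomial.sum_over_range' _ (by simp) _ hdeg] at h1
      simp only [G, Polynomial.eval_finsetSum, eval_mul, eval_C, eval_pow, eval_X]
      simpa using h1
    have hGdeg : G.natDegree ≤ Nat.card K ^ (deg K L - 1) := by
      apply Polynomial.natDegree_sum_le_of_forall_le
      intro k hk
      refine (Polynomial.natDegree_C_mul_X_pow_le _ _).trans ?_
      apply Nat.pow_le_pow_right (by omega)
      have := mem_range.1 hk
      omega
    have hFL : Fintype L := Fintype.ofFinite L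
    have hG0 : G = 0 := by
      apply Polynomial.eq_zero_of_natDegree_lt_card_of_eval_eq_zero' G
        ((univ : Finset L).image (algebraMap L Om))
      · intro y hy
        obtain ⟨x, -, rfl⟩ := mem_image.1 hy
        exact hG x
      · rw [card_image_of_injective _ (algebraMap L Om).injective, card_univ,
          ← Nat.card_eq_fintype_card, card_eq_pow_deg K]
        refine lt_of_le_of_lt hGdeg ?_
        exact Nat.pow_lt_pow_right hq (by omega)
    have hr0 : r = 0 := by
      ext k
      rw [coeff_zero]
      by_cases hk : k < deg K L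
      · have h1 : G.coeff (Nat.card K ^ k) = r.coeff k := by
          simp only [G, finsetSum_coeff, coeff_C_mul, coeff_X_pow]
          rw [sum_eq_single k]
          · simp
          · intro b _ hb
            have : Nat.card K ^ k ≠ Nat.card K ^ b := fun h =>
              hb (Nat.pow_right_injective hq h).symm
            simp [this]
          · intro h
            exact absurd (mem_range.2 hk) h
        rw [← h1, hG0, coeff_zero]
      · exact Polynomial.coeff_eq_zero_of_natDegree_lt (by omega)
    exact (Polynomial.modByMonic_eq_zero_iff_dvd hm).1 hr0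
  · rintro ⟨u, rfl⟩ x
    exact vanLam_period x u

theorem van (d : ℕ) (z : Om) (hd : d ∣ deg K L) (hz : z ^ (deg K L / d) = 1) (g : K[X]) :
    (∀ x : L, Res K d z (aeval (frob K L) g x) = 0) ↔
      (X ^ d - C z⁻¹ : Om[X]) ∣ g.map (algebraMap K Om) := by
  have hfin : Module.Finite K L := inferInstance
  have hn : 0 < deg K L := Module.finrank_pos
  have hd0 : 0 < d := Nat.pos_of_dvd_of_pos hd hn
  have hN : 0 < deg K L / d := Nat.div_pos (Nat.le_of_dvd hn hd) hd0
  have hz0 : z ≠ 0 := by
    rintro rfl
    rw [zero_pow hN.ne'] at hz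
    exact zero_ne_one hz
  have hA := vanA_mul d (deg K L / d) z hz0 hz
  rw [Nat.mul_div_cancel' hd] at hA
  have hXn : (X ^ (deg K L) - 1 : Om[X]) = C z * ((X ^ d - C z⁻¹ : Om[X]) *
      vanA d (deg K L / d) z) := by
    rw [hA, ← mul_assoc, ← C_mul, mul_inv_cancel₀ hz0, C_1, one_mul]
  have hXn0 : (X ^ (deg K L) - 1 : Om[X]) ≠ 0 := by
    have := (monic_X_pow_sub_C (1 : Om) hn.ne').ne_zero
    simpa using this
  have hA0 : vanA d (deg K L / d) z ≠ 0 := by
    intro h
    rw [h, mul_zero, mul_zero] at hXn
    exact hXn0 hXn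
  have h1 : (∀ x : L, Res K d z (aeval (frob K L) g x) = 0) ↔
      ∀ x : L, vanLam K x (vanA d (deg K L / d) z * g.map (algebraMap K Om)) = 0 := by
    simp only [vanLam_A]
  rw [h1, vanLam_iff]
  constructor
  · rintro ⟨u, hu⟩
    refine ⟨C z * u, ?_⟩
    apply mul_left_cancel₀ hA0
    rw [hu, hXn]
    ring
  · rintro ⟨u, hu⟩
    refine ⟨C z⁻¹ * u, ?_⟩
    rw [hu, hXn]
    have : (C z : Om[X]) * C z⁻¹ = 1 := by rw [← C_mul, mul_inv_cancel₀ hz0, C_1]
    calc vanA d (deg K L / d) z * ((X ^ d - C z⁻¹) * u)
        = 1 * (vanA d (deg K L / d) z * ((X ^ d - C z⁻¹) * u)) := by rw [one_mul]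
      _ = _ := by rw [← this]; ring

end

end Pool.Agent.MM
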