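import Mathlib
import Pool.Agent.MM.Defs
import Pool.Agent.MM.PER
import Pool.Agent.MM.VAN

/-!
Basic identities for the resolvents.
-/

namespace Pool.Agent.MM

open Finset Polynomial

section

variable {K L Om : Type} [Field K] [Field L] [Field Om] [Algebra K L] [Algebra K Om]
  [Algebra L Om] [IsScalarTower K L Om] [Finite K] [Finite L]

theorem rb_ne_zero (d : ℕ) (z : Om) (hd : d ∣ deg K L) (hz : z ^ (deg K L / d) = 1) :
    z ≠ 0 := by
  have hfin : Module.Finite K L := inferInstance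
  have hn : 0 < deg K L := Module.finrank_pos
  have hd0 : 0 < d := Nat.pos_of_dvd_of_pos hd hn
  have hN : 0 < deg K L / d := Nat.div_pos (Nat.le_of_dvd hn hd) hd0
  rintro rfl
  rw [zero_pow hN.ne'] at hz
  exact zero_ne_one hz

/-- `R(x^(q^j))` at the conjugate of `z` is the conjugate of `R(x)` -/
theorem rb_frob (d : ℕ) (z : Om) (x : L) (j : ℕ) :
    (Res K d z x) ^ (Nat.card K ^ j) = Res K d (z ^ (Nat.card K ^ j)) (x ^ (Nat.card K ^ j)) := by
  have hsum : ∀ (s : Finset ℕ) (g : ℕ → Om), (∑ i ∈ s, g i) ^ (Nat.card K ^ j) =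
      ∑ i ∈ s, (g i) ^ (Nat.card K ^ j) := by
    classical
    intro s g
    induction s using Finset.induction_on with
    | empty =>
      rw [sum_empty, sum_empty]
      exact zero_pow (pow_ne_zero _ (Nat.card_pos (α := K)).ne')
    | insert a s ha ih => rw [sum_insert ha, sum_insert ha, add_pow_card K, ih]
  rw [Res_apply, Res_apply, hsum]
  refine sum_congr rfl fun i _ => ?_
  rw [mul_pow, map_pow, ← pow_mul, ← pow_mul, ← pow_mul, ← pow_mul, mul_comm i, mul_comm (_ ^ (d * i))]

/-- `R(x^(q^d)) = z⁻¹ R(x)` -/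
theorem rb_shift (d : ℕ) (z : Om) (hd : d ∣ deg K L) (hz : z ^ (deg K L / d) = 1) (x : L) :
    Res K d z (x ^ (Nat.card K ^ d)) = z⁻¹ * Res K d z x := by
  have hz0 := rb_ne_zero d z hd hz
  rw [eq_inv_mul_iff_mul_eq₀ hz0, Res_apply, Res_apply, mul_sum]
  set a : ℕ → Om := fun i => z ^ i * (algebraMap L Om x) ^ ((Nat.card K) ^ (d * i)) with ha
  have h1 : ∀ i ∈ range (deg K L / d), z * (z ^ i *
      (algebraMap L Om (x ^ (Nat.card K ^ d))) ^ ((Nat.card K) ^ (d * i))) = a (i + 1) := by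
    intro i _
    simp only [ha]
    rw [map_pow, ← pow_mul, ← pow_add, pow_succ', mul_add, mul_one, add_comm d, mul_assoc]
  rw [sum_congr rfl h1]
  have h2 : a (deg K L / d) = a 0 := by
    simp only [ha]
    rw [hz, Nat.mul_div_cancel' hd, ← map_pow, pow_card_deg]
    simp
  have h3 := sum_range_succ a (deg K L / d)
  have h4 := sum_range_succ' a (deg K L / d)
  rw [h3, h2] at h4
  exact (add_right_cancel h4).symm

/-- iterated shift -/
theorem rb_shift_iter (d : ℕ) (z : Om) (hd : d ∣ deg K L) (hz : z ^ (deg K L / d) = 1) (x : L)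
    (i : ℕ) : Res K d z (x ^ (Nat.card K ^ (d * i))) = (z⁻¹) ^ i * Res K d z x := by
  induction i with
  | zero => simp
  | succ i ih =>
    have : x ^ (Nat.card K ^ (d * (i + 1))) = (x ^ (Nat.card K ^ (d * i))) ^ (Nat.card K ^ d) := by
      rw [← pow_mul, ← pow_add]
      ring_nf
    rw [this, rb_shift d z hd hz, ih]
    ring

end

end Pool.Agent.MM
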