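import Mathlib
import Pool.Agent.MM.Defs
import Pool.Agent.MM.PER
import Pool.Agent.MM.VAN
import Pool.Agent.MM.RB

/-!
Normality criterion: if no resolvent vanishes then the conjugates are linearly independent.
-/

namespace Pool.Agent.MM

open Finset Polynomial

section

variable {Om : Type} [Field Om]

/-- shifting a periodic sequence is multiplication by a power of `X` modulo `X^N - 1` -/
theorem norm_shift (N : ℕ) (a : ℕ → Om) (ha : ∀ j, a (j + N) = a j) (s : ℕ) :
    (X ^ N - 1 : Om[X]) ∣ X ^ s * (∑ k ∈ range N, C (a (k + s)) * X ^ k) -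
      ∑ k ∈ range N, C (a k) * X ^ k := by
  induction s with
  | zero => simp
  | succ s ih =>
    -- X * sum a(k+s+1) X^k = sum a(k+s) X^k - a(s) + a(s+N) X^N
    have h1 : X * (∑ k ∈ range N, C (a (k + (s + 1))) * X ^ k) =
        (∑ k ∈ range N, C (a (k + s)) * X ^ k) + C (a s) * (X ^ N - 1) := by
      have h2 := sum_range_succ (fun k => C (a (k + s)) * (X : Om[X]) ^ k) N
      have h3 := sum_range_succ' (fun k => C (a (k + s)) * (X : Om[X]) ^ k) N
      rw [h2] at h3
      simp only [zero_add, pow_zero, mul_one] at h3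
      have h4 : a (N + s) = a s := by rw [add_comm]; exact ha s
      rw [h4] at h3
      have h5 : X * (∑ k ∈ range N, C (a (k + (s + 1))) * X ^ k) =
          ∑ k ∈ range N, C (a (k + 1 + s)) * (X : Om[X]) ^ (k + 1) := by
        rw [mul_sum]
        refine sum_congr rfl fun k _ => ?_
        rw [pow_succ, add_assoc k 1 s, add_comm 1 s]
        ring
      rw [h5]
      linear_combination -h3
    have h6 : X ^ (s + 1) * (∑ k ∈ range N, C (a (k + (s + 1))) * X ^ k) -
        ∑ k ∈ range N, C (a k) * X ^ k =
        (X ^ s * (∑ k ∈ range N, C (a (k + s)) * X ^ k) - ∑ k ∈ range N, C (a k) * X ^ k) +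
        (X ^ N - 1) * (X ^ s * C (a s)) := by
      rw [pow_succ, mul_assoc, h1]
      ring
    rw [h6]
    exact dvd_add ih (dvd_mul_right _ _)

end

section

variable {K L Om : Type} [Field K] [Field L] [Field Om] [Algebra K L] [Algebra K Om]
  [Algebra L Om] [IsScalarTower K L Om] [Finite K] [Finite L]

theorem normal_of_res [IsAlgClosed Om] (M : IntermediateField K L) (x : L)
    (h : ∀ z : Om, z ^ (Module.finrank M L) = 1 → Res K (Module.finrank K M) z x ≠ 0) :
    LinearIndependent M (fun i : Fin (Module.finrank M L) => x ^ (Nat.card M ^ (i : ℕ))) := by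
  classical
  have hfinL : Module.Finite K L := inferInstance
  have hfinM : Module.Finite K M := inferInstance
  have hfinML : Module.Finite M L := inferInstance
  set d := Module.finrank K M with hd
  set N := Module.finrank M L with hN
  have hd0 : 0 < d := Module.finrank_pos
  have hN0 : 0 < N := Module.finrank_pos
  have hdN : d * N = deg K L := Module.finrank_mul_finrank K M L
  have hdiv : deg K L / d = N := by rw [← hdN, Nat.mul_div_cancel_left _ hd0]
  have hq : 0 < Nat.card K := Nat.card_pos
  have hM : Nat.card M = Nat.card K ^ d := Module.natCard_eq_pow_finrank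
  have hFM : Finite M := inferInstance
  -- conjugates
  set a : ℕ → Om := fun j => (algebraMap L Om x) ^ (Nat.card K ^ (d * j)) with ha
  have haper : ∀ j, a (j + N) = a j := by
    intro j
    simp only [ha]
    rw [mul_add, hdN, add_comm, pow_add, pow_mul, ← map_pow, pow_card_deg]
  set A : Om[X] := ∑ k ∈ range N, C (a k) * X ^ k with hA
  have hXN : (X ^ N - 1 : Om[X]).Monic := by
    simpa using monic_X_pow_sub_C (1 : Om) hN0.ne'
  have hcop : IsCoprime (X ^ N - 1 : Om[X]) A := by
    rw [Polynomial.isCoprime_iff_aeval_ne_zero_of_isAlgClosed Om Om]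
    intro w
    by_contra hcon
    push Not at hcon
    obtain ⟨h1, h2⟩ := hcon
    rw [map_sub, map_pow, aeval_X, map_one, sub_eq_zero] at h1
    apply h w h1
    rw [Res_apply, hdiv]
    rw [hA, map_sum] at h2
    rw [← h2]
    refine sum_congr rfl fun i _ => ?_
    rw [coe_aeval_eq_eval, eval_mul, eval_C, eval_pow, eval_X, mul_comm]
  rw [Fintype.linearIndependent_iff]
  intro c hc
  -- the relation raised to powers
  have hrel : ∀ s : ℕ, ∑ i : Fin N, (algebraMap L Om (c i : L)) * a (s + i) = 0 := by
    intro s
    have h1 : (∑ i : Fin N, (algebraMap L Om (c i : L)) * a i) ^ (Nat.card K ^ (d * s)) =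
        ∑ i : Fin N, (algebraMap L Om (c i : L)) * a (s + i) := by
      have hsum : ∀ (S : Finset (Fin N)) (g : Fin N → Om), (∑ i ∈ S, g i) ^ (Nat.card K ^ (d * s)) =
          ∑ i ∈ S, (g i) ^ (Nat.card K ^ (d * s)) := by
        intro S g
        induction S using Finset.induction_on with
        | empty =>
          rw [sum_empty, sum_empty]
          exact zero_pow (pow_ne_zero _ hq.ne')
        | insert a S ha ih => rw [sum_insert ha, sum_insert ha, add_pow_card K, ih]
      rw [hsum]
      refine sum_congr rfl fun i _ => ?_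
      rw [mul_pow]
      congr 1
      · rw [← map_pow]
        congr 1
        have h2 : (c i) ^ (Nat.card K ^ (d * s)) = c i := by
          have : Fintype M := Fintype.ofFinite M
          rw [pow_mul, ← hM, Nat.card_eq_fintype_card]
          exact FiniteField.pow_card_pow s (c i)
        exact_mod_cast congrArg Subtype.val h2
      · simp only [ha]
        rw [← pow_mul, ← pow_add]
        congr 2
        ring
    rw [← h1]
    have h3 : ∑ i : Fin N, (algebraMap L Om (c i : L)) * a i = 0 := by
      have h4 := congrArg (algebraMap L Om) hc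
      rw [map_zero, map_sum] at h4
      rw [← h4]
      refine sum_congr rfl fun i _ => ?_
      rw [Algebra.smul_def, map_mul, map_pow, hM, ← pow_mul]
      rfl
    rw [h3, zero_pow (pow_ne_zero _ hq.ne')]
  -- polynomial Q = sum c_i X^(N-1-i)
  set Q : Om[X] := ∑ i : Fin N, C (algebraMap L Om (c i : L)) * X ^ (N - 1 - (i : ℕ)) with hQ
  have hdvd : (X ^ N - 1 : Om[X]) ∣ Q * A := by
    -- X^(N-1-i) * A ≡ sum_k a(k + i + 1) X^k
    have h1 : ∀ i : Fin N, (X ^ N - 1 : Om[X]) ∣
        X ^ (N - 1 - (i : ℕ)) * A - ∑ k ∈ range N, C (a (k + (i : ℕ) + 1)) * X ^ k := by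
      intro i
      have h2 := norm_shift N (fun j => a (j + (i : ℕ) + 1)) (by
        intro j
        have : j + N + (i : ℕ) + 1 = (j + (i : ℕ) + 1) + N := by ring
        rw [this]
        exact haper _) (N - 1 - (i : ℕ))
      have h3 : ∀ k ∈ range N, C (a (k + (N - 1 - (i : ℕ)) + (i : ℕ) + 1)) * (X : Om[X]) ^ k =
          C (a k) * X ^ k := by
        intro k _
        have hi := i.2
        have : k + (N - 1 - (i : ℕ)) + (i : ℕ) + 1 = k + N := by omega
        rw [this, haper]
      rw [sum_congr rfl h3] at h2
      exact h2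
    have h4 : Q * A = ∑ i : Fin N, C (algebraMap L Om (c i : L)) *
        (X ^ (N - 1 - (i : ℕ)) * A - ∑ k ∈ range N, C (a (k + (i : ℕ) + 1)) * X ^ k) := by
      have h5 : ∑ i : Fin N, C (algebraMap L Om (c i : L)) *
          (∑ k ∈ range N, C (a (k + (i : ℕ) + 1)) * (X : Om[X]) ^ k) = 0 := by
        have h6 : ∀ i : Fin N, C (algebraMap L Om (c i : L)) *
          (∑ k ∈ range N, C (a (k + (i : ℕ) + 1)) * (X : Om[X]) ^ k) =
            ∑ k ∈ range N, C ((algebraMap L Om (c i : L)) * a ((k + 1) + (i : ℕ))) * X ^ k := by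
          intro i
          rw [mul_sum]
          refine sum_congr rfl fun k _ => ?_
          rw [C_mul, mul_assoc]
          have : k + (i : ℕ) + 1 = k + 1 + (i : ℕ) := by ring
          rw [this]
        rw [sum_congr rfl fun i _ => h6 i, sum_comm]
        apply sum_eq_zero
        intro k _
        rw [← sum_mul, ← map_sum, hrel (k + 1), C_0, zero_mul]
      simp only [mul_sub, sum_sub_distrib]
      rw [h5, sub_zero, hQ, sum_mul]
      refine sum_congr rfl fun i _ => ?_
      ring
    rw [h4]
    exact dvd_sum fun i _ => (h1 i).mul_left _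
  have hdvd2 : (X ^ N - 1 : Om[X]) ∣ Q := hcop.dvd_of_dvd_mul_right hdvd
  have hQ0 : Q = 0 := by
    by_contra hne
    have h1 := Polynomial.degree_le_of_dvd hdvd2 hne
    have h2 : (X ^ N - 1 : Om[X]).degree = (N : ℕ) := by
      have := Polynomial.degree_X_pow_sub_C hN0 (1 : Om)
      simpa using this
    have h3 : Q.degree < (N : ℕ) := by
      refine lt_of_le_of_lt (Polynomial.degree_sum_le _ _) ?_
      refine (Finset.sup_lt_iff (by exact_mod_cast WithBot.bot_lt_coe N)).2 ?_
      intro i _
      refine lt_of_le_of_lt (degree_C_mul_X_pow_le _ _) ?_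
      exact_mod_cast (by omega : N - 1 - (i : ℕ) < N)
    rw [h2] at h1
    exact absurd h3 (not_lt.2 h1)
  intro i
  have h1 : Q.coeff (N - 1 - (i : ℕ)) = algebraMap L Om (c i : L) := by
    rw [hQ, finsetSum_coeff]
    rw [sum_eq_single i]
    · simp
    · intro b _ hb
      rw [coeff_C_mul, coeff_X_pow, if_neg, mul_zero]
      intro heq
      apply hb
      apply Fin.ext
      have := b.2
      have := i.2
      omega
    · intro h
      exact absurd (mem_univ _) h
  rw [hQ0, coeff_zero] at h1
  have h2 : (c i : L) = 0 := (map_eq_zero (algebraMap L Om)).1 h1.symm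
  exact Subtype.ext h2

end

end Pool.Agent.MM
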