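import Mathlib
import Pool.Agent.MM.Defs
import Pool.Agent.MM.PER
import Pool.Agent.MM.VAN
import Pool.Agent.MM.RB

/-!
Reduction of an arbitrary vanishing resolvent to a vanishing event.
-/

namespace Pool.Agent.MM

open Finset Polynomial

theorem red_block {A : Type} [AddCommMonoid A] (D N : ℕ) (f : ℕ → A) :
    ∑ i ∈ range (D * N), f i = ∑ l ∈ range D, ∑ i ∈ range N, f (l + D * i) := by
  rw [sum_comm]
  induction N with
  | zero => simp
  | succ N ih =>
    rw [mul_add, mul_one, sum_range_add, ih, sum_range_succ]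
    congr 1
    refine sum_congr rfl fun l _ => ?_
    rw [add_comm]

section

variable {K L Om : Type} [Field K] [Field L] [Field Om] [Algebra K L] [Algebra K Om]
  [Algebra L Om] [IsScalarTower K L Om] [Finite K] [Finite L]

theorem red_vanish (d : ℕ) (z : Om) (x : L) (hd : d ∣ deg K L)
    (hz : z ^ (deg K L / d) = 1) (h : Res K d z x = 0) (l : ℕ) :
    Res K d z (x ^ (Nat.card K ^ (d.gcd (per K z) * l))) = 0 := by
  have hfin : Module.Finite K L := inferInstance
  have hn : 0 < deg K L := Module.finrank_pos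
  have hd0 : 0 < d := Nat.pos_of_dvd_of_pos hd hn
  have hN : 0 < deg K L / d := Nat.div_pos (Nat.le_of_dvd hn hd) hd0
  have hz0 := rb_ne_zero d z hd hz
  set t := per K z with ht
  have htper : ∀ m : ℕ, Res K d z (x ^ (Nat.card K ^ (t * m))) = 0 := by
    intro m
    have h1 := rb_frob (K := K) d z x (t * m)
    have h2 : z ^ (Nat.card K ^ (t * m)) = z :=
      (per_dvd_iff (K := K) z (t * m)).1 (dvd_mul_right _ _)
    rw [h2, h, zero_pow (pow_ne_zero _ (Nat.card_pos (α := K)).ne')] at h1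
    exact h1.symm
  -- find j with t * j ≡ c mod d
  obtain ⟨j, hj⟩ : ∃ j : ℕ, (d : ℤ) ∣ ((t * j : ℕ) : ℤ) - (d.gcd t : ℤ) := by
    have h1 := Nat.gcd_eq_gcd_ab d t
    refine ⟨((Nat.gcdB d t) % (d : ℤ)).toNat, ?_⟩
    have hdz : (d : ℤ) ≠ 0 := by exact_mod_cast hd0.ne'
    have h2 : (((Nat.gcdB d t) % (d : ℤ)).toNat : ℤ) = (Nat.gcdB d t) % (d : ℤ) :=
      Int.toNat_of_nonneg (Int.emod_nonneg _ hdz)
    push_cast
    rw [h2, h1]
    have h3 := Int.mul_ediv_add_emod (Nat.gcdB d t) (d : ℤ)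
    refine ⟨-(t : ℤ) * ((Nat.gcdB d t) / (d : ℤ)) - Nat.gcdA d t, ?_⟩
    have h4 : (Nat.gcdB d t) % (d : ℤ) = Nat.gcdB d t - (d : ℤ) * ((Nat.gcdB d t) / (d : ℤ)) := by
      linarith
    rw [h4]
    ring
  -- c*l + d*M = t*(j*l) + d*i'
  obtain ⟨i', hi'⟩ : ∃ i' : ℕ, d.gcd t * l + d * (t * (j * l)) = t * (j * l) + d * i' := by
    obtain ⟨u, hu⟩ := hj
    have h1 : t * (j * l) ≤ d.gcd t * l + d * (t * (j * l)) := by
      have : t * (j * l) ≤ d * (t * (j * l)) := Nat.le_mul_of_pos_left _ hd0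
      omega
    have h2 : (d : ℤ) ∣ ((d.gcd t * l + d * (t * (j * l)) - t * (j * l) : ℕ) : ℤ) := by
      rw [Nat.cast_sub h1]
      push_cast
      push_cast at hu
      refine ⟨(t * (j * l)) - u * l, ?_⟩
      have h3 : (d.gcd t : ℤ) = t * j - d * u := by linarith
      rw [h3]
      ring
    have h3 : d ∣ (d.gcd t * l + d * (t * (j * l)) - t * (j * l)) := by exact_mod_cast h2
    obtain ⟨i', hi'⟩ := h3
    exact ⟨i', by omega⟩
  have h1 := rb_shift_iter d z hd hz (x ^ (Nat.card K ^ (d.gcd t * l))) (t * (j * l))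
  have h2 := rb_shift_iter d z hd hz (x ^ (Nat.card K ^ (t * (j * l)))) i'
  rw [← pow_mul, ← pow_add] at h1 h2
  rw [hi', h2, htper, mul_zero] at h1
  exact (mul_eq_zero.1 h1.symm).resolve_left (pow_ne_zero _ (inv_ne_zero hz0))

theorem red [IsAlgClosed Om] (d : ℕ) (z : Om) (x : L) (hd : d ∣ deg K L)
    (hz : z ^ (deg K L / d) = 1) (h : Res K d z x = 0) :
    ∃ (c : ℕ) (y : Om), Ev K L c y ∧ Res K c y x = 0 := by
  have hfin : Module.Finite K L := inferInstance
  have hn : 0 < deg K L := Module.finrank_pos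
  have hd0 : 0 < d := Nat.pos_of_dvd_of_pos hd hn
  set t := per K z with ht
  set c := d.gcd t with hc
  have hc0 : 0 < c := Nat.gcd_pos_of_pos_left _ hd0
  have hcd : c ∣ d := Nat.gcd_dvd_left _ _
  have hD : 0 < d / c := Nat.div_pos (Nat.le_of_dvd hd0 hcd) hc0
  obtain ⟨y, hy⟩ := IsAlgClosed.exists_pow_nat_eq z hD
  have hcn : c ∣ deg K L := hcd.trans hd
  have hdiv : deg K L / c = (d / c) * (deg K L / d) := by
    obtain ⟨a, ha⟩ := hcd
    obtain ⟨b, hb⟩ := hd
    have ha0 : 0 < a := by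
      rcases Nat.eq_zero_or_pos a with h0 | h0
      · rw [h0, mul_zero] at ha; omega
      · exact h0
    rw [hb, Nat.mul_div_cancel_left b hd0]
    conv_lhs => rw [ha]
    conv_rhs => rw [ha]
    rw [Nat.mul_div_cancel_left a hc0, mul_assoc, Nat.mul_div_cancel_left _ hc0]
  have hyn : y ^ (deg K L / c) = 1 := by rw [hdiv, pow_mul, hy, hz]
  have hty : t ∣ per K y := by
    rw [ht, per_dvd_iff, ← hy, ← pow_mul, mul_comm, pow_mul,
      (per_dvd_iff (K := K) y (per K y)).1 dvd_rfl]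
  refine ⟨c, y, ⟨hcn, hyn, (Nat.gcd_dvd_right _ _).trans hty⟩, ?_⟩
  rw [Res_apply, hdiv, red_block]
  apply sum_eq_zero
  intro l _
  have h1 : ∀ i ∈ range (deg K L / d), y ^ (l + (d / c) * i) *
      (algebraMap L Om x) ^ (Nat.card K ^ (c * (l + (d / c) * i))) =
      y ^ l * (z ^ i * (algebraMap L Om (x ^ (Nat.card K ^ (c * l)))) ^
        (Nat.card K ^ (d * i))) := by
    intro i _
    have h2 : c * (l + (d / c) * i) = c * l + d * i := by
      rw [mul_add, ← mul_assoc, Nat.mul_div_cancel' hcd]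
    rw [h2, pow_add, pow_mul y, hy, map_pow, ← pow_mul, ← pow_add, mul_assoc]
  rw [sum_congr rfl h1, ← mul_sum, ← Res_apply, red_vanish d z x hd hz h l, mul_zero]

end

end Pool.Agent.MM
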