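import Mathlib
import Pool.Agent.MM.Defs
import Pool.Agent.MM.NORM
import Pool.Agent.MM.RED

/-!
An element on which no event vanishes is completely normal.
-/

namespace Pool.Agent.MM

open Finset Polynomial

section

variable {K L Om : Type} [Field K] [Field L] [Field Om] [Algebra K L] [Algebra K Om]
  [Algebra L Om] [IsScalarTower K L Om] [Finite K] [Finite L]

theorem cn_of_events [IsAlgClosed Om] (x : L)
    (h : ∀ (d : ℕ) (z : Om), Ev K L d z → Res K d z x ≠ 0) : CN K x := by
  intro M
  apply normal_of_res (Om := Om) M x
  intro z hz h0
  have hfinM : Module.Finite K M := inferInstance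
  have hfinML : Module.Finite M L := inferInstance
  have hd0 : 0 < Module.finrank K M := Module.finrank_pos
  have hdN : Module.finrank K M * Module.finrank M L = deg K L := Module.finrank_mul_finrank K M L
  have hdiv : deg K L / Module.finrank K M = Module.finrank M L := by
    rw [← hdN, Nat.mul_div_cancel_left _ hd0]
  obtain ⟨c, y, hcy, h1⟩ := red (Module.finrank K M) z x ⟨_, hdN.symm⟩ (by rw [hdiv]; exact hz) h0
  exact h c y hcy h1

end

end Pool.Agent.MM
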