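import Pool.Agent.MM.Defs

/-!
# Fourier expansion of indicators of additive subgroups (module FOU)
-/

namespace Pool.Agent.MM

open Finset

theorem fou_one {L : Type} [Field L] : AN (fun _ : L => (1 : ℂ)) 1 := by
  refine ⟨Unit, inferInstance, fun _ => 1, fun _ => 1, fun x => ?_, ?_⟩
  · simp
  · simp

theorem fou_sub {L : Type} [Field L] {f g : L → ℂ} {A B : ℝ} (hf : AN f A) (hg : AN g B) :
    AN (fun x => f x - g x) (A + B) := by
  obtain ⟨ι, _, b, ψ, h1, h2⟩ := hf
  obtain ⟨κ, _, b', ψ', h3, h4⟩ := hg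
  refine ⟨ι ⊕ κ, inferInstance, Sum.elim b (fun i => -b' i), Sum.elim ψ ψ', fun x => ?_, ?_⟩
  · beta_reduce
    rw [Fintype.sum_sum_type, h1, h3]
    simp only [Sum.elim_inl, Sum.elim_inr, neg_mul, sum_neg_distrib]
    ring
  · rw [Fintype.sum_sum_type]
    simp only [Sum.elim_inl, Sum.elim_inr, norm_neg]
    exact add_le_add h2 h4

theorem fou_mul {L : Type} [Field L] {f g : L → ℂ} {A B : ℝ} (hf : AN f A) (hg : AN g B) :
    AN (fun x => f x * g x) (A * B) := by
  obtain ⟨ι, _, b, ψ, h1, h2⟩ := hf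
  obtain ⟨κ, _, b', ψ', h3, h4⟩ := hg
  refine ⟨ι × κ, inferInstance, fun z => b z.1 * b' z.2, fun z => ψ z.1 * ψ' z.2,
    fun x => ?_, ?_⟩
  · beta_reduce
    rw [h1, h3, sum_mul_sum, Fintype.sum_prod_type]
    refine sum_congr rfl fun i _ => sum_congr rfl fun j _ => ?_
    rw [AddChar.mul_apply]
    ring
  · rw [Fintype.sum_prod_type]
    simp only [norm_mul]
    rw [← sum_mul_sum]
    exact mul_le_mul h2 h4 (sum_nonneg fun _ _ => norm_nonneg _)
      ((sum_nonneg fun _ _ => norm_nonneg _).trans h2)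

theorem an_subInd {L : Type} [Field L] [Finite L] (M : AddSubgroup L) : AN (subInd M) 1 := by
  classical
  have : Fintype L := Fintype.ofFinite L
  have : Finite (L ⧸ M) := inferInstance
  have : Fintype (L ⧸ M) := Fintype.ofFinite _
  have hc : (Fintype.card (L ⧸ M) : ℂ) ≠ 0 := by
    exact_mod_cast (Fintype.card_pos (α := L ⧸ M)).ne'
  refine ⟨AddChar (L ⧸ M) ℂ, Fintype.ofFinite _, fun _ => (Fintype.card (L ⧸ M) : ℂ)⁻¹,
    fun ψ => ψ.compAddMonoidHom (QuotientAddGroup.mk' M), fun x => ?_, ?_⟩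
  · rw [← mul_sum]
    have h1 := AddChar.sum_apply_eq_ite (QuotientAddGroup.mk' M x)
    have h2 : ∑ ψ : AddChar (L ⧸ M) ℂ, (ψ.compAddMonoidHom (QuotientAddGroup.mk' M)) x =
        if QuotientAddGroup.mk' M x = 0 then (Fintype.card (L ⧸ M) : ℂ) else 0 := by
      rw [← h1]
      rfl
    unfold subInd
    by_cases hx : x ∈ M
    · rw [if_pos hx]
      have h3 : QuotientAddGroup.mk' M x = 0 := by
        rw [QuotientAddGroup.mk'_apply, QuotientAddGroup.eq_zero_iff]
        exact hx
      rw [if_pos h3] at h2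
      have h4 : ∑ ψ : AddChar (L ⧸ M) ℂ, (ψ.compAddMonoidHom (QuotientAddGroup.mk' M)) x =
        (Fintype.card (L ⧸ M) : ℂ) := h2
      convert (inv_mul_cancel₀ hc).symm using 2
    · rw [if_neg hx]
      have h3 : QuotientAddGroup.mk' M x ≠ 0 := by
        rw [QuotientAddGroup.mk'_apply, Ne, QuotientAddGroup.eq_zero_iff]
        exact hx
      rw [if_neg h3] at h2
      symm
      convert mul_zero _ using 2
  · rw [sum_const, card_univ, nsmul_eq_mul, norm_inv]
    have h5 : (Fintype.card (AddChar (L ⧸ M) ℂ) : ℝ) = Fintype.card (L ⧸ M) := by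
      rw [AddChar.card_eq]
    have h6 : ‖(Fintype.card (L ⧸ M) : ℂ)‖ = (Fintype.card (L ⧸ M) : ℝ) := by simp
    have h7 : (Fintype.card (L ⧸ M) : ℝ) ≠ 0 := by exact_mod_cast hc
    rw [h6]
    have h8 := mul_inv_cancel₀ h7
    rw [← h5] at h8 ⊢
    refine le_of_eq ?_
    convert h8

theorem an_core {L : Type} [Field L] [Finite L] (C : Finset (AddSubgroup L)) :
    AN (fun x => ∏ M ∈ C, (1 - subInd M x)) (2 ^ C.card) := by
  classical
  induction C using Finset.induction_on with
  | empty => simpa using fou_one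
  | insert M C hM ih =>
    have h1 : AN (fun x : L => 1 - subInd M x) (1 + 1) := fou_sub fou_one (an_subInd M)
    have h2 := fou_mul h1 ih
    have e : (fun x : L => ∏ N ∈ insert M C, (1 - subInd N x)) =
        fun x => (1 - subInd M x) * ∏ N ∈ C, (1 - subInd N x) := by
      funext x
      rw [prod_insert hM]
    have e2 : (2 : ℝ) ^ (insert M C).card = (1 + 1) * 2 ^ C.card := by
      rw [card_insert_of_notMem hM, pow_succ]
      ring
    rw [e, e2]
    exact h2

end Pool.Agent.MM
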