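import Mathlib
import Pool.Agent.MM.Defs

/-! # Module GAU: Gauss sum bound -/

namespace Pool.Agent.MM

open Finset Polynomial

theorem char_sum_le {L : Type} [Field L] [Fintype L] (χ : MulChar L ℂ) (hχ : χ ≠ 1)
    (ψ : AddChar L ℂ) : ‖∑ x, χ x * ψ x‖ ≤ √(Fintype.card L : ℝ) := by
  classical
  change ‖gaussSum χ ψ‖ ≤ √(Fintype.card L : ℝ)
  by_cases hψ : ψ = 1
  · rw [hψ, gaussSum_one_right hχ, norm_zero]
    exact Real.sqrt_nonneg _
  · have hp : ψ.IsPrimitive := AddChar.IsPrimitive.of_ne_one hψ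
    have h1 := gaussSum_mul_gaussSum_eq_card hχ hp
    rw [← star_gaussSum_eq] at h1
    apply Real.le_sqrt_of_sq_le
    have h2 := congrArg norm h1
    rw [norm_mul, norm_star, Complex.norm_natCast] at h2
    rw [sq, h2]

end Pool.Agent.MM
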