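import Mathlib
import Pool.Agent.MM.Defs

/-! # Module PRIM: multiplicative expansion of the indicator of primitive elements -/

namespace Pool.Agent.MM

open Finset Polynomial

section ring

variable {L : Type} [Field L] {f g : L → ℂ} {s s' : ℕ} {c c' : ℂ} {B B' : ℝ}

theorem prim_congr (h : MN f s c B) (hf : ∀ x, f x = g x) (hc : c = c') (hB : B ≤ B') :
    MN g s c' B' := by
  obtain ⟨ι, hι, b, χ, h1, h2, h3⟩ := h
  refine ⟨ι, hι, b, χ, h1, fun x hx => ?_, h3.trans hB⟩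
  rw [← hf, h2 x hx, hc]

theorem prim_nonneg (h : MN f s c B) : 0 ≤ B := by
  obtain ⟨ι, hι, b, χ, h1, h2, h3⟩ := h
  exact (sum_nonneg fun i _ => norm_nonneg (b i)).trans h3

theorem prim_one : MN (fun _ : L => (1 : ℂ)) 1 1 0 := by
  refine ⟨Empty, inferInstance, fun e => e.elim, fun e => e.elim, fun e => e.elim,
    fun x _ => by simp, by simp⟩

theorem prim_smul (h : MN f s c B) (a : ℂ) : MN (fun x => a * f x) s (a * c) (‖a‖ * B) := by
  obtain ⟨ι, hι, b, χ, h1, h2, h3⟩ := h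
  refine ⟨ι, hι, fun i => a * b i, χ, h1, fun x hx => ?_, ?_⟩
  · beta_reduce
    rw [h2 x hx, mul_add, mul_sum]
    congr 1
    exact sum_congr rfl fun i _ => by ring
  · simp only [norm_mul]
    rw [← mul_sum]
    exact mul_le_mul_of_nonneg_left h3 (norm_nonneg _)

theorem prim_one_sub (h : MN f s c B) : MN (fun x => 1 - f x) s (1 - c) B := by
  obtain ⟨ι, hι, b, χ, h1, h2, h3⟩ := h
  refine ⟨ι, hι, fun i => - b i, χ, h1, fun x hx => ?_, ?_⟩
  · beta_reduce
    rw [h2 x hx]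
    simp only [neg_mul, sum_neg_distrib]
    ring
  · simp only [norm_neg]
    exact h3

theorem prim_add (h : MN f s c B) (h' : MN g s' c' B') :
    MN (fun x => f x + g x) (s * s') (c + c') (B + B') := by
  obtain ⟨ι, hι, b, χ, h1, h2, h3⟩ := h
  obtain ⟨ι', hι', b', χ', h1', h2', h3'⟩ := h'
  refine ⟨ι ⊕ ι', inferInstance, Sum.elim b b', Sum.elim χ χ', ?_, fun x hx => ?_, ?_⟩
  · rintro (i | i)
    · refine ⟨(h1 i).1, ?_⟩
      simp only [Sum.elim_inl]
      rw [pow_mul, (h1 i).2, one_pow]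
    · refine ⟨(h1' i).1, ?_⟩
      simp only [Sum.elim_inr]
      rw [mul_comm s s', pow_mul, (h1' i).2, one_pow]
  · rw [Fintype.sum_sum_type]
    simp only [Sum.elim_inl, Sum.elim_inr]
    rw [h2 x hx, h2' x hx]
    ring
  · rw [Fintype.sum_sum_type]
    simp only [Sum.elim_inl, Sum.elim_inr]
    exact add_le_add h3 h3'

theorem prim_mul (hs : Nat.Coprime s s') (h : MN f s c B) (h' : MN g s' c' B') :
    MN (fun x => f x * g x) (s * s') (c * c') (‖c‖ * B' + ‖c'‖ * B + B * B') := by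
  have hB := prim_nonneg h
  obtain ⟨ι, hι, b, χ, h1, h2, h3⟩ := h
  obtain ⟨ι', hι', b', χ', h1', h2', h3'⟩ := h'
  refine ⟨ι ⊕ (ι' ⊕ (ι × ι')), inferInstance,
    Sum.elim (fun i => c' * b i) (Sum.elim (fun j => c * b' j) (fun p => b p.1 * b' p.2)),
    Sum.elim χ (Sum.elim χ' (fun p => χ p.1 * χ' p.2)), ?_, fun x hx => ?_, ?_⟩
  · rintro (i | i | ⟨i, j⟩)
    · refine ⟨(h1 i).1, ?_⟩
      simp only [Sum.elim_inl]
      rw [pow_mul, (h1 i).2, one_pow]
    · refine ⟨(h1' i).1, ?_⟩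
      simp only [Sum.elim_inr, Sum.elim_inl]
      rw [mul_comm s s', pow_mul, (h1' i).2, one_pow]
    · simp only [Sum.elim_inr]
      constructor
      · intro h
        have h4 : χ i = (χ' j)⁻¹ := eq_inv_of_mul_eq_one_left h
        have h5 : (χ i) ^ s' = 1 := by rw [h4, inv_pow, (h1' j).2, inv_one]
        have h6 : (χ i) ^ (Nat.gcd s s') = 1 := pow_gcd_eq_one.mpr ⟨(h1 i).2, h5⟩
        rw [hs, pow_one] at h6
        exact (h1 i).1 h6
      · rw [mul_pow, pow_mul, (h1 i).2, one_pow, one_mul, mul_comm s s', pow_mul, (h1' j).2,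
          one_pow]
  · rw [Fintype.sum_sum_type, Fintype.sum_sum_type, Fintype.sum_prod_type]
    simp only [Sum.elim_inl, Sum.elim_inr, MulChar.coeToFun_mul, Pi.mul_apply]
    rw [h2 x hx, h2' x hx]
    have e1 : ∑ i, c' * b i * χ i x = c' * ∑ i, b i * χ i x := by
      rw [mul_sum]
      exact sum_congr rfl fun i _ => by ring
    have e2 : ∑ i, c * b' i * χ' i x = c * ∑ i, b' i * χ' i x := by
      rw [mul_sum]
      exact sum_congr rfl fun i _ => by ring
    have e3 : ∑ i, ∑ j, b i * b' j * (χ i x * χ' j x) =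
        (∑ i, b i * χ i x) * ∑ j, b' j * χ' j x := by
      rw [sum_mul_sum]
      exact sum_congr rfl fun i _ => sum_congr rfl fun j _ => by ring
    rw [e1, e2, e3]
    ring
  · rw [Fintype.sum_sum_type, Fintype.sum_sum_type, Fintype.sum_prod_type]
    simp only [Sum.elim_inl, Sum.elim_inr, norm_mul]
    rw [← mul_sum, ← mul_sum, ← sum_mul_sum]
    have h5 : (0 : ℝ) ≤ ∑ i, ‖b' i‖ := sum_nonneg fun i _ => norm_nonneg (b' i)
    have k1 := mul_le_mul_of_nonneg_left h3 (norm_nonneg c')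
    have k2 := mul_le_mul_of_nonneg_left h3' (norm_nonneg c)
    have k3 := mul_le_mul h3 h3' h5 hB
    linarith

end ring

section

variable {L : Type} [Field L] [Finite L]

theorem prim_gen : ∃ g : Lˣ, ∀ x : L, x ≠ 0 → ∃ k : ℕ, x = (g : L) ^ k := by
  obtain ⟨g, hg⟩ := IsCyclic.exists_monoid_generator (α := Lˣ)
  refine ⟨g, fun x hx => ?_⟩
  obtain ⟨k, hk⟩ := hg (Units.mk0 x hx)
  refine ⟨k, ?_⟩
  have := congrArg (fun u : Lˣ => (u : L)) hk
  simpa using this.symm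

theorem prim_char {r : ℕ} (hr : r.Prime) (hd : r ∣ Nat.card L - 1) :
    ∃ χ : MulChar L ℂ, orderOf χ = r ∧ ∀ x : L, x ≠ 0 → χ x = 1 → ∃ y : L, y ≠ 0 ∧ y ^ r = x := by
  classical
  have : Fintype L := Fintype.ofFinite L
  rw [Nat.card_eq_fintype_card] at hd
  obtain ⟨χ, hχ⟩ := MulChar.exists_mulChar_orderOf L hd (Complex.isPrimitiveRoot_exp r hr.ne_zero)
  refine ⟨χ, hχ, fun x hx h => ?_⟩
  obtain ⟨g, hg⟩ := prim_gen (L := L)
  obtain ⟨k, hk⟩ := hg x hx
  have hk1 : (χ (g : L)) ^ k = 1 := by rw [← map_pow, ← hk, h]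
  have hr1 : (χ (g : L)) ^ r = 1 := by
    have h1 : χ ^ r = 1 := by rw [← hχ]; exact pow_orderOf_eq_one χ
    rw [← MulChar.pow_apply_coe, h1, MulChar.one_apply_coe]
  have hrk : r ∣ k := by
    by_contra hrk
    have hcop : Nat.Coprime r k := (Nat.Prime.coprime_iff_not_dvd hr).mpr hrk
    have h2 : (χ (g : L)) ^ (Nat.gcd r k) = 1 := pow_gcd_eq_one.mpr ⟨hr1, hk1⟩
    rw [hcop, pow_one] at h2
    have h3 : χ = 1 := by
      ext u
      obtain ⟨j, hj⟩ := hg (u : L) u.ne_zero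
      rw [MulChar.one_apply_coe, hj, map_pow, h2, one_pow]
    rw [h3, orderOf_one] at hχ
    exact hr.one_lt.ne hχ
  obtain ⟨m, rfl⟩ := hrk
  refine ⟨(g : L) ^ m, pow_ne_zero _ g.ne_zero, ?_⟩
  rw [hk, ← pow_mul, mul_comm]

theorem prim_powInd {r : ℕ} (hr : r.Prime) (hd : r ∣ Nat.card L - 1) :
    MN (L := L) (powInd r) r (1 / (r : ℂ)) (1 - 1 / (r : ℝ)) := by
  classical
  obtain ⟨χ, hχ, hpow⟩ := prim_char (L := L) hr hd
  obtain ⟨m, hm⟩ : ∃ m, r = m + 1 := ⟨r - 1, by have := hr.pos; omega⟩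
  have hr0 : (r : ℂ) ≠ 0 := by exact_mod_cast hr.ne_zero
  have hχr : χ ^ r = 1 := by rw [← hχ]; exact pow_orderOf_eq_one χ
  refine ⟨Fin m, inferInstance, fun _ => 1 / (r : ℂ), fun j => χ ^ ((j : ℕ) + 1), ?_, ?_, ?_⟩
  · intro j
    constructor
    · intro h
      have h1 := orderOf_dvd_of_pow_eq_one h
      rw [hχ] at h1
      have h2 := Nat.le_of_dvd (by omega) h1
      have := j.2
      omega
    · rw [← pow_mul, mul_comm, pow_mul, hχr, one_pow]
  · intro x hx
    have hsum : ∑ j : Fin m, (1 / (r : ℂ)) * (χ ^ ((j : ℕ) + 1)) x =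
        (1 / (r : ℂ)) * ∑ j ∈ range m, (χ x) ^ (j + 1) := by
      rw [mul_sum, ← Fin.sum_univ_eq_sum_range (fun j => (1 / (r : ℂ)) * (χ x) ^ (j + 1)) m]
      apply sum_congr rfl
      intro j _
      rw [MulChar.pow_apply' χ (Nat.succ_ne_zero _)]
    have hgeo : ∑ j ∈ range r, (χ x) ^ j = ∑ j ∈ range m, (χ x) ^ (j + 1) + 1 := by
      rw [hm, sum_range_succ', pow_zero]
    rw [hsum]
    unfold powInd
    split_ifs with h
    · obtain ⟨y, hy0, hy⟩ := h
      have h1 : χ x = 1 := by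
        rw [← hy, map_pow, ← MulChar.pow_apply' χ hr.ne_zero, hχr]
        exact MulChar.one_apply (Ne.isUnit hy0)
      simp only [h1, one_pow, sum_const, card_range, nsmul_eq_mul, mul_one]
      rw [hm]
      push_cast
      have : (m : ℂ) + 1 ≠ 0 := by
        have h2 : ((m + 1 : ℕ) : ℂ) ≠ 0 := by rw [← hm]; exact hr0
        simpa using h2
      field_simp
      ring
    · have h1 : χ x ≠ 1 := fun h1 => h (hpow x hx h1)
      have h2 : (χ x) ^ r = 1 := by
        rw [← MulChar.pow_apply' χ hr.ne_zero, hχr]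
        exact MulChar.one_apply (Ne.isUnit hx)
      have h3 : ∑ j ∈ range r, (χ x) ^ j = 0 := by
        rw [geom_sum_eq h1, h2, sub_self, zero_div]
      rw [hgeo] at h3
      have h4 : ∑ j ∈ range m, (χ x) ^ (j + 1) = -1 := by linear_combination h3
      rw [h4]
      ring
  · simp only [sum_const, card_univ, Fintype.card_fin, nsmul_eq_mul, norm_div, norm_one,
      Complex.norm_natCast]
    rw [hm]
    have : (0 : ℝ) < (m : ℝ) + 1 := by positivity
    push_cast
    rw [mul_one_div, one_sub_div this.ne']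
    apply le_of_eq
    congr 1
    ring

theorem prim_R (R : Finset ℕ) (hR : ∀ r ∈ R, r.Prime ∧ r ∣ Nat.card L - 1) :
    MN (L := L) (fun x => ∏ r ∈ R, (1 - powInd r x)) (∏ r ∈ R, r)
      ((∏ r ∈ R, (1 - 1 / (r : ℝ)) : ℝ) : ℂ) ((∏ r ∈ R, (1 - 1 / (r : ℝ))) * (2 ^ R.card - 1)) := by
  classical
  induction R using Finset.induction_on with
  | empty =>
    refine prim_congr (prim_one (L := L)) (fun x => by simp) (by simp) (by simp)
  | insert a R ha ih =>
    have h1 := ih fun r hr => hR r (mem_insert_of_mem hr)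
    obtain ⟨hap, had⟩ := hR a (mem_insert_self a R)
    have h2 := prim_one_sub (prim_powInd (L := L) hap had)
    have hcop : Nat.Coprime (∏ r ∈ R, r) a := by
      apply Nat.Coprime.prod_left
      intro r hr
      refine (Nat.coprime_primes (hR r (mem_insert_of_mem hr)).1 hap).mpr ?_
      rintro rfl
      exact ha hr
    have h3 := prim_mul hcop h1 h2
    rw [prod_insert ha]
    have ha1 : (1 : ℝ) ≤ a := by exact_mod_cast hap.one_lt.le
    have hpos : (0 : ℝ) ≤ 1 - 1 / (a : ℝ) := by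
      rw [sub_nonneg, div_le_one (by linarith)]
      exact ha1
    have hθ : 0 ≤ ∏ r ∈ R, (1 - 1 / (r : ℝ)) := by
      apply prod_nonneg
      intro r hr
      have hr1 : (1 : ℝ) ≤ r := by
        exact_mod_cast (hR r (mem_insert_of_mem hr)).1.one_lt.le
      rw [sub_nonneg, div_le_one (by linarith)]
      exact hr1
    rw [mul_comm a]
    refine prim_congr h3 (fun x => ?_) ?_ ?_
    · rw [prod_insert ha, mul_comm]
    · rw [prod_insert ha]
      push_cast
      ring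
    · have e1 : ‖((∏ r ∈ R, (1 - 1 / (r : ℝ)) : ℝ) : ℂ)‖ = ∏ r ∈ R, (1 - 1 / (r : ℝ)) := by
        rw [Complex.norm_real, Real.norm_of_nonneg hθ]
      have e2 : ‖(1 : ℂ) - 1 / (a : ℂ)‖ = 1 - 1 / (a : ℝ) := by
        have : (1 : ℂ) - 1 / (a : ℂ) = ((1 - 1 / (a : ℝ) : ℝ) : ℂ) := by push_cast; ring
        rw [this, Complex.norm_real, Real.norm_of_nonneg hpos]
      rw [e1, e2, prod_insert ha, card_insert_of_notMem ha, pow_succ]
      apply le_of_eq
      ring

theorem prim_S (R S : Finset ℕ) (hR : ∀ r ∈ R, r.Prime ∧ r ∣ Nat.card L - 1)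
    (hS : ∀ r ∈ S, r.Prime ∧ r ∣ Nat.card L - 1) (hRS : Disjoint R S) :
    ∃ s : ℕ, MN (L := L)
      (fun x => (∏ r ∈ R, (1 - powInd r x)) * (1 - ∑ r ∈ S, powInd r x)) s
      (((∏ r ∈ R, (1 - 1 / (r : ℝ))) * (1 - ∑ r ∈ S, 1 / (r : ℝ)) : ℝ) : ℂ)
      ((∏ r ∈ R, (1 - 1 / (r : ℝ))) * 2 ^ R.card * (1 + S.card)) := by
  classical
  have hθ : 0 ≤ ∏ r ∈ R, (1 - 1 / (r : ℝ)) := by
    apply prod_nonneg
    intro r hr
    have hr1 : (1 : ℝ) ≤ r := by exact_mod_cast (hR r hr).1.one_lt.le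
    rw [sub_nonneg, div_le_one (by linarith)]
    exact hr1
  have e1 : ‖((∏ r ∈ R, (1 - 1 / (r : ℝ)) : ℝ) : ℂ)‖ = ∏ r ∈ R, (1 - 1 / (r : ℝ)) := by
    rw [Complex.norm_real, Real.norm_of_nonneg hθ]
  have hF := prim_R (L := L) R hR
  induction S using Finset.induction_on with
  | empty =>
    refine ⟨_, prim_congr hF (fun x => by simp) (by simp) ?_⟩
    simp only [card_empty, Nat.cast_zero, add_zero, mul_one]
    have : (∏ r ∈ R, (1 - 1 / (r : ℝ))) * (2 ^ R.card - 1) =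
        (∏ r ∈ R, (1 - 1 / (r : ℝ))) * 2 ^ R.card - ∏ r ∈ R, (1 - 1 / (r : ℝ)) := by ring
    rw [this]
    linarith
  | insert a S ha ih =>
    obtain ⟨s, h1⟩ := ih (fun r hr => hS r (mem_insert_of_mem hr))
      (Finset.disjoint_of_subset_right (subset_insert a S) hRS)
    obtain ⟨hap, had⟩ := hS a (mem_insert_self a S)
    have haR : a ∉ R := fun h => (Finset.disjoint_left.mp hRS h) (mem_insert_self a S)
    have hcop : Nat.Coprime (∏ r ∈ R, r) a := by
      apply Nat.Coprime.prod_left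
      intro r hr
      refine (Nat.coprime_primes (hR r hr).1 hap).mpr ?_
      rintro rfl
      exact haR hr
    have h2 := prim_mul hcop hF (prim_powInd (L := L) hap had)
    have h3 := prim_add h1 (prim_smul h2 (-1))
    refine ⟨_, prim_congr h3 (fun x => ?_) ?_ ?_⟩
    · rw [sum_insert ha]
      ring
    · rw [sum_insert ha]
      push_cast
      ring
    · have ha1 : (1 : ℝ) ≤ a := by exact_mod_cast hap.one_lt.le
      have e2 : ‖(1 : ℂ) / (a : ℂ)‖ = 1 / (a : ℝ) := by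
        rw [norm_div, norm_one, Complex.norm_natCast]
      have e3 : ‖(-1 : ℂ)‖ = 1 := by simp
      rw [e1, e2, e3, card_insert_of_notMem ha]
      have hinv : (0 : ℝ) ≤ 1 / (a : ℝ) := by positivity
      push_cast
      have := mul_nonneg hθ hinv
      nlinarith

theorem mn_sieve {L : Type} [Field L] [Finite L] (R S : Finset ℕ)
    (hR : R ⊆ (Nat.card L - 1).primeFactors) (hS : S ⊆ (Nat.card L - 1).primeFactors)
    (hRS : Disjoint R S) :
    ∃ s : ℕ, MN (L := L)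
      (fun x => (∏ r ∈ R, (1 - powInd r x)) * (1 - ∑ r ∈ S, powInd r x)) s
      (((∏ r ∈ R, (1 - 1 / (r : ℝ))) * (1 - ∑ r ∈ S, 1 / (r : ℝ)) : ℝ) : ℂ)
      ((∏ r ∈ R, (1 - 1 / (r : ℝ))) * 2 ^ R.card * (1 + S.card)) :=
  prim_S R S (fun _ hr => ⟨Nat.prime_of_mem_primeFactors (hR hr),
    Nat.dvd_of_mem_primeFactors (hR hr)⟩) (fun _ hr => ⟨Nat.prime_of_mem_primeFactors (hS hr),
    Nat.dvd_of_mem_primeFactors (hS hr)⟩) hRS

theorem prim_of {L : Type} [Field L] [Finite L] (x : L) (hx : x ≠ 0)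
    (h : ∀ r ∈ (Nat.card L - 1).primeFactors, ¬ ∃ y : L, y ≠ 0 ∧ y ^ r = x) : Prim x := by
  classical
  obtain ⟨g, hg⟩ := prim_gen (L := L)
  obtain ⟨k, hk⟩ := hg x hx
  have hcardu : Nat.card Lˣ = Nat.card L - 1 := by
    have : Fintype L := Fintype.ofFinite L
    rw [Nat.card_eq_fintype_card, Nat.card_eq_fintype_card, Fintype.card_units]
  have hN : 0 < Nat.card L - 1 := by
    have : 1 < Nat.card L := Finite.one_lt_card
    omega
  have hcop : Nat.Coprime k (Nat.card L - 1) := by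
    by_contra hc
    obtain ⟨r, hr, hr1, hr2⟩ := Nat.Prime.not_coprime_iff_dvd.mp hc
    obtain ⟨m, rfl⟩ := hr1
    refine h r (Nat.mem_primeFactors.mpr ⟨hr, hr2, hN.ne'⟩) ⟨(g : L) ^ m, pow_ne_zero _ g.ne_zero, ?_⟩
    rw [hk, ← pow_mul, mul_comm]
  intro y hy
  obtain ⟨j, hj⟩ := hg y hy
  have hgN : g ^ (Nat.card L - 1) = 1 := by
    rw [← hcardu]
    exact pow_card_eq_one'
  obtain ⟨m, hm⟩ := exists_pow_eq_self_of_coprime
    (hcop.coprime_dvd_right (orderOf_dvd_of_pow_eq_one hgN))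
  refine ⟨m * j, ?_⟩
  have h1 : ((g : L) ^ k) ^ m = g := by
    have := congrArg (fun u : Lˣ => (u : L)) hm
    simpa using this
  rw [hk, hj, pow_mul, h1]

end

end Pool.Agent.MM
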