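import Mathlib
import Pool.Agent.MM.Defs
import Pool.Agent.MM.GAU
import Pool.Agent.MM.FOU
import Pool.Agent.MM.PRIM

/-! # Module CRIT: the sieve criterion -/

namespace Pool.Agent.MM

open Finset Polynomial

section

variable {L : Type} [Field L] [Fintype L] [DecidableEq L]

/-- mixed sums: the multiplicative expansion times the additive one -/
theorem crit_mixed {f G : L → ℂ} {s : ℕ} {c : ℂ} {B B' : ℝ} (hf : MN f s c B) (hG : AN G B') :
    ‖∑ x : L with x ≠ 0, (f x - c) * G x‖ ≤ B * B' * √(Fintype.card L : ℝ) := by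
  classical
  have hB := prim_nonneg hf
  obtain ⟨ι, hι, b, χ, h1, h2, h3⟩ := hf
  obtain ⟨κ, hκ, a, ψ, k1, k2⟩ := hG
  have e1 : ∑ x : L with x ≠ 0, (f x - c) * G x =
      ∑ i, ∑ j, b i * a j * ∑ x, χ i x * ψ j x := by
    have e2 : ∑ x : L with x ≠ 0, (f x - c) * G x =
        ∑ x : L, (∑ i, b i * χ i x) * (∑ j, a j * ψ j x) := by
      rw [sum_filter]
      apply sum_congr rfl
      intro x _
      split_ifs with hx
      · rw [h2 x hx, k1 x]
        ring
      · push Not at hx
        subst hx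
        have : ∑ i, b i * χ i (0 : L) = 0 := by
          apply sum_eq_zero
          intro i _
          rw [MulChar.map_zero, mul_zero]
        rw [this, zero_mul]
    rw [e2]
    have e3 : ∀ x : L, (∑ i, b i * χ i x) * (∑ j, a j * ψ j x) =
        ∑ i, ∑ j, b i * a j * (χ i x * ψ j x) := by
      intro x
      rw [sum_mul_sum]
      exact sum_congr rfl fun i _ => sum_congr rfl fun j _ => by ring
    rw [sum_congr rfl fun x _ => e3 x, sum_comm]
    apply sum_congr rfl
    intro i _
    rw [sum_comm]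
    apply sum_congr rfl
    intro j _
    rw [mul_sum]
  rw [e1]
  have hs := Real.sqrt_nonneg (Fintype.card L : ℝ)
  calc ‖∑ i, ∑ j, b i * a j * ∑ x, χ i x * ψ j x‖
      ≤ ∑ i, ∑ j, ‖b i‖ * ‖a j‖ * √(Fintype.card L : ℝ) := by
        refine (norm_sum_le _ _).trans (sum_le_sum fun i _ => ?_)
        refine (norm_sum_le _ _).trans (sum_le_sum fun j _ => ?_)
        rw [norm_mul, norm_mul]
        exact mul_le_mul_of_nonneg_left (char_sum_le (χ i) (h1 i).1 (ψ j)) (by positivity)
    _ = (∑ i, ‖b i‖) * (∑ j, ‖a j‖) * √(Fintype.card L : ℝ) := by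
        rw [sum_mul_sum, sum_mul]
        apply sum_congr rfl
        intro i _
        rw [sum_mul]
    _ ≤ B * B' * √(Fintype.card L : ℝ) := by
        apply mul_le_mul_of_nonneg_right _ hs
        exact mul_le_mul h3 k2 (sum_nonneg fun j _ => norm_nonneg _) hB

end

theorem crit_powInd_re {L : Type} [Field L] (r : ℕ) (x : L) : 0 ≤ (powInd r x).re := by
  classical
  unfold powInd
  split_ifs <;> simp

/-- real valued versions of the indicators -/
theorem crit {L : Type} [Field L] [Finite L] (C D : Finset (AddSubgroup L)) (R S : Finset ℕ)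
    (hRS : R ∪ S = (Nat.card L - 1).primeFactors) (hdis : Disjoint R S) (P : ℝ) (hP0 : 0 ≤ P)
    (hP : P * Nat.card L ≤ Nat.card {x : L // ∀ M ∈ C, x ∉ M})
    (h : 2 ^ R.card * √(Nat.card L : ℝ) * ((1 + S.card) * 2 ^ C.card + D.card) + 1 +
        ∑ M ∈ D, (Nat.card M : ℝ) < (1 - ∑ s ∈ S, 1 / (s : ℝ)) * P * Nat.card L) :
    ∃ x : L, Prim x ∧ (∀ M ∈ C, x ∉ M) ∧ ∀ M ∈ D, x ∉ M := by
  classical
  by_contra hcon
  push Not at hcon
  have : Fintype L := Fintype.ofFinite L
  have hRsub : R ⊆ (Nat.card L - 1).primeFactors := by rw [← hRS]; exact subset_union_left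
  have hSsub : S ⊆ (Nat.card L - 1).primeFactors := by rw [← hRS]; exact subset_union_right
  set θ : ℝ := ∏ r ∈ R, (1 - 1 / (r : ℝ)) with hθ
  set δ : ℝ := 1 - ∑ s ∈ S, 1 / (s : ℝ) with hδ
  have hθ0 : 0 < θ := by
    apply prod_pos
    intro r hr
    have h1 := (Nat.prime_of_mem_primeFactors (hRsub hr)).one_lt
    have h2 : (1 : ℝ) < r := by exact_mod_cast h1
    rw [sub_pos, div_lt_one (by linarith)]
    exact h2
  have hδ1 : δ ≤ 1 := by
    have : 0 ≤ ∑ s ∈ S, 1 / (s : ℝ) := sum_nonneg fun s _ => by positivity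
    rw [hδ]
    linarith
  set f : L → ℂ := fun x => ∏ r ∈ R, (1 - powInd r x) with hf
  set F : L → ℂ := fun x => (∏ r ∈ R, (1 - powInd r x)) * (1 - ∑ r ∈ S, powInd r x) with hF
  set G : L → ℂ := fun x => ∏ M ∈ C, (1 - subInd M x) with hG
  obtain ⟨s1, hMF⟩ := mn_sieve (L := L) R S hRsub hSsub hdis
  obtain ⟨s2, hMf'⟩ := mn_sieve (L := L) R ∅ hRsub (empty_subset _) (disjoint_empty_right _)
  have hMf : MN f s2 (θ : ℂ) (θ * 2 ^ R.card) := by
    refine prim_congr hMf' (fun x => ?_) ?_ ?_
    · simp [hf]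
    · simp [hθ]
    · simp [hθ]
  have hAG : AN G (2 ^ C.card) := an_core C
  -- first mixed sum
  have m1 := crit_mixed (f := F) (G := G) hMF hAG
  -- values of G
  have hsub : ∀ (M : AddSubgroup L) (x : L), subInd M x = if x ∈ M then 1 else 0 := fun M x => rfl
  have hGval : ∀ x, G x = if ∀ M ∈ C, x ∉ M then 1 else 0 := by
    intro x
    split_ifs with hx
    · apply prod_eq_one
      intro M hM
      rw [hsub, if_neg (hx M hM), sub_zero]
    · push Not at hx
      obtain ⟨M, hM, hxM⟩ := hx
      apply prod_eq_zero hM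
      rw [hsub, if_pos hxM, sub_self]
  have hfval : ∀ x, f x = if ∀ r ∈ R, ¬ ∃ y : L, y ≠ 0 ∧ y ^ r = x then 1 else 0 := by
    intro x
    split_ifs with hx
    · apply prod_eq_one
      intro r hr
      unfold powInd
      rw [if_neg (hx r hr), sub_zero]
    · push Not at hx
      obtain ⟨r, hr, y, hy⟩ := hx
      apply prod_eq_zero hr
      unfold powInd
      rw [if_pos ⟨y, hy⟩, sub_self]
  have hFf : ∀ x, F x = f x * (1 - ∑ r ∈ S, powInd r x) := fun x => rfl
  -- the pointwise inequality
  have hterm : ∀ x, ∀ M ∈ D, 0 ≤ (f x * subInd M x).re := by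
    intro x M _
    rw [hfval, hsub]
    split_ifs <;> simp
  have hpt : ∀ x : L, x ≠ 0 → (F x * G x).re ≤ ∑ M ∈ D, (f x * subInd M x).re := by
    intro x hx0
    have hnn : 0 ≤ ∑ M ∈ D, (f x * subInd M x).re := sum_nonneg (hterm x)
    by_cases h1 : ∀ r ∈ R, ¬ ∃ y : L, y ≠ 0 ∧ y ^ r = x
    · have hf1 : f x = 1 := by rw [hfval, if_pos h1]
      by_cases h2 : ∀ M ∈ C, x ∉ M
      · have hG1 : G x = 1 := by rw [hGval, if_pos h2]
        by_cases h3 : ∀ r ∈ S, ¬ ∃ y : L, y ≠ 0 ∧ y ^ r = x
        · have hprim : Prim x := by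
            apply prim_of x hx0
            intro r hr
            rw [← hRS] at hr
            rcases mem_union.mp hr with hr | hr
            · exact h1 r hr
            · exact h3 r hr
          obtain ⟨M, hM, hxM⟩ := hcon x hprim h2
          have h4 : (f x * subInd M x).re = 1 := by
            rw [hf1, hsub, if_pos hxM]
            simp
          have h5 : (F x * G x).re = 1 := by
            rw [hFf, hf1, hG1]
            have : ∑ r ∈ S, powInd r x = 0 := by
              apply sum_eq_zero
              intro r hr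
              unfold powInd
              rw [if_neg (h3 r hr)]
            rw [this]
            simp
          rw [h5, ← h4]
          exact single_le_sum (f := fun M => (f x * subInd M x).re) (hterm x) hM
        · push Not at h3
          obtain ⟨r, hr, y, hy⟩ := h3
          refine le_trans ?_ hnn
          rw [hFf, hf1, hG1, one_mul, mul_one, Complex.sub_re, Complex.one_re, Complex.re_sum]
          have h4 : (powInd r x).re = 1 := by
            unfold powInd
            rw [if_pos ⟨y, hy⟩]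
            simp
          have h5 := single_le_sum (f := fun r => (powInd r x).re)
            (fun r _ => crit_powInd_re r x) hr
          simp only [h4] at h5
          linarith
      · have hG0 : G x = 0 := by rw [hGval, if_neg h2]
        rw [hG0, mul_zero, Complex.zero_re]
        exact hnn
    · have hf0 : f x = 0 := by rw [hfval, if_neg h1]
      have hFG : F x * G x = 0 := by rw [hFf, hf0, zero_mul, zero_mul]
      rw [hFG, Complex.zero_re]
      exact hnn
  -- sum over the nonzero elements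
  have hsum : (∑ x : L with x ≠ 0, F x * G x).re ≤
      ∑ M ∈ D, (∑ x : L with x ≠ 0, f x * subInd M x).re := by
    rw [Complex.re_sum]
    have e1 : ∑ M ∈ D, (∑ x : L with x ≠ 0, f x * subInd M x).re =
        ∑ x : L with x ≠ 0, ∑ M ∈ D, (f x * subInd M x).re := by
      rw [sum_comm]
      exact sum_congr rfl fun M _ => Complex.re_sum _ _
    rw [e1]
    apply sum_le_sum
    intro x hx
    exact hpt x (mem_filter.mp hx).2
  -- main term
  set nG : ℝ := ((univ.filter (fun x : L => x ≠ 0 ∧ ∀ M ∈ C, x ∉ M)).card : ℝ) with hnG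
  have hGsum : ∑ x : L with x ≠ 0, G x = (nG : ℂ) := by
    rw [sum_congr rfl fun x _ => hGval x, ← sum_filter, filter_filter, sum_const, nsmul_eq_mul,
      mul_one, hnG]
    simp
  have hleft : θ * δ * nG - θ * 2 ^ R.card * (1 + S.card) * 2 ^ C.card * √(Nat.card L : ℝ) ≤
      (∑ x : L with x ≠ 0, F x * G x).re := by
    have e1 : ∑ x : L with x ≠ 0, (F x - ((θ * δ : ℝ) : ℂ)) * G x =
        ∑ x : L with x ≠ 0, F x * G x - ((θ * δ * nG : ℝ) : ℂ) := by
      have : ∀ x : L, (F x - ((θ * δ : ℝ) : ℂ)) * G x = F x * G x - ((θ * δ : ℝ) : ℂ) * G x :=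
        fun x => by ring
      rw [sum_congr rfl fun x _ => this x, sum_sub_distrib, ← mul_sum, hGsum]
      push_cast
      ring
    rw [e1] at m1
    have h1 := (Complex.abs_re_le_norm _).trans m1
    rw [Complex.sub_re, Complex.ofReal_re] at h1
    have h2 := (abs_le.mp h1).1
    rw [Nat.card_eq_fintype_card]
    linarith
  have hright : ∀ M ∈ D, (∑ x : L with x ≠ 0, f x * subInd M x).re ≤
      θ * ((Nat.card M : ℝ) - 1) + θ * 2 ^ R.card * √(Nat.card L : ℝ) := by
    intro M _
    have m2 := crit_mixed (f := f) (G := subInd M) hMf (an_subInd M)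
    have hcount : ∑ x : L with x ≠ 0, subInd M x = (((Nat.card M : ℝ) - 1 : ℝ) : ℂ) := by
      have h1 : ∑ x : L, subInd M x = (Nat.card M : ℂ) := by
        rw [sum_congr rfl fun x _ => hsub M x, ← sum_filter, sum_const, nsmul_eq_mul, mul_one]
        congr 1
        rw [Nat.card_eq_fintype_card, ← Fintype.card_subtype]
      have h2 : ∑ x : L, subInd M x = ∑ x : L with x ≠ 0, subInd M x + subInd M (0 : L) := by
        rw [← Finset.sum_filter_add_sum_filter_not univ (fun x : L => x ≠ 0)]
        congr 1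
        have : (univ.filter fun x : L => ¬ x ≠ 0) = {0} := by
          ext x
          simp
        rw [this, sum_singleton]
      have h3 : subInd M (0 : L) = 1 := by
        rw [hsub, if_pos M.zero_mem]
      rw [h3, h1] at h2
      push_cast
      rw [h2]
      ring
    have e1 : ∑ x : L with x ≠ 0, (f x - (θ : ℂ)) * subInd M x =
        ∑ x : L with x ≠ 0, f x * subInd M x - ((θ * ((Nat.card M : ℝ) - 1) : ℝ) : ℂ) := by
      have : ∀ x : L, (f x - (θ : ℂ)) * subInd M x = f x * subInd M x - (θ : ℂ) * subInd M x :=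
        fun x => by ring
      rw [sum_congr rfl fun x _ => this x, sum_sub_distrib, ← mul_sum, hcount]
      push_cast
      ring
    rw [e1] at m2
    have h1 := (Complex.abs_re_le_norm _).trans m2
    rw [Complex.sub_re, Complex.ofReal_re] at h1
    have h2 := (abs_le.mp h1).2
    rw [Nat.card_eq_fintype_card (α := L)]
    linarith
  -- number of points avoiding the core
  have hnP : P * Nat.card L - 1 ≤ nG := by
    have h1 : Nat.card {x : L // ∀ M ∈ C, x ∉ M} ≤
        (univ.filter (fun x : L => x ≠ 0 ∧ ∀ M ∈ C, x ∉ M)).card + 1 := by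
      rw [Nat.card_eq_fintype_card, Fintype.card_subtype]
      calc (univ.filter (fun x : L => ∀ M ∈ C, x ∉ M)).card
          ≤ (insert 0 (univ.filter (fun x : L => x ≠ 0 ∧ ∀ M ∈ C, x ∉ M))).card := by
            apply card_le_card
            intro x hx
            rw [mem_filter] at hx
            by_cases hx0 : x = 0
            · rw [hx0]; exact mem_insert_self _ _
            · apply mem_insert_of_mem
              rw [mem_filter]
              exact ⟨mem_univ _, hx0, hx.2⟩
        _ ≤ (univ.filter (fun x : L => x ≠ 0 ∧ ∀ M ∈ C, x ∉ M)).card + 1 := card_insert_le _ _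
    have h2 : (Nat.card {x : L // ∀ M ∈ C, x ∉ M} : ℝ) ≤ nG + 1 := by
      rw [hnG]
      exact_mod_cast h1
    linarith
  -- conclusion
  have hsq := Real.sqrt_nonneg (Nat.card L : ℝ)
  have hSc : (0 : ℝ) ≤ ∑ M ∈ D, (Nat.card M : ℝ) := sum_nonneg fun M _ => Nat.cast_nonneg _
  have hcL : (0 : ℝ) ≤ Nat.card L := Nat.cast_nonneg _
  have hpos1 : 0 ≤ 2 ^ R.card * √(Nat.card L : ℝ) * ((1 + S.card) * 2 ^ C.card + D.card) := by
    positivity
  have hδ0 : 0 < δ := by
    by_contra hneg
    push Not at hneg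
    have h1 : δ * P * Nat.card L ≤ 0 := by
      have := mul_nonneg hP0 hcL
      nlinarith
    linarith
  have htot : θ * δ * nG - θ * 2 ^ R.card * (1 + S.card) * 2 ^ C.card * √(Nat.card L : ℝ) ≤
      ∑ M ∈ D, (θ * ((Nat.card M : ℝ) - 1) + θ * 2 ^ R.card * √(Nat.card L : ℝ)) :=
    hleft.trans (hsum.trans (sum_le_sum hright))
  rw [sum_add_distrib, ← mul_sum, sum_sub_distrib, sum_const, sum_const, nsmul_eq_mul,
    nsmul_eq_mul, mul_one] at htot
  have hD0 : (0 : ℝ) ≤ D.card := Nat.cast_nonneg _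
  have h5 : θ * (δ * nG) ≤ θ * (2 ^ R.card * √(Nat.card L : ℝ) *
      ((1 + S.card) * 2 ^ C.card + D.card) + ∑ M ∈ D, (Nat.card M : ℝ)) := by
    have h6 : 0 ≤ θ * D.card := mul_nonneg hθ0.le hD0
    have e : θ * (2 ^ R.card * √(Nat.card L : ℝ) *
      ((1 + S.card) * 2 ^ C.card + D.card) + ∑ M ∈ D, (Nat.card M : ℝ)) =
      θ * 2 ^ R.card * (1 + S.card) * 2 ^ C.card * √(Nat.card L : ℝ) +
        D.card * (θ * 2 ^ R.card * √(Nat.card L : ℝ)) + θ * ∑ M ∈ D, (Nat.card M : ℝ) := by ring
    rw [e]
    linarith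
  have h7 := le_of_mul_le_mul_left h5 hθ0
  have h8 : δ * (P * Nat.card L - 1) ≤ δ * nG := mul_le_mul_of_nonneg_left hnP hδ0.le
  linarith

end Pool.Agent.MM
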