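import Mathlib
import Pool.Agent.MM.Defs
import Pool.Agent.MM.PER

/-! # Module ZB: bounds for the number of events of given degree -/

namespace Pool.Agent.MM

open Finset Polynomial

section

variable {K L Om : Type} [Field K] [Field L] [Field Om] [Algebra K L] [Algebra K Om]
  [Algebra L Om] [IsScalarTower K L Om] [Finite K] [Finite L]

theorem zb_roots (m : ℕ) : (nthRootsFinset m (1 : Om)).card ≤ m := by
  classical
  unfold nthRootsFinset
  exact (Multiset.toFinset_card_le _).trans (card_nthRoots m 1)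

theorem card_Zs_le (d t : ℕ) : (Zs K L Om d t).card ≤ deg K L / d := by
  classical
  unfold Zs
  exact (card_filter_le _ _).trans (zb_roots _)

theorem card_Zs_le_gcd (d t : ℕ) (ht : 0 < t) :
    (Zs K L Om d t).card ≤ (deg K L).gcd (Nat.card K ^ t - 1) := by
  classical
  have hq : 2 ≤ Nat.card K := Finite.one_lt_card
  have hq1 : 1 < Nat.card K ^ t := Nat.one_lt_pow ht.ne' (by omega)
  have hg : 0 < (deg K L).gcd (Nat.card K ^ t - 1) := Nat.gcd_pos_of_pos_right _ (by omega)
  refine (card_le_card ?_).trans (zb_roots (Om := Om) _)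
  intro z hz
  rw [mem_Zs] at hz
  obtain ⟨⟨hd, hz1, -⟩, hper⟩ := hz
  have hzn : z ^ (deg K L) = 1 := by
    rw [← Nat.div_mul_cancel hd, pow_mul, hz1, one_pow]
  have hn0 : deg K L ≠ 0 := by
    unfold deg
    have : Module.Finite K L := Module.Finite.of_finite
    exact Module.finrank_pos.ne'
  have hz0 : z ≠ 0 := by
    intro h
    rw [h, zero_pow hn0] at hzn
    exact zero_ne_one hzn
  have hzq : z ^ (Nat.card K ^ t) = z := (per_dvd_iff z t).mp (by rw [hper])
  have hzq1 : z ^ (Nat.card K ^ t - 1) = 1 := by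
    have h1 : z ^ (Nat.card K ^ t - 1) * z = 1 * z := by
      rw [← pow_succ, Nat.sub_add_cancel hq1.le, hzq, one_mul]
    exact mul_right_cancel₀ hz0 h1
  rw [mem_nthRootsFinset hg]
  exact pow_gcd_eq_one.mpr ⟨hzn, hzq1⟩

end

end Pool.Agent.MM
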