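import Mathlib
import Pool.Agent.MM.Defs
import Pool.Agent.MM.ZB

/-! # Module EB: the expected number of bad events -/

namespace Pool.Agent.MM

open Finset Polynomial

theorem eb_sigma (M : ℕ) : ∑ t ∈ Ioc 0 M, ∑ j ∈ t.divisors, (1 : ℝ) / j ≤ 2 * M := by
  have h1 : ∀ t ∈ Ioc 0 M, ∑ j ∈ t.divisors, (1 : ℝ) / j =
      ∑ j ∈ Ioc 0 M, if j ∣ t then (1 : ℝ) / j else 0 := by
    intro t ht
    rw [mem_Ioc] at ht
    rw [← sum_filter]
    apply sum_congr _ fun _ _ => rfl
    ext j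
    simp only [Nat.mem_divisors, mem_filter, mem_Ioc]
    constructor
    · rintro ⟨hj, h0⟩
      exact ⟨⟨Nat.pos_of_dvd_of_pos hj ht.1, (Nat.le_of_dvd ht.1 hj).trans ht.2⟩, hj⟩
    · rintro ⟨_, hj⟩
      exact ⟨hj, by omega⟩
  rw [sum_congr rfl h1, sum_comm]
  have h2 : ∀ j ∈ Ioc 0 M, (∑ t ∈ Ioc 0 M, if j ∣ t then (1 : ℝ) / j else 0) ≤
      M * ((j : ℝ) ^ 2)⁻¹ := by
    intro j hj
    rw [mem_Ioc] at hj
    have hj0 : (0 : ℝ) < j := by exact_mod_cast hj.1
    rw [← sum_filter, sum_const, nsmul_eq_mul, Nat.Ioc_filter_dvd_card_eq_div]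
    have h3 : ((M / j : ℕ) : ℝ) ≤ M / j := Nat.cast_div_le
    calc ((M / j : ℕ) : ℝ) * (1 / j) ≤ (M / j) * (1 / j) := by gcongr
      _ = M * ((j : ℝ) ^ 2)⁻¹ := by field_simp
  refine (sum_le_sum h2).trans ?_
  rw [← mul_sum, mul_comm]
  apply mul_le_mul_of_nonneg_right _ (Nat.cast_nonneg M)
  have h3 := sum_Ioo_inv_sq_le (α := ℝ) 0 (M + 1)
  have h4 : Ioo 0 (M + 1) = Ioc 0 M := by
    ext x
    simp only [mem_Ioo, mem_Ioc]
    omega
  rw [h4] at h3
  simpa using h3

theorem eb_geom (a N : ℕ) : ∑ t ∈ Ico a N, ((1 : ℝ) / 2) ^ (t - a) ≤ 2 := by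
  rw [Finset.sum_Ico_eq_sum_range]
  have h : ∀ k ∈ range (N - a), ((1 : ℝ) / 2) ^ (a + k - a) = (1 / 2) ^ k := by
    intro k _
    rw [Nat.add_sub_cancel_left]
  rw [sum_congr rfl h, geom_sum_eq (by norm_num)]
  have : (0 : ℝ) ≤ (1 / 2) ^ (N - a) := by positivity
  rw [div_le_iff_of_neg (by norm_num)]
  linarith

section

variable {K L Om : Type} [Field K] [Field L] [Field Om] [Algebra K L] [Algebra K Om]
  [Algebra L Om] [IsScalarTower K L Om] [Finite K] [Finite L]

theorem eb (T : ℕ) : ET K L Om T ≤ 2 * (Nat.clog (Nat.card K) (deg K L) : ℝ) + 2 := by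
  classical
  set n := deg K L with hndef
  set q := Nat.card K with hqdef
  set t1 := Nat.clog q n with ht1
  have hq : 2 ≤ q := by
    rw [hqdef]
    exact Finite.one_lt_card
  have hq' : (2 : ℝ) ≤ q := by exact_mod_cast hq
  have hnq : n ≤ q ^ t1 := Nat.le_pow_clog (by omega) n
  have hnq' : (n : ℝ) ≤ (q : ℝ) ^ t1 := by exact_mod_cast hnq
  have hlow : ∀ t, 0 < t →
      ∑ d ∈ t.divisors, ((Zs K L Om d t).card : ℝ) * d / t / (q : ℝ) ^ t ≤
        ∑ j ∈ t.divisors, (1 : ℝ) / j := by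
    intro t ht
    have ht0 : (0 : ℝ) < t := by exact_mod_cast ht
    have hqt : (0 : ℝ) < (q : ℝ) ^ t := by positivity
    calc ∑ d ∈ t.divisors, ((Zs K L Om d t).card : ℝ) * d / t / (q : ℝ) ^ t
        ≤ ∑ d ∈ t.divisors, (d : ℝ) / t := by
          apply sum_le_sum
          intro d _
          have h1 : ((Zs K L Om d t).card : ℝ) ≤ (q : ℝ) ^ t := by
            have h2 := card_Zs_le_gcd (K := K) (L := L) (Om := Om) d t ht
            have h3 : 1 < q ^ t := Nat.one_lt_pow (by omega) (by omega)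
            have h4 := Nat.le_of_dvd (by omega) (Nat.gcd_dvd_right n (q ^ t - 1))
            have h5 : (Zs K L Om d t).card ≤ q ^ t := by
              refine h2.trans (h4.trans ?_)
              omega
            exact_mod_cast h5
          rw [div_le_iff₀ hqt, div_mul_eq_mul_div, div_le_div_iff_of_pos_right ht0, mul_comm]
          gcongr
      _ = ∑ j ∈ t.divisors, (1 : ℝ) / j := by
          rw [← Nat.sum_div_divisors t (fun j => (1 : ℝ) / j)]
          apply sum_congr rfl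
          intro d hd
          have hdt := Nat.dvd_of_mem_divisors hd
          have hd0 : 0 < d := Nat.pos_of_mem_divisors hd
          rw [Nat.cast_div hdt (by positivity)]
          field_simp
  have hhigh : ∀ t, 0 < t → t1 ≤ t →
      ∑ d ∈ t.divisors, ((Zs K L Om d t).card : ℝ) * d / t / (q : ℝ) ^ t ≤
        ((1 : ℝ) / 2) ^ (t - t1) := by
    intro t ht htt
    have ht0 : (0 : ℝ) < t := by exact_mod_cast ht
    have hqt : (0 : ℝ) < (q : ℝ) ^ t := by positivity
    have hpow : (q : ℝ) ^ t1 / (q : ℝ) ^ t ≤ ((1 : ℝ) / 2) ^ (t - t1) := by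
      have e : (q : ℝ) ^ t = (q : ℝ) ^ t1 * (q : ℝ) ^ (t - t1) := by
        rw [← pow_add]
        congr 1
        omega
      rw [e, div_mul_eq_div_div, div_self (by positivity), one_div_pow]
      gcongr
    calc ∑ d ∈ t.divisors, ((Zs K L Om d t).card : ℝ) * d / t / (q : ℝ) ^ t
        ≤ ∑ d ∈ t.divisors, (n : ℝ) / t / (q : ℝ) ^ t := by
          apply sum_le_sum
          intro d hd
          have hd0 : 0 < d := Nat.pos_of_mem_divisors hd
          have hd0' : (0 : ℝ) < d := by exact_mod_cast hd0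
          have h1 : ((Zs K L Om d t).card : ℝ) ≤ n / d := by
            have := card_Zs_le (K := K) (L := L) (Om := Om) d t
            calc ((Zs K L Om d t).card : ℝ) ≤ ((n / d : ℕ) : ℝ) := by exact_mod_cast this
              _ ≤ n / d := Nat.cast_div_le
          rw [le_div_iff₀ hd0'] at h1
          gcongr
      _ = (t.divisors.card : ℝ) * ((n : ℝ) / t / (q : ℝ) ^ t) := by rw [sum_const, nsmul_eq_mul]
      _ ≤ t * ((n : ℝ) / t / (q : ℝ) ^ t) := by
          have h3 : (t.divisors.card : ℝ) ≤ t := by exact_mod_cast Nat.card_divisors_le_self t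
          gcongr
      _ = n / (q : ℝ) ^ t := by field_simp
      _ ≤ (q : ℝ) ^ t1 / (q : ℝ) ^ t := by gcongr
      _ ≤ ((1 : ℝ) / 2) ^ (t - t1) := hpow
  have hET : ET K L Om T = ∑ t ∈ Icc 1 T, ∑ d ∈ t.divisors,
      ((Zs K L Om d t).card : ℝ) * d / t / (q : ℝ) ^ t := rfl
  rw [hET]
  have hone : ∀ t ∈ Icc 1 T, ∑ d ∈ t.divisors,
      ((Zs K L Om d t).card : ℝ) * d / t / (q : ℝ) ^ t ≤
      (if t < t1 then ∑ j ∈ t.divisors, (1 : ℝ) / j else ((1 : ℝ) / 2) ^ (t - t1)) := by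
    intro t ht
    rw [mem_Icc] at ht
    split_ifs with h
    · exact hlow t ht.1
    · exact hhigh t ht.1 (by omega)
  refine (sum_le_sum hone).trans ?_
  rw [sum_ite]
  have hA : ∑ t ∈ (Icc 1 T).filter (fun t => t < t1), ∑ j ∈ t.divisors, (1 : ℝ) / j ≤ 2 * t1 := by
    refine le_trans ?_ (eb_sigma t1)
    apply sum_le_sum_of_subset_of_nonneg
    · intro t ht
      rw [mem_filter, mem_Icc] at ht
      rw [mem_Ioc]
      omega
    · intro t _ _
      positivity
  have hB : ∑ t ∈ (Icc 1 T).filter (fun t => ¬ t < t1), ((1 : ℝ) / 2) ^ (t - t1) ≤ 2 := by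
    refine le_trans ?_ (eb_geom t1 (T + 1))
    apply sum_le_sum_of_subset_of_nonneg
    · intro t ht
      rw [mem_filter, mem_Icc] at ht
      rw [mem_Ico]
      omega
    · intro t _ _
      positivity
  linarith

end

end Pool.Agent.MM
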