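import Mathlib
import Pool.Agent.MM.Defs

/-! # Module INEQ: one real inequality -/

namespace Pool.Agent.MM

open Finset Polynomial Filter

theorem ineq_ev : ∃ N0 : ℕ, ∀ n : ℕ, N0 ≤ n →
    Real.logb 2 n + 2 ≤ (n : ℝ) ^ ((1 : ℝ) / 16) ∧ 1771 ≤ (n : ℝ) ^ ((1 : ℝ) / 8) ∧
      12000 * 200000000 ≤ Real.logb 2 n ∧ 2 ≤ n := by
  have hl2 : 0 < Real.log 2 := Real.log_pos (by norm_num)
  have h1 : ∀ᶠ x : ℝ in atTop, Real.logb 2 x + 2 ≤ x ^ ((1 : ℝ) / 16) := by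
    have ho : (fun x : ℝ => Real.log x) =o[atTop] fun x : ℝ => x ^ ((1 : ℝ) / 16) :=
      isLittleO_log_rpow_atTop (by norm_num)
    have ho1 := ho.def (c := Real.log 2 / 2) (by positivity)
    have ht : Tendsto (fun x : ℝ => x ^ ((1 : ℝ) / 16)) atTop atTop :=
      tendsto_rpow_atTop (by norm_num)
    filter_upwards [ho1, ht.eventually_ge_atTop 4, eventually_ge_atTop (1 : ℝ)] with x hx h4 hx1
    rw [Real.norm_of_nonneg (Real.log_nonneg hx1), Real.norm_of_nonneg (by positivity)] at hx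
    have : Real.logb 2 x ≤ x ^ ((1 : ℝ) / 16) / 2 := by
      rw [Real.logb, div_le_iff₀ hl2]
      linarith
    linarith
  have h2 : ∀ᶠ x : ℝ in atTop, 1771 ≤ x ^ ((1 : ℝ) / 8) :=
    (tendsto_rpow_atTop (by norm_num)).eventually_ge_atTop 1771
  have h3 : ∀ᶠ x : ℝ in atTop, 12000 * 200000000 ≤ Real.logb 2 x :=
    (Real.tendsto_logb_atTop (by norm_num)).eventually_ge_atTop _
  have h4 := tendsto_natCast_atTop_atTop.eventually (h1.and (h2.and h3))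
  obtain ⟨N, hN⟩ := eventually_atTop.mp h4
  refine ⟨max N 2, fun n hn => ?_⟩
  have h5 := hN n (le_trans (le_max_left _ _) hn)
  exact ⟨h5.1, h5.2.1, h5.2.2, le_trans (le_max_right _ _) hn⟩

theorem ineq : ∃ N0 : ℕ, ∀ n q t1 : ℕ, N0 ≤ n → 2 ≤ q → t1 = Nat.clog q n →
    (2 : ℝ) ^ (260 + (64 * ((t1 : ℝ) + 1) ^ 2 * (n : ℝ) ^ ((3 : ℝ) / 4) +
      2048 * (n : ℝ) / √(max 1 (3 * ((t1 : ℝ) - 1) / 4))) + 6 * ((t1 : ℝ) + 1)) * (n : ℝ) ^ 2 ≤
      (q : ℝ) ^ (3 * (n : ℝ) / 8) := by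
  obtain ⟨N0, hN0⟩ := ineq_ev
  refine ⟨N0, fun n q t1 hn hq ht1 => ?_⟩
  obtain ⟨ha, hb, hc, hn2⟩ := hN0 n hn
  have hn0 : (0 : ℝ) < n := by exact_mod_cast (by omega : 0 < n)
  have hn1 : (1 : ℝ) ≤ n := by exact_mod_cast (by omega : 1 ≤ n)
  have hq0 : (0 : ℝ) < q := by exact_mod_cast (by omega : 0 < q)
  have hq2 : (2 : ℝ) ≤ q := by exact_mod_cast hq
  set lq := Real.logb 2 q with hlq
  set ln := Real.logb 2 n with hln
  have hlq1 : 1 ≤ lq := by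
    have := Real.logb_le_logb_of_le (b := 2) (by norm_num) (by norm_num) hq2
    rwa [Real.logb_self_eq_one (by norm_num)] at this
  have ht1pos : 1 ≤ t1 := by rw [ht1]; exact Nat.clog_pos hq hn2
  have hlow : ((t1 : ℝ) - 1) * lq ≤ ln := by
    have h1 : q ^ (t1 - 1) < n := by
      rw [ht1]
      exact Nat.pow_pred_clog_lt_self (by omega) hn2
    have h2 : (q : ℝ) ^ (t1 - 1) ≤ n := by exact_mod_cast h1.le
    have h3 := Real.logb_le_logb_of_le (b := 2) (by norm_num) (by positivity) h2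
    rw [Real.logb_pow, Nat.cast_sub ht1pos] at h3
    simpa using h3
  have hhigh : ln ≤ t1 * lq := by
    have h1 : n ≤ q ^ t1 := by
      rw [ht1]
      exact Nat.le_pow_clog (by omega) n
    have h2 : (n : ℝ) ≤ (q : ℝ) ^ t1 := by exact_mod_cast h1
    have h3 := Real.logb_le_logb_of_le (b := 2) (by norm_num) hn0 h2
    rwa [Real.logb_pow] at h3
  have ht1' : (1 : ℝ) ≤ t1 := by exact_mod_cast ht1pos
  have ht1le : (t1 : ℝ) - 1 ≤ ln := by nlinarith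
  have hln0 : 0 ≤ ln := by linarith
  set a := (n : ℝ) ^ ((1 : ℝ) / 16) with hadef
  set y := (n : ℝ) ^ ((7 : ℝ) / 8) with hydef
  have hy1 : 1 ≤ y := Real.one_le_rpow hn1 (by norm_num)
  have ha0 : 0 ≤ a := by positivity
  have hay : a ≤ y := Real.rpow_le_rpow_of_exponent_le hn1 (by norm_num)
  have haY : a ^ 2 * (n : ℝ) ^ ((3 : ℝ) / 4) = y := by
    rw [hadef, hydef, ← Real.rpow_natCast, ← Real.rpow_mul hn0.le, ← Real.rpow_add hn0]
    norm_num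
  have hyn : y * (n : ℝ) ^ ((1 : ℝ) / 8) = n := by
    rw [hydef, ← Real.rpow_add hn0]
    norm_num
  have hY0 : 0 ≤ (n : ℝ) ^ ((3 : ℝ) / 4) := by positivity
  -- the small terms
  have hsmall : 260 + 64 * ((t1 : ℝ) + 1) ^ 2 * (n : ℝ) ^ ((3 : ℝ) / 4) + 6 * ((t1 : ℝ) + 1) +
      2 * ln ≤ 3 / 16 * n := by
    have h1 : (t1 : ℝ) + 1 ≤ a := by linarith
    have h2 : ((t1 : ℝ) + 1) ^ 2 ≤ a ^ 2 := pow_le_pow_left₀ (by positivity) h1 2
    have h3 : ((t1 : ℝ) + 1) ^ 2 * (n : ℝ) ^ ((3 : ℝ) / 4) ≤ y := by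
      rw [← haY]
      exact mul_le_mul_of_nonneg_right h2 hY0
    have h4 : y * 1771 ≤ n := by
      calc y * 1771 ≤ y * (n : ℝ) ^ ((1 : ℝ) / 8) := by gcongr
        _ = n := hyn
    nlinarith
  set W := √(max 1 (3 * ((t1 : ℝ) - 1) / 4)) with hW
  have hW1 : 1 ≤ W := by
    rw [hW]
    apply Real.one_le_sqrt.mpr
    exact le_max_left _ _
  have hbig : 2048 * (n : ℝ) / W ≤ 3 / 16 * n * lq := by
    by_cases h : 12000 ≤ lq
    · calc 2048 * (n : ℝ) / W ≤ 2048 * n := div_le_self (by positivity) hW1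
        _ ≤ 3 / 16 * n * lq := by nlinarith
    · push Not at h
      have h1 : 200000000 ≤ (t1 : ℝ) := by nlinarith
      have h2 : 10923 ≤ W := by
        rw [hW]
        apply Real.le_sqrt_of_sq_le
        refine le_trans ?_ (le_max_right _ _)
        linarith
      calc 2048 * (n : ℝ) / W ≤ 2048 * n / 10923 := by gcongr
        _ ≤ 3 / 16 * n * 1 := by linarith
        _ ≤ 3 / 16 * n * lq := by gcongr
  have hexp : (260 + (64 * ((t1 : ℝ) + 1) ^ 2 * (n : ℝ) ^ ((3 : ℝ) / 4) +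
      2048 * (n : ℝ) / W) + 6 * ((t1 : ℝ) + 1)) + 2 * ln ≤ lq * (3 * n / 8) := by
    have h1 : 3 / 16 * (n : ℝ) ≤ 3 / 16 * n * lq := by nlinarith
    linarith
  have hn2' : (n : ℝ) ^ 2 = (2 : ℝ) ^ (2 * ln) := by
    rw [mul_comm, Real.rpow_mul (by norm_num), hln, Real.rpow_logb (by norm_num) (by norm_num) hn0]
    norm_num
  rw [hn2', ← Real.rpow_add (by norm_num)]
  calc (2 : ℝ) ^ ((260 + (64 * ((t1 : ℝ) + 1) ^ 2 * (n : ℝ) ^ ((3 : ℝ) / 4) +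
      2048 * (n : ℝ) / W) + 6 * ((t1 : ℝ) + 1)) + 2 * ln) ≤ (2 : ℝ) ^ (lq * (3 * n / 8)) :=
        Real.rpow_le_rpow_of_exponent_le (by norm_num) hexp
    _ = (q : ℝ) ^ (3 * (n : ℝ) / 8) := by
        rw [Real.rpow_mul (by norm_num), hlq, Real.rpow_logb (by norm_num) (by norm_num) hq0]

end Pool.Agent.MM
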