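import Mathlib
import Pool.Agent.MM.Defs
import Pool.Agent.MM.ZB

/-! # Module KB: bound for the number of kernels of small degree -/

namespace Pool.Agent.MM

open Finset Polynomial

theorem kb_card_divisors_le {k : ℕ} (hk : 0 < k) : k.divisors.card ≤ 2 * Nat.sqrt k := by
  have h1 : (k.divisors.filter (fun d => d ≤ Nat.sqrt k)).card ≤ Nat.sqrt k := by
    calc (k.divisors.filter (fun d => d ≤ Nat.sqrt k)).card
        ≤ (Icc 1 (Nat.sqrt k)).card := by
          refine Finset.card_le_card (fun d hd => ?_)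
          rw [mem_filter, Nat.mem_divisors] at hd
          rw [mem_Icc]
          exact ⟨Nat.pos_of_dvd_of_pos hd.1.1 hk, hd.2⟩
      _ = Nat.sqrt k := by simp
  have h2 : (k.divisors.filter (fun d => ¬ d ≤ Nat.sqrt k)).card ≤ Nat.sqrt k := by
    calc (k.divisors.filter (fun d => ¬ d ≤ Nat.sqrt k)).card
        ≤ (Icc 1 (Nat.sqrt k)).card := by
          refine Finset.card_le_card_of_injOn (fun d => k / d) ?_ ?_
          · intro d hd
            rw [Finset.mem_coe, mem_filter, Nat.mem_divisors] at hd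
            rw [Finset.mem_coe, mem_Icc]
            have hd0 : 0 < d := Nat.pos_of_dvd_of_pos hd.1.1 hk
            refine ⟨Nat.div_pos (Nat.le_of_dvd hk hd.1.1) hd0, ?_⟩
            have h3 : k / d < Nat.sqrt k + 1 := by
              rw [Nat.div_lt_iff_lt_mul hd0]
              have h4 : k < (Nat.sqrt k + 1) * (Nat.sqrt k + 1) := Nat.lt_succ_sqrt k
              have h5 : Nat.sqrt k + 1 ≤ d := by omega
              exact lt_of_lt_of_le h4 (Nat.mul_le_mul_left _ h5)
            exact Nat.le_of_lt_succ h3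
          · intro d hd d' hd' hdd
            rw [Finset.mem_coe, mem_filter, Nat.mem_divisors] at hd hd'
            have e1 := Nat.div_div_self hd.1.1 hk.ne'
            have e2 := Nat.div_div_self hd'.1.1 hk.ne'
            have hdd' : k / d = k / d' := hdd
            rw [← e1, ← e2, hdd']
      _ = Nat.sqrt k := by simp
  have h3 := Finset.card_filter_add_card_filter_not (s := k.divisors)
    (fun d => d ≤ Nat.sqrt k)
  omega

/-- number of bad degrees -/
theorem kb_bad (n q t1 T : ℕ) (hn : 2 ≤ n) (hq : 2 ≤ q) (ht1 : t1 = Nat.clog q n)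
    (hT : T = 8 * (t1 + 1)) :
    ((Icc 1 T).filter (fun t => n ^ 3 < (n.gcd (q ^ t - 1)) ^ 4)).card ≤ 1024 := by
  set B := (Icc 1 T).filter (fun t => n ^ 3 < (n.gcd (q ^ t - 1)) ^ 4) with hB
  rcases B.eq_empty_or_nonempty with h | ⟨t0, ht0⟩
  · rw [h]; simp
  have hn0 : 0 < n := by omega
  have ht1pos : 1 ≤ t1 := by rw [ht1]; exact Nat.clog_pos hq hn
  have hnq : q ^ (t1 - 1) < n := by
    rw [ht1]
    exact Nat.pow_pred_clog_lt_self (by omega) hn
  have key : ∀ t ∈ B, t1 ≤ 2 * (Nat.gcd t t0) := by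
    intro t ht
    rw [hB, mem_filter, mem_Icc] at ht ht0
    set G := n.gcd (q ^ t - 1) with hG
    set G0 := n.gcd (q ^ t0 - 1) with hG0
    set g := Nat.gcd t t0 with hg
    have h1 : G.gcd G0 ∣ q ^ g - 1 := by
      rw [hg, ← Nat.pow_sub_one_gcd_pow_sub_one]
      exact Nat.gcd_dvd_gcd_of_dvd_left _ (Nat.gcd_dvd_right _ _) |>.trans
        (Nat.gcd_dvd_gcd_of_dvd_right _ (Nat.gcd_dvd_right _ _))
    have hg0 : 0 < g := Nat.gcd_pos_of_pos_left _ (by omega)
    have hqg : 1 < q ^ g := Nat.one_lt_pow hg0.ne' (by omega)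
    have h2 : G.gcd G0 < q ^ g := by
      have := Nat.le_of_dvd (by omega) h1
      omega
    have h3 : Nat.lcm G G0 ∣ n := Nat.lcm_dvd (Nat.gcd_dvd_left _ _) (Nat.gcd_dvd_left _ _)
    have h4 : G * G0 ≤ q ^ g * n := by
      rw [← Nat.gcd_mul_lcm G G0]
      exact Nat.mul_le_mul h2.le (Nat.le_of_dvd hn0 h3)
    have h5 : n ^ 3 * n ^ 3 < (q ^ g * n) ^ 4 := by
      calc n ^ 3 * n ^ 3 < G ^ 4 * G0 ^ 4 := Nat.mul_lt_mul'' ht.2 ht0.2
        _ = (G * G0) ^ 4 := by ring
        _ ≤ (q ^ g * n) ^ 4 := Nat.pow_le_pow_left h4 4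
    have h6 : n ^ 2 < (q ^ (2 * g)) ^ 2 := by
      have e1 : n ^ 3 * n ^ 3 = n ^ 2 * n ^ 4 := by ring
      have e2 : (q ^ g * n) ^ 4 = (q ^ (2 * g)) ^ 2 * n ^ 4 := by
        rw [mul_pow, ← pow_mul, ← pow_mul]
        congr 2
        ring
      rw [e1, e2] at h5
      exact lt_of_mul_lt_mul_right h5 (Nat.zero_le _)
    have h7 : n < q ^ (2 * g) := lt_of_pow_lt_pow_left₀ 2 (Nat.zero_le _) h6
    have h8 : q ^ (t1 - 1) < q ^ (2 * g) := lt_trans hnq h7
    have h9 := (Nat.pow_lt_pow_iff_right (by omega : 1 < q)).mp h8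
    omega
  have hinj : Set.InjOn (fun t => (t / Nat.gcd t t0, t0 / Nat.gcd t t0)) (B : Set ℕ) := by
    intro t ht t' ht' h
    simp only [Prod.mk.injEq] at h
    obtain ⟨ha, hb⟩ := h
    have ht2 : 0 < t := by
      have := (mem_filter.mp (Finset.mem_coe.mp ht)).1
      rw [mem_Icc] at this
      omega
    have ht2' : 0 < t' := by
      have := (mem_filter.mp (Finset.mem_coe.mp ht')).1
      rw [mem_Icc] at this
      omega
    have ht02 : 0 < t0 := by
      have := (mem_filter.mp ht0).1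
      rw [mem_Icc] at this
      omega
    have e1 : t / Nat.gcd t t0 * Nat.gcd t t0 = t := Nat.div_mul_cancel (Nat.gcd_dvd_left _ _)
    have e2 : t' / Nat.gcd t' t0 * Nat.gcd t' t0 = t' := Nat.div_mul_cancel (Nat.gcd_dvd_left _ _)
    have e3 : t0 / Nat.gcd t t0 * Nat.gcd t t0 = t0 := Nat.div_mul_cancel (Nat.gcd_dvd_right _ _)
    have e4 : t0 / Nat.gcd t' t0 * Nat.gcd t' t0 = t0 := Nat.div_mul_cancel (Nat.gcd_dvd_right _ _)
    have hb0 : 0 < t0 / Nat.gcd t t0 :=
      Nat.div_pos (Nat.le_of_dvd ht02 (Nat.gcd_dvd_right _ _)) (Nat.gcd_pos_of_pos_left _ ht2)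
    have hg : Nat.gcd t t0 = Nat.gcd t' t0 := by
      have : t0 / Nat.gcd t t0 * Nat.gcd t t0 = t0 / Nat.gcd t t0 * Nat.gcd t' t0 := by
        rw [e3]
        conv_rhs => rw [hb]
        rw [e4]
      exact Nat.eq_of_mul_eq_mul_left hb0 this
    rw [← e1, ← e2, ha, hg]
  have hmaps : ∀ t ∈ B, (fun t => (t / Nat.gcd t t0, t0 / Nat.gcd t t0)) t ∈
      Icc 1 32 ×ˢ Icc 1 32 := by
    intro t ht
    have hk := key t ht
    have ht2 := (mem_filter.mp ht).1
    have ht02 := (mem_filter.mp ht0).1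
    rw [mem_Icc] at ht2 ht02
    have hgpos : 0 < Nat.gcd t t0 := Nat.gcd_pos_of_pos_left _ (by omega)
    have hb : ∀ s, s ≤ T → s / Nat.gcd t t0 ≤ 32 := by
      intro s hs
      rw [Nat.div_le_iff_le_mul_add_pred hgpos]
      omega
    simp only [mem_product, mem_Icc]
    refine ⟨⟨Nat.div_pos (Nat.le_of_dvd (by omega) (Nat.gcd_dvd_left _ _)) hgpos, hb _ ht2.2⟩,
      Nat.div_pos (Nat.le_of_dvd (by omega) (Nat.gcd_dvd_right _ _)) hgpos, hb _ ht02.2⟩
  calc B.card ≤ (Icc 1 32 ×ˢ Icc 1 32 : Finset (ℕ × ℕ)).card :=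
        Finset.card_le_card_of_injOn _ hmaps hinj
    _ = 1024 := by simp

section

variable {K L Om : Type} [Field K] [Field L] [Field Om] [Algebra K L] [Algebra K Om]
  [Algebra L Om] [IsScalarTower K L Om] [Finite K] [Finite L]

theorem kb (hn : 2 ≤ deg K L) (t1 : ℕ) (ht1 : t1 = Nat.clog (Nat.card K) (deg K L)) :
    KT K L Om (8 * (t1 + 1)) ≤ 64 * ((t1 : ℝ) + 1) ^ 2 * (deg K L : ℝ) ^ ((3 : ℝ) / 4) +
      2048 * (deg K L : ℝ) / √(max 1 (3 * ((t1 : ℝ) - 1) / 4)) := by
  classical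
  set n := deg K L with hndef
  set q := Nat.card K with hqdef
  set T := 8 * (t1 + 1) with hT
  have hq : 2 ≤ q := by
    rw [hqdef]
    exact Finite.one_lt_card
  have hn0 : 0 < n := by omega
  have hn0' : (0 : ℝ) < n := by exact_mod_cast hn0
  have ht1pos : 1 ≤ t1 := by rw [ht1]; exact Nat.clog_pos hq hn
  have hnq : q ^ (t1 - 1) < n := by
    rw [ht1]
    exact Nat.pow_pred_clog_lt_self (by omega) hn
  set Y := (n : ℝ) ^ ((3 : ℝ) / 4) with hY
  have hY0 : 0 ≤ Y := by positivity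
  have hY4 : Y ^ 4 = (n : ℝ) ^ 3 := by
    rw [hY, ← Real.rpow_natCast, ← Real.rpow_mul hn0'.le]
    norm_num
  set W := √(max 1 (3 * ((t1 : ℝ) - 1) / 4)) with hW
  have hW1 : 1 ≤ W := by
    rw [hW]
    apply Real.one_le_sqrt.mpr
    exact le_max_left _ _
  have hW0 : 0 < W := by linarith
  -- the contribution of one degree
  have hgood : ∀ t ∈ Icc 1 T, ¬ n ^ 3 < (n.gcd (q ^ t - 1)) ^ 4 →
      ∑ d ∈ t.divisors, ((Zs K L Om d t).card : ℝ) * d / t ≤ Y * T := by
    intro t ht hg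
    rw [mem_Icc] at ht
    push Not at hg
    have ht0 : (0 : ℝ) < t := by exact_mod_cast (by omega : 0 < t)
    have hG : ((n.gcd (q ^ t - 1) : ℕ) : ℝ) ≤ Y := by
      have h1 : ((n.gcd (q ^ t - 1) : ℕ) : ℝ) ^ 4 ≤ Y ^ 4 := by
        rw [hY4]
        exact_mod_cast hg
      exact le_of_pow_le_pow_left₀ (by norm_num) hY0 h1
    calc ∑ d ∈ t.divisors, ((Zs K L Om d t).card : ℝ) * d / t
        ≤ ∑ d ∈ t.divisors, Y := by
          apply sum_le_sum
          intro d hd
          have h1 : ((Zs K L Om d t).card : ℝ) ≤ Y := by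
            have := card_Zs_le_gcd (K := K) (L := L) (Om := Om) d t (by omega)
            have h2 : ((Zs K L Om d t).card : ℝ) ≤ ((n.gcd (q ^ t - 1) : ℕ) : ℝ) := by
              exact_mod_cast this
            linarith
          have h2 : (d : ℝ) ≤ t := by exact_mod_cast Nat.divisor_le hd
          rw [div_le_iff₀ ht0]
          have h3 : (0 : ℝ) ≤ d := Nat.cast_nonneg _
          exact mul_le_mul h1 h2 h3 hY0
      _ = (t.divisors.card : ℝ) * Y := by rw [sum_const, nsmul_eq_mul]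
      _ ≤ T * Y := by
          have h3 : t.divisors.card ≤ T := (Nat.card_divisors_le_self t).trans ht.2
          have h4 : (t.divisors.card : ℝ) ≤ T := by exact_mod_cast h3
          exact mul_le_mul_of_nonneg_right h4 hY0
      _ = Y * T := mul_comm _ _
  have hbad : ∀ t ∈ Icc 1 T, n ^ 3 < (n.gcd (q ^ t - 1)) ^ 4 →
      ∑ d ∈ t.divisors, ((Zs K L Om d t).card : ℝ) * d / t ≤ 2 * n / W := by
    intro t ht hg
    rw [mem_Icc] at ht
    have ht0 : (0 : ℝ) < t := by exact_mod_cast (by omega : 0 < t)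
    have ht34 : 3 * (t1 - 1) < 4 * t := by
      have h1 : n.gcd (q ^ t - 1) < q ^ t := by
        have h2 : 1 < q ^ t := Nat.one_lt_pow (by omega) (by omega)
        have h3 := Nat.le_of_dvd (by omega) (Nat.gcd_dvd_right n (q ^ t - 1))
        omega
      have h2 : (q ^ (t1 - 1)) ^ 3 < (q ^ t) ^ 4 := by
        calc (q ^ (t1 - 1)) ^ 3 < n ^ 3 := Nat.pow_lt_pow_left hnq (by norm_num)
          _ < (n.gcd (q ^ t - 1)) ^ 4 := hg
          _ < (q ^ t) ^ 4 := Nat.pow_lt_pow_left h1 (by norm_num)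
      rw [← pow_mul, ← pow_mul] at h2
      have h3 := (Nat.pow_lt_pow_iff_right (by omega : 1 < q)).mp h2
      omega
    have hWt : W ≤ √t := by
      rw [hW]
      apply Real.sqrt_le_sqrt
      apply max_le
      · exact_mod_cast ht.1
      · have h1 : ((3 * (t1 - 1) : ℕ) : ℝ) < ((4 * t : ℕ) : ℝ) := by exact_mod_cast ht34
        rw [Nat.cast_mul, Nat.cast_sub ht1pos] at h1
        push_cast at h1
        linarith
    have hst : 0 < √(t : ℝ) := Real.sqrt_pos.mpr ht0
    calc ∑ d ∈ t.divisors, ((Zs K L Om d t).card : ℝ) * d / t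
        ≤ ∑ d ∈ t.divisors, (n : ℝ) / t := by
          apply sum_le_sum
          intro d hd
          have hd0 : 0 < d := Nat.pos_of_mem_divisors hd
          have hd0' : (0 : ℝ) < d := by exact_mod_cast hd0
          have h1 : ((Zs K L Om d t).card : ℝ) ≤ n / d := by
            have := card_Zs_le (K := K) (L := L) (Om := Om) d t
            calc ((Zs K L Om d t).card : ℝ) ≤ ((n / d : ℕ) : ℝ) := by exact_mod_cast this
              _ ≤ n / d := Nat.cast_div_le
          rw [le_div_iff₀ hd0'] at h1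
          gcongr
      _ = (t.divisors.card : ℝ) * (n / t) := by rw [sum_const, nsmul_eq_mul]
      _ ≤ (2 * √(t : ℝ)) * (n / t) := by
          apply mul_le_mul_of_nonneg_right _ (by positivity)
          have h1 := kb_card_divisors_le (k := t) (by omega)
          have h2 : ((Nat.sqrt t : ℕ) : ℝ) ≤ √(t : ℝ) := Real.nat_sqrt_le_real_sqrt
          have h3 : (t.divisors.card : ℝ) ≤ 2 * (Nat.sqrt t : ℕ) := by exact_mod_cast h1
          linarith
      _ = 2 * n / √(t : ℝ) := by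
          have h1 : √(t : ℝ) * √(t : ℝ) = t := Real.mul_self_sqrt ht0.le
          rw [eq_div_iff hst.ne']
          calc 2 * √(t : ℝ) * (n / t) * √(t : ℝ) = 2 * n * (√(t : ℝ) * √(t : ℝ)) / t := by ring
            _ = 2 * n := by rw [h1]; field_simp
      _ ≤ 2 * n / W := by
          apply div_le_div_of_nonneg_left (by positivity) hW0 hWt
  have hone : ∀ t ∈ Icc 1 T, ∑ d ∈ t.divisors, ((Zs K L Om d t).card : ℝ) * d / t ≤
      Y * T + (if n ^ 3 < (n.gcd (q ^ t - 1)) ^ 4 then 2 * n / W else 0) := by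
    intro t ht
    split_ifs with h
    · have h1 := hbad t ht h
      have h2 : 0 ≤ Y * T := by positivity
      linarith
    · have h1 := hgood t ht h
      linarith
  have hcard := kb_bad n q t1 T hn hq ht1 hT
  calc KT K L Om T = ∑ t ∈ Icc 1 T, ∑ d ∈ t.divisors, ((Zs K L Om d t).card : ℝ) * d / t := rfl
    _ ≤ ∑ t ∈ Icc 1 T, (Y * T + (if n ^ 3 < (n.gcd (q ^ t - 1)) ^ 4 then 2 * n / W else 0)) :=
        sum_le_sum hone
    _ = T * (Y * T) +
        (((Icc 1 T).filter (fun t => n ^ 3 < (n.gcd (q ^ t - 1)) ^ 4)).card : ℝ) * (2 * n / W) := by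
        rw [sum_add_distrib, sum_const, nsmul_eq_mul, Nat.card_Icc, ← Finset.sum_filter, sum_const,
          nsmul_eq_mul]
        simp
    _ ≤ T * (Y * T) + 1024 * (2 * n / W) := by
        have h1 : (((Icc 1 T).filter (fun t => n ^ 3 < (n.gcd (q ^ t - 1)) ^ 4)).card : ℝ) ≤ 1024 := by
          exact_mod_cast hcard
        have h2 : (0 : ℝ) ≤ 2 * n / W := by positivity
        have h3 := mul_le_mul_of_nonneg_right h1 h2
        linarith
    _ = 64 * ((t1 : ℝ) + 1) ^ 2 * Y + 2048 * n / W := by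
        rw [hT]
        push_cast
        ring

end

end Pool.Agent.MM
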