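import Mathlib
import Pool.Agent.MM.Defs
import Pool.Agent.MM.PER

/-!
Finite subfields generated by one element, and conjugacy of roots of irreducible polynomials over
a finite field.
-/

namespace Pool.Agent.MM

open Finset Polynomial

section

variable {K L Om : Type} [Field K] [Field L] [Field Om] [Algebra K L] [Algebra K Om]
  [Algebra L Om] [IsScalarTower K L Om] [Finite K] [Finite L]

/-- the `|K|^k`-power map as an algebra map -/
noncomputable def frobOm (K Om : Type) [Field K] [Field Om] [Algebra K Om] [Finite K] (k : ℕ) :
    Om →ₐ[K] Om where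
  toFun y := y ^ (Nat.card K ^ k)
  map_one' := one_pow _
  map_mul' a b := mul_pow a b _
  map_zero' := zero_pow (pow_ne_zero _ (Nat.card_pos (α := K)).ne')
  map_add' a b := add_pow_card K k a b
  commutes' c := algebraMap_pow_card K k c

theorem frobOm_apply (k : ℕ) (y : Om) : frobOm K Om k y = y ^ (Nat.card K ^ k) := rfl

theorem aeval_frobOm (f : K[X]) (k : ℕ) (w : Om) :
    aeval (w ^ (Nat.card K ^ k)) f = (aeval w f) ^ (Nat.card K ^ k) := by
  rw [← frobOm_apply (K := K) k w, Polynomial.aeval_algHom_apply, frobOm_apply]

theorem perb_integral (z : Om) (hz : 0 < per K z) : IsIntegral K z := by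
  have h := (per_dvd_iff (K := K) z (per K z)).1 dvd_rfl
  have hq : 1 < Nat.card K := Finite.one_lt_card
  have h1 : 1 < Nat.card K ^ (per K z) := Nat.one_lt_pow hz.ne' hq
  refine ⟨X ^ (Nat.card K ^ (per K z)) - X, ?_, ?_⟩
  · apply Polynomial.monic_X_pow_sub
    rw [Polynomial.degree_X]
    exact_mod_cast h1
  · simp [h]

theorem perb_fixed (z : Om) (hz : 0 < per K z) (y : Om)
    (hy : y ∈ IntermediateField.adjoin K {z}) : y ^ (Nat.card K ^ (per K z)) = y := by
  have hint := perb_integral (K := K) z hz
  have hy' : y ∈ Algebra.adjoin K {z} := by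
    rw [← IntermediateField.adjoin_simple_toSubalgebra_of_isAlgebraic hint.isAlgebraic]
    exact hy
  have h2 : Algebra.adjoin K {z} ≤
      AlgHom.equalizer (frobOm K Om (per K z)) (AlgHom.id K Om) := by
    apply Algebra.adjoin_le
    intro x hx
    rw [Set.mem_singleton_iff.1 hx]
    exact (per_dvd_iff (K := K) z (per K z)).1 dvd_rfl
  exact h2 hy'

theorem perb_finite (z : Om) (hz : 0 < per K z) : Finite (IntermediateField.adjoin K {z}) := by
  have hint := perb_integral (K := K) z hz
  have := IntermediateField.adjoin.finiteDimensional hint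
  exact Module.finite_of_finite K

theorem card_adjoin (z : Om) (hz : 0 < per K z) :
    Nat.card (IntermediateField.adjoin K {z}) = Nat.card K ^ (per K z) := by
  classical
  have hint := perb_integral (K := K) z hz
  have hfd := IntermediateField.adjoin.finiteDimensional hint
  have hfin := perb_finite (K := K) z hz
  have hq : 1 < Nat.card K := Finite.one_lt_card
  have hcard : Nat.card (IntermediateField.adjoin K {z}) =
      Nat.card K ^ (Module.finrank K (IntermediateField.adjoin K {z})) :=
    Module.natCard_eq_pow_finrank
  set s := Module.finrank K (IntermediateField.adjoin K {z}) with hs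
  have hs0 : 0 < s := Module.finrank_pos
  apply le_antisymm
  · -- fixed points
    have hN : 0 < Nat.card K ^ (per K z) := pow_pos (by omega) _
    have h1 : 1 < Nat.card K ^ (per K z) := Nat.one_lt_pow hz.ne' hq
    have hP : (X ^ (Nat.card K ^ (per K z)) - X : Om[X]) ≠ 0 := by
      have hm : (X ^ (Nat.card K ^ (per K z)) - X : Om[X]).Monic := by
        apply Polynomial.monic_X_pow_sub
        rw [Polynomial.degree_X]
        exact_mod_cast h1
      exact hm.ne_zero
    have hdeg : (X ^ (Nat.card K ^ (per K z)) - X : Om[X]).natDegree = Nat.card K ^ (per K z) := by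
      rw [Polynomial.natDegree_sub_eq_left_of_natDegree_lt] <;> simp [h1]
    have h2 : Nat.card (IntermediateField.adjoin K {z}) ≤
        (X ^ (Nat.card K ^ (per K z)) - X : Om[X]).roots.toFinset.card := by
      have : Fintype (IntermediateField.adjoin K {z}) := Fintype.ofFinite _
      rw [Nat.card_eq_fintype_card, ← card_univ]
      apply card_le_card_of_injOn (fun x : IntermediateField.adjoin K {z} => (x : Om))
      · intro x _
        have := perb_fixed (K := K) z hz x x.2
        simp [hP, this]
      · intro x _ y _ h
        exact Subtype.ext h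
    calc _ ≤ _ := h2
      _ ≤ _ := Multiset.toFinset_card_le _
      _ ≤ _ := Polynomial.card_roots' _
      _ = _ := hdeg
  · rw [hcard]
    apply Nat.pow_le_pow_right (by omega)
    apply Nat.le_of_dvd hs0
    rw [per_dvd_iff]
    have : Fintype (IntermediateField.adjoin K {z}) := Fintype.ofFinite _
    have h3 := FiniteField.pow_card (⟨z, IntermediateField.mem_adjoin_simple_self K z⟩ :
      IntermediateField.adjoin K {z})
    rw [← Nat.card_eq_fintype_card, hcard] at h3
    exact congrArg Subtype.val h3

theorem perb_per_pos (w : Om) (hint : IsIntegral K w) : 0 < per K w := by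
  have hfd := IntermediateField.adjoin.finiteDimensional hint
  have hfin : Finite (IntermediateField.adjoin K {w}) := Module.finite_of_finite K
  have : Fintype (IntermediateField.adjoin K {w}) := Fintype.ofFinite _
  have hcard : Nat.card (IntermediateField.adjoin K {w}) =
      Nat.card K ^ (Module.finrank K (IntermediateField.adjoin K {w})) :=
    Module.natCard_eq_pow_finrank
  have h3 := FiniteField.pow_card (⟨w, IntermediateField.mem_adjoin_simple_self K w⟩ :
      IntermediateField.adjoin K {w})
  rw [← Nat.card_eq_fintype_card, hcard] at h3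
  have h4 := congrArg Subtype.val h3
  have h5 : per K w ∣ Module.finrank K (IntermediateField.adjoin K {w}) := by
    rw [per_dvd_iff]
    exact h4
  exact Nat.pos_of_dvd_of_pos h5 Module.finrank_pos

theorem root_conj (f : K[X]) (hf : Irreducible f) (w w' : Om) (h : aeval w f = 0)
    (h' : aeval w' f = 0) : ∃ j : ℕ, w' = w ^ (Nat.card K ^ j) := by
  classical
  have hint : IsIntegral K w := by
    have : IsAlgebraic K w := ⟨f, hf.ne_zero, h⟩
    exact this.isIntegral
  have hper := perb_per_pos (K := K) w hint
  have hass : Associated f (minpoly K w) := by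
    obtain ⟨c, hc⟩ := minpoly.dvd K w h
    have hu := (hf.isUnit_or_isUnit hc).resolve_left (minpoly.not_isUnit K w)
    exact ((associated_mul_unit_right (minpoly K w) c hu).trans
      (Associated.of_eq hc.symm)).symm
  have hm' : aeval w' (minpoly K w) = 0 := by
    obtain ⟨c, hc⟩ := hass.dvd
    rw [hc, map_mul, h', zero_mul]
  have hfd := IntermediateField.adjoin.finiteDimensional hint
  have hdeg : (minpoly K w).natDegree = per K w := by
    rw [← IntermediateField.adjoin.finrank hint]
    have hcard : Nat.card (IntermediateField.adjoin K {w}) =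
      Nat.card K ^ (Module.finrank K (IntermediateField.adjoin K {w})) :=
      Module.natCard_eq_pow_finrank
    rw [card_adjoin w hper] at hcard
    exact (Nat.pow_right_injective (Finite.one_lt_card (α := K)) hcard).symm
  have hP0 : (minpoly K w).map (algebraMap K Om) ≠ 0 :=
    (Polynomial.map_ne_zero (minpoly.ne_zero hint))
  let A : Finset Om := (range (per K w)).image (fun j => w ^ (Nat.card K ^ j))
  have hA : A.card = per K w := by
    rw [card_image_of_injOn, card_range]
    intro i hi j hj hij
    simp only at hij
    rw [← per_iterate (K := K), ← per_iterate (K := K)] at hij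
    have hi' : i < per K w := by simpa using hi
    have hj' : j < per K w := by simpa using hj
    exact (Function.iterate_eq_iterate_iff_of_lt_minimalPeriod hi' hj').1 hij
  have hAsub : A ⊆ ((minpoly K w).map (algebraMap K Om)).roots.toFinset := by
    intro y hy
    obtain ⟨j, -, rfl⟩ := mem_image.1 hy
    rw [Multiset.mem_toFinset, Polynomial.mem_roots hP0, Polynomial.IsRoot.def,
      Polynomial.eval_map_algebraMap, aeval_frobOm, minpoly.aeval,
      zero_pow (pow_ne_zero _ (Nat.card_pos (α := K)).ne')]
  have hle : ((minpoly K w).map (algebraMap K Om)).roots.toFinset.card ≤ A.card := by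
    rw [hA, ← hdeg]
    refine (Multiset.toFinset_card_le _).trans ((Polynomial.card_roots' _).trans ?_)
    exact (Polynomial.natDegree_map_le)
  have hEq := eq_of_subset_of_card_le hAsub hle
  have hw' : w' ∈ A := by
    rw [hEq, Multiset.mem_toFinset, Polynomial.mem_roots hP0, Polynomial.IsRoot.def,
      Polynomial.eval_map_algebraMap]
    exact hm'
  obtain ⟨j, -, hj⟩ := mem_image.1 hw'
  exact ⟨j, hj.symm⟩

end

end Pool.Agent.MM
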