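import Mathlib
import Pool.Agent.MM.Defs
import Pool.Agent.MM.PER
import Pool.Agent.MM.PERB
import Pool.Agent.MM.VAN
import Pool.Agent.MM.RB

/-!
The image of a resolvent on a Frobenius-stable subspace is zero or has exactly `q^(per z)`
elements.
-/

namespace Pool.Agent.MM

open Finset Polynomial

section

variable {K L Om : Type} [Field K] [Field L] [Field Om] [Algebra K L] [Algebra K Om]
  [Algebra L Om] [IsScalarTower K L Om] [Finite K] [Finite L]

theorem size_facts (d : ℕ) (z : Om) (he : Ev K L d z) :
    0 < d ∧ 0 < deg K L / d ∧ 0 < per K z := by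
  have hfin : Module.Finite K L := inferInstance
  have hn : 0 < deg K L := Module.finrank_pos
  have hd0 : 0 < d := Nat.pos_of_dvd_of_pos he.1 hn
  have hN : 0 < deg K L / d := Nat.div_pos (Nat.le_of_dvd hn he.1) hd0
  exact ⟨hd0, hN, per_pos _ hN z he.2.1⟩

theorem ev_orbit (d : ℕ) (z : Om) (he : Ev K L d z) :
    Ev K L d (z ^ (Nat.card K ^ d)) ∧ per K (z ^ (Nat.card K ^ d)) = per K z ∧
      ∀ x : L, Res K d (z ^ (Nat.card K ^ d)) x = 0 ↔ Res K d z x = 0 := by
  obtain ⟨hd0, hN, hp⟩ := size_facts d z he
  have hz1 : (z ^ (Nat.card K ^ d)) ^ (deg K L / d) = 1 := by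
    rw [← pow_mul, mul_comm, pow_mul, he.2.1, one_pow]
  have hper := per_frob (K := K) _ hN z he.2.1 d
  refine ⟨⟨he.1, hz1, ?_⟩, hper, ?_⟩
  · rw [hper]; exact he.2.2
  · intro x
    have h1 := rb_frob (K := K) d z x d
    rw [rb_shift d _ he.1 hz1] at h1
    have hz0 := rb_ne_zero d _ he.1 hz1
    have hq : Nat.card K ^ d ≠ 0 := pow_ne_zero _ (Nat.card_pos (α := K)).ne'
    constructor
    · intro h
      rw [h, mul_zero] at h1
      exact (pow_eq_zero_iff hq).1 h1
    · intro h
      rw [h, zero_pow hq] at h1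
      exact (mul_eq_zero.1 h1.symm).resolve_left (inv_ne_zero hz0)

theorem size_upper (d : ℕ) (z : Om) (he : Ev K L d z) (y : Om)
    (hy : y ∈ LinearMap.range (Res K (L := L) d z)) :
    y ^ (Nat.card K ^ (per K z)) = (z⁻¹) ^ (per K z / d) * y := by
  obtain ⟨x, rfl⟩ := hy
  have h1 := rb_frob (K := K) d z x (per K z)
  rw [(per_dvd_iff (K := K) z (per K z)).1 dvd_rfl] at h1
  have h2 := rb_shift_iter d z he.1 he.2.1 x (per K z / d)
  rw [Nat.mul_div_cancel' he.2.2] at h2
  rw [h1, h2]

theorem size (d : ℕ) (z : Om) (he : Ev K L d z) (W : Submodule K L)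
    (hW : ∀ x ∈ W, x ^ (Nat.card K) ∈ W) (h : ∃ x ∈ W, Res K d z x ≠ 0) :
    Nat.card (W.map (Res K d z)) = Nat.card K ^ (per K z) := by
  classical
  obtain ⟨hd0, hN, hp⟩ := size_facts d z he
  have hz0 := rb_ne_zero d z he.1 he.2.1
  have hq : 1 < Nat.card K := Finite.one_lt_card
  have hQ : 1 < Nat.card K ^ (per K z) := Nat.one_lt_pow hp.ne' hq
  have hfinW : Finite (W.map (Res K d z)) := by
    have : Finite W := inferInstance
    exact Set.Finite.to_subtype ((Set.toFinite (W : Set L)).image (Res K d z))
  have hWpow : ∀ (j : ℕ), ∀ x ∈ W, x ^ (Nat.card K ^ j) ∈ W := by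
    intro j
    induction j with
    | zero => intro x hx; simpa using hx
    | succ j ih =>
      intro x hx
      rw [pow_succ, pow_mul]
      exact hW _ (ih x hx)
  apply le_antisymm
  · -- upper bound: roots of X^Q - c X
    set c : Om := (z⁻¹) ^ (per K z / d) with hc
    have hP : (X ^ (Nat.card K ^ (per K z)) - C c * X : Om[X]).natDegree =
        Nat.card K ^ (per K z) := by
      rw [Polynomial.natDegree_sub_eq_left_of_natDegree_lt]
      · simp
      · rw [natDegree_X_pow]
        exact lt_of_le_of_lt (natDegree_C_mul_le _ _) (by simpa using hQ)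
    have hP0 : (X ^ (Nat.card K ^ (per K z)) - C c * X : Om[X]) ≠ 0 := by
      intro h0
      rw [h0, natDegree_zero] at hP
      omega
    have hF : Fintype (W.map (Res K d z)) := Fintype.ofFinite _
    have h1 : Nat.card (W.map (Res K d z)) ≤
        (X ^ (Nat.card K ^ (per K z)) - C c * X : Om[X]).roots.toFinset.card := by
      rw [Nat.card_eq_fintype_card, ← card_univ]
      apply card_le_card_of_injOn (fun y : W.map (Res K d z) => (y : Om))
      · intro y _
        have h2 : (y : Om) ∈ LinearMap.range (Res K (L := L) d z) := by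
          obtain ⟨x, -, hx⟩ := y.2
          exact ⟨x, hx⟩
        have h3 := size_upper d z he _ h2
        simp only [Finset.mem_coe, Multiset.mem_toFinset, mem_roots hP0, IsRoot.def, eval_sub,
          eval_pow, eval_X, eval_mul, eval_C]
        rw [h3, sub_self]
      · intro x _ y _ h
        exact Subtype.ext h
    calc _ ≤ _ := h1
      _ ≤ _ := Multiset.toFinset_card_le _
      _ ≤ _ := Polynomial.card_roots' _
      _ = _ := hP
  · -- lower bound: K(z) embeds
    obtain ⟨x, hxW, hx⟩ := h
    set y := Res K d z x with hy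
    rw [← card_adjoin z hp]
    -- the multipliers
    let A : Subalgebra K Om :=
      { carrier := {c | ∀ v ∈ W.map (Res K (L := L) d z), c * v ∈ W.map (Res K (L := L) d z)}
        mul_mem' := by
          intro a b ha hb v hv
          rw [mul_assoc]
          exact ha _ (hb _ hv)
        add_mem' := by
          intro a b ha hb v hv
          rw [add_mul]
          exact Submodule.add_mem _ (ha _ hv) (hb _ hv)
        algebraMap_mem' := by
          intro r v hv
          rw [← Algebra.smul_def]
          exact Submodule.smul_mem _ _ hv }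
    have hinv : z⁻¹ ∈ A := by
      intro v hv
      obtain ⟨u, hu, rfl⟩ := hv
      refine ⟨u ^ (Nat.card K ^ d), hWpow _ _ hu, ?_⟩
      exact rb_shift d z he.1 he.2.1 u
    have hzA : z ∈ A := by
      -- z = (z⁻¹)^(N-1)
      have h1 : z = (z⁻¹) ^ (deg K L / d - 1) := by
        have h2 : z ^ (deg K L / d - 1) * z = 1 := by
          rw [← pow_succ, Nat.sub_add_cancel hN, he.2.1]
        rw [inv_pow]
        exact (inv_eq_of_mul_eq_one_right h2).symm
      rw [h1]
      exact Subalgebra.pow_mem A hinv _
    have hadj : Algebra.adjoin K {z} ≤ A := by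
      apply Algebra.adjoin_le
      intro c hc
      rw [Set.mem_singleton_iff.1 hc]
      exact hzA
    have hint := perb_integral (K := K) z hp
    have hmem : ∀ c : IntermediateField.adjoin K {z}, (c : Om) * y ∈ W.map (Res K d z) := by
      intro c
      have hc : (c : Om) ∈ Algebra.adjoin K {z} := by
        rw [← IntermediateField.adjoin_simple_toSubalgebra_of_isAlgebraic hint.isAlgebraic]
        exact c.2
      exact hadj hc y ⟨x, hxW, rfl⟩
    apply Nat.card_le_card_of_injective
      (fun c : IntermediateField.adjoin K {z} =>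
        (⟨(c : Om) * y, hmem c⟩ : W.map (Res K (L := L) d z)))
    intro a b hab
    have h1 := congrArg Subtype.val hab
    exact Subtype.ext (mul_right_cancel₀ hx h1)

theorem size_nonzero (d : ℕ) (z : Om) (hd : d ∣ deg K L) (hz : z ^ (deg K L / d) = 1) :
    ∃ x : L, Res K d z x ≠ 0 := by
  have hfin : Module.Finite K L := inferInstance
  have hn : 0 < deg K L := Module.finrank_pos
  have hd0 : 0 < d := Nat.pos_of_dvd_of_pos hd hn
  by_contra hcon
  push Not at hcon
  have h1 := (van d z hd hz (1 : K[X])).1 (by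
    intro x
    exact hcon _)
  rw [Polynomial.map_one] at h1
  have h2 := Polynomial.isUnit_iff_degree_eq_zero.1 (isUnit_of_dvd_one h1)
  rw [Polynomial.degree_X_pow_sub_C hd0] at h2
  have : (d : WithBot ℕ) = 0 := h2
  have : d = 0 := by exact_mod_cast this
  omega

theorem ker_card (d : ℕ) (z : Om) (he : Ev K L d z) :
    Nat.card (LinearMap.ker (Res K (L := L) d z)) * Nat.card K ^ (per K z) = Nat.card L := by
  obtain ⟨x, hx⟩ := size_nonzero (L := L) d z he.1 he.2.1
  have h1 := size d z he (⊤ : Submodule K L) (fun _ _ => Submodule.mem_top)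
    ⟨x, Submodule.mem_top, hx⟩
  rw [Submodule.map_top] at h1
  rw [← h1]
  have h2 := AddSubgroup.card_eq_card_quotient_mul_card_addSubgroup
    (Res K (L := L) d z).toAddMonoidHom.ker
  have h3 : Nat.card (L ⧸ (Res K (L := L) d z).toAddMonoidHom.ker) =
      Nat.card (LinearMap.range (Res K (L := L) d z)) := by
    exact Nat.card_congr (QuotientAddGroup.quotientKerEquivRange _).toEquiv
  have h4 : Nat.card (Res K (L := L) d z).toAddMonoidHom.ker =
      Nat.card (LinearMap.ker (Res K (L := L) d z)) := Nat.card_congr (Equiv.refl _)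
  rw [h2, h3, h4, mul_comm]

end

end Pool.Agent.MM
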