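import Mathlib
import Pool.Agent.MM.Defs
import Pool.Agent.MM.PER
import Pool.Agent.MM.SIZE
import Pool.Agent.MM.ZB

/-!
Finite sets of kernels: small events (at most `KT T` distinct kernels) and large events.
-/

namespace Pool.Agent.MM

open Finset Polynomial

section

variable {K L Om : Type} [Field K] [Field L] [Field Om] [Algebra K L] [Algebra K Om]
  [Algebra L Om] [IsScalarTower K L Om] [Finite K] [Finite L]

variable (K L) in
/-- kernel of the resolvent as an additive subgroup -/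
noncomputable def kernA (d : ℕ) (z : Om) : AddSubgroup L := (Res K (L := L) d z).toAddMonoidHom.ker

theorem mem_kernA (d : ℕ) (z : Om) (x : L) : x ∈ kernA K L d z ↔ Res K d z x = 0 := Iff.rfl

theorem kern_orbit (d : ℕ) (z : Om) (he : Ev K L d z) (j : ℕ) :
    Ev K L d (z ^ (Nat.card K ^ (d * j))) ∧ per K (z ^ (Nat.card K ^ (d * j))) = per K z ∧
      kernA K L d (z ^ (Nat.card K ^ (d * j))) = kernA K L d z := by
  induction j with
  | zero => simpa using he
  | succ j ih =>
    have h2 := ev_orbit (L := L) d _ ih.1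
    have h3 : (z ^ (Nat.card K ^ (d * j))) ^ (Nat.card K ^ d) =
        z ^ (Nat.card K ^ (d * (j + 1))) := by
      rw [← pow_mul, ← pow_add, mul_add, mul_one]
    rw [h3] at h2
    refine ⟨h2.1, h2.2.1.trans ih.2.1, ?_⟩
    rw [← ih.2.2]
    ext x
    rw [mem_kernA, mem_kernA]
    exact h2.2.2 x

theorem kern_inj (d : ℕ) (z : Om) (he : Ev K L d z) :
    Set.InjOn (fun j => z ^ (Nat.card K ^ (d * j))) (range (per K z / d)) := by
  obtain ⟨hd0, -, hp⟩ := size_facts d z he
  intro i hi j hj hij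
  have hi' : d * i < per K z := by
    have := mem_range.1 (mem_coe.1 hi)
    calc d * i < d * (per K z / d) := Nat.mul_lt_mul_of_pos_left this hd0
      _ ≤ per K z := Nat.mul_div_le _ _
  have hj' : d * j < per K z := by
    have := mem_range.1 (mem_coe.1 hj)
    calc d * j < d * (per K z / d) := Nat.mul_lt_mul_of_pos_left this hd0
      _ ≤ per K z := Nat.mul_div_le _ _
  simp only at hij
  rw [← per_iterate (K := K), ← per_iterate (K := K)] at hij
  exact Nat.eq_of_mul_eq_mul_left hd0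
    ((Function.iterate_eq_iterate_iff_of_lt_minimalPeriod hi' hj').1 hij)

open scoped Classical in
theorem kern_image (d t : ℕ) (hd : d ∣ t) (ht : 0 < t) :
    (((Zs K L Om d t).image (kernA K L d)).card : ℝ) ≤ ((Zs K L Om d t).card : ℝ) * d / t := by
  have hd0 : 0 < d := Nat.pos_of_dvd_of_pos hd ht
  have h1 : ((Zs K L Om d t).image (kernA K L d)).card * (t / d) ≤ (Zs K L Om d t).card := by
    rw [card_eq_sum_card_image (kernA K L d) (Zs K L Om d t), ← smul_eq_mul]
    apply card_nsmul_le_sum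
    intro M hM
    obtain ⟨z, hz, rfl⟩ := mem_image.1 hM
    obtain ⟨he, hper⟩ := (mem_Zs d t z).1 hz
    have h2 : ((range (t / d)).image (fun j => z ^ (Nat.card K ^ (d * j)))).card = t / d := by
      rw [card_image_of_injOn, card_range]
      rw [← hper]
      exact kern_inj d z he
    rw [← h2]
    apply card_le_card
    intro y hy
    obtain ⟨j, -, rfl⟩ := mem_image.1 hy
    obtain ⟨h3, h4, h5⟩ := kern_orbit d z he j
    exact mem_filter.2 ⟨(mem_Zs _ _ _).2 ⟨h3, h4.trans hper⟩, h5⟩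
  have htR : (0 : ℝ) < t := by exact_mod_cast ht
  have hdR : (0 : ℝ) < d := by exact_mod_cast hd0
  rw [le_div_iff₀ htR]
  have h2 : (((Zs K L Om d t).image (kernA K L d)).card : ℝ) * ((t / d : ℕ) : ℝ) ≤
      ((Zs K L Om d t).card : ℝ) := by exact_mod_cast h1
  rw [Nat.cast_div hd hdR.ne'] at h2
  calc _ = ((((Zs K L Om d t).image (kernA K L d)).card : ℝ) * ((t : ℝ) / d)) * d := by
        field_simp
    _ ≤ _ := mul_le_mul_of_nonneg_right h2 hdR.le

theorem kern_core [IsAlgClosed Om] (T : ℕ) :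
    ∃ C : Finset (AddSubgroup L), (C.card : ℝ) ≤ KT K L Om T ∧
      (∀ M ∈ C, ∃ (d : ℕ) (z : Om), Ev K L d z ∧ per K z ≤ T ∧
        ∀ x : L, x ∈ M ↔ Res K d z x = 0) ∧
      ∀ (d : ℕ) (z : Om), Ev K L d z → per K z ≤ T → ∃ M ∈ C, ∀ x : L,
        x ∈ M ↔ Res K d z x = 0 := by
  classical
  refine ⟨(Icc 1 T).biUnion (fun t => t.divisors.biUnion
    (fun d => (Zs K L Om d t).image (kernA K L d))), ?_, ?_, ?_⟩
  · have h1 : (((Icc 1 T).biUnion (fun t => t.divisors.biUnion
      (fun d => (Zs K L Om d t).image (kernA K L d)))).card : ℝ) ≤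
      ∑ t ∈ Icc 1 T, ∑ d ∈ t.divisors, (((Zs K L Om d t).image (kernA K L d)).card : ℝ) := by
      have h2 : ((Icc 1 T).biUnion (fun t => t.divisors.biUnion
        (fun d => (Zs K L Om d t).image (kernA K L d)))).card ≤
        ∑ t ∈ Icc 1 T, ∑ d ∈ t.divisors, ((Zs K L Om d t).image (kernA K L d)).card :=
        card_biUnion_le.trans (sum_le_sum fun t _ => card_biUnion_le)
      exact_mod_cast h2
    refine h1.trans ?_
    unfold KT
    refine sum_le_sum fun t ht => sum_le_sum fun d hd => ?_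
    exact kern_image d t (Nat.dvd_of_mem_divisors hd) (mem_Icc.1 ht).1
  · intro M hM
    obtain ⟨t, ht, hM⟩ := mem_biUnion.1 hM
    obtain ⟨d, hd, hM⟩ := mem_biUnion.1 hM
    obtain ⟨z, hz, rfl⟩ := mem_image.1 hM
    obtain ⟨he, hper⟩ := (mem_Zs d t z).1 hz
    exact ⟨d, z, he, by rw [hper]; exact (mem_Icc.1 ht).2, fun x => mem_kernA d z x⟩
  · intro d z he hT
    obtain ⟨hd0, -, hp⟩ := size_facts d z he
    refine ⟨kernA K L d z, ?_, fun x => mem_kernA d z x⟩
    refine mem_biUnion.2 ⟨per K z, mem_Icc.2 ⟨hp, hT⟩, mem_biUnion.2 ⟨d, ?_, ?_⟩⟩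
    · exact Nat.mem_divisors.2 ⟨he.2.2, hp.ne'⟩
    · exact mem_image_of_mem _ ((mem_Zs _ _ _).2 ⟨he, rfl⟩)

theorem kern_tail [IsAlgClosed Om] (T : ℕ) :
    ∃ D : Finset (AddSubgroup L), D.card ≤ (deg K L) ^ 2 ∧
      (∀ M ∈ D, Nat.card M * Nat.card K ^ (T + 1) ≤ Nat.card L) ∧
      ∀ (d : ℕ) (z : Om), Ev K L d z → T < per K z → ∃ M ∈ D, ∀ x : L,
        x ∈ M ↔ Res K d z x = 0 := by
  classical
  have hfin : Module.Finite K L := inferInstance
  have hn : 0 < deg K L := Module.finrank_pos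
  refine ⟨(deg K L).divisors.biUnion (fun d => ((nthRootsFinset (deg K L / d) (1 : Om)).filter
    (fun z => Ev K L d z ∧ T < per K z)).image (kernA K L d)), ?_, ?_, ?_⟩
  · refine card_biUnion_le.trans ?_
    have h1 : ∀ d ∈ (deg K L).divisors, (((nthRootsFinset (deg K L / d) (1 : Om)).filter
        (fun z => Ev K L d z ∧ T < per K z)).image (kernA K L d)).card ≤ deg K L := by
      intro d _
      refine card_image_le.trans ((card_le_card (filter_subset _ _)).trans ?_)
      exact (zb_roots _).trans (Nat.div_le_self _ _)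
    refine (sum_le_card_nsmul _ _ _ h1).trans ?_
    rw [smul_eq_mul, sq]
    exact Nat.mul_le_mul_right _ (Nat.card_divisors_le_self _)
  · intro M hM
    obtain ⟨d, hd, hM⟩ := mem_biUnion.1 hM
    obtain ⟨z, hz, rfl⟩ := mem_image.1 hM
    obtain ⟨-, he, hT⟩ := mem_filter.1 hz
    have h1 := ker_card (L := L) d z he
    have h2 : Nat.card (kernA K L d z) = Nat.card (LinearMap.ker (Res K (L := L) d z)) :=
      Nat.card_congr (Equiv.refl _)
    rw [← h1, h2]
    exact Nat.mul_le_mul_left _ (Nat.pow_le_pow_right (Nat.card_pos (α := K)) hT)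
  · intro d z he hT
    obtain ⟨hd0, hN, hp⟩ := size_facts d z he
    refine ⟨kernA K L d z, ?_, fun x => mem_kernA d z x⟩
    refine mem_biUnion.2 ⟨d, Nat.mem_divisors.2 ⟨he.1, hn.ne'⟩, mem_image_of_mem _ ?_⟩
    refine mem_filter.2 ⟨?_, he, hT⟩
    rw [Polynomial.mem_nthRootsFinset hN]
    exact he.2.1

end

end Pool.Agent.MM
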