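import Mathlib

/-!
# A bound for the number of prime divisors (module OMEGA)
-/

namespace Pool.Agent.MM

open Finset

theorem omega (N : ℕ) (hN : 0 < N) :
    (2 : ℝ) ^ (N.primeFactors.card) ≤ 2 ^ 256 * (N : ℝ) ^ ((1 : ℝ) / 8) := by
  set S := N.primeFactors.filter (fun p => p < 256) with hS
  set T := N.primeFactors.filter (fun p => ¬ p < 256) with hT
  have h1 : N.primeFactors.card = S.card + T.card := by
    rw [hS, hT, card_filter_add_card_filter_not]
  have h2 : S.card ≤ 256 := by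
    have h3 : S ⊆ range 256 := fun p hp => mem_range.2 (mem_filter.1 hp).2
    have h4 := card_le_card h3
    rwa [card_range] at h4
  have h3 : 256 ^ T.card ≤ ∏ p ∈ T, p := by
    refine pow_card_le_prod (N := ℕ) T (fun p => p) 256 fun p hp => ?_
    have := (mem_filter.1 hp).2
    omega
  have h4 : ∏ p ∈ T, p ≤ N := by
    have h5 : ∏ p ∈ T, p ∣ ∏ p ∈ N.primeFactors, p :=
      prod_dvd_prod_of_subset _ _ _ (filter_subset _ _)
    exact Nat.le_of_dvd hN (h5.trans (Nat.prod_primeFactors_dvd N))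
  have h5 : (256 : ℝ) ^ T.card ≤ N := by exact_mod_cast h3.trans h4
  have h6 : ((2 : ℝ) ^ T.card) ^ 8 ≤ N := by
    have e : ((2 : ℝ) ^ T.card) ^ 8 = 256 ^ T.card := by
      rw [← pow_mul, mul_comm, pow_mul]
      norm_num
    rw [e]
    exact h5
  have h7 : (2 : ℝ) ^ T.card ≤ (N : ℝ) ^ ((1 : ℝ) / 8) := by
    have h8 : (((2 : ℝ) ^ T.card) ^ 8) ^ ((1 : ℝ) / 8) ≤ (N : ℝ) ^ ((1 : ℝ) / 8) :=
      Real.rpow_le_rpow (by positivity) h6 (by norm_num)
    have h9 : (((2 : ℝ) ^ T.card) ^ 8) ^ ((1 : ℝ) / 8) = (2 : ℝ) ^ T.card := by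
      rw [← Real.rpow_natCast ((2 : ℝ) ^ T.card) 8, ← Real.rpow_mul (by positivity)]
      norm_num
    rwa [h9] at h8
  rw [h1, pow_add]
  refine mul_le_mul ?_ h7 (by positivity) (by positivity)
  exact pow_le_pow_right₀ (by norm_num) h2

end Pool.Agent.MM
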