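import Mathlib
import Pool.Agent.MM.Defs
import Pool.Agent.MM.VAN

/-!
Isotypic parts: for an irreducible factor `f` of `X^n - 1` a Frobenius-stable subspace on which
the resolvent at `z` is nonzero exactly when `f` has a root `w` with `w^d z = 1`.
-/

namespace Pool.Agent.MM

open Finset Polynomial

section

variable {K L Om : Type} [Field K] [Field L] [Field Om] [Algebra K L] [Algebra K Om]
  [Algebra L Om] [IsScalarTower K L Om] [Finite K] [Finite L]

theorem iso [IsAlgClosed Om] (f : K[X]) (hf : Irreducible f) (hfd : f ∣ X ^ (deg K L) - 1) :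
    ∃ U : Submodule K L, (∀ x ∈ U, x ^ (Nat.card K) ∈ U) ∧
      ∀ (d : ℕ) (z : Om), d ∣ deg K L → z ^ (deg K L / d) = 1 →
        ((∃ w : Om, aeval w f = 0 ∧ w ^ d * z = 1) → ∃ x ∈ U, Res K d z x ≠ 0) ∧
        ((¬ ∃ w : Om, aeval w f = 0 ∧ w ^ d * z = 1) → ∀ x ∈ U, Res K d z x = 0) := by
  classical
  have hfin : Module.Finite K L := inferInstance
  have hn : 0 < deg K L := Module.finrank_pos
  obtain ⟨p, hp⟩ := CharP.exists K
  have hpp : Fact p.Prime := ⟨CharP.char_is_prime K p⟩
  have hp' := hp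
  obtain ⟨a, m, hm, hnm⟩ := Nat.exists_eq_pow_mul_and_not_dvd hn.ne' p hpp.out.ne_one
  have hpX : CharP K[X] p := inferInstance
  have hm0 : 0 < m := by
    rcases Nat.eq_zero_or_pos m with h | h
    · rw [h] at hm; exact absurd (dvd_zero p) hm
    · exact h
  have hXn : (X ^ (deg K L) - 1 : K[X]) = (X ^ m - 1) ^ (p ^ a) := by
    rw [sub_pow_char_pow, one_pow, ← pow_mul, hnm, mul_comm]
  have hfm : f ∣ X ^ m - 1 := by
    rw [hXn] at hfd
    exact hf.prime.dvd_of_dvd_pow hfd
  obtain ⟨h, hh⟩ := hfm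
  have hsep : (X ^ m - 1 : K[X]).Separable := by
    have hmK : (m : K) ≠ 0 := by
      rw [Ne, CharP.cast_eq_zero_iff K p]
      exact hm
    have := Polynomial.separable_X_pow_sub_C (1 : K) hmK one_ne_zero
    simpa using this
  have hcop : IsCoprime f h := by
    rw [hh] at hsep
    exact hsep.isCoprime
  have hhw : ∀ w : Om, aeval w f = 0 → aeval w h ≠ 0 := by
    intro w hw hw2
    obtain ⟨u, v, huv⟩ := hcop
    have := congrArg (aeval w) huv
    simp only [map_add, map_mul, hw, hw2, mul_zero, add_zero, map_one] at this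
    exact zero_ne_one this
  refine ⟨LinearMap.range (aeval (frob K L) (h ^ (p ^ a))), ?_, ?_⟩
  · rintro x ⟨y, rfl⟩
    refine ⟨frob K L y, ?_⟩
    have h1 : (aeval (frob K L) (h ^ (p ^ a))) * (frob K L) =
        (frob K L) * (aeval (frob K L) (h ^ (p ^ a))) := by
      have h2 := congrArg (aeval (frob K L)) (mul_comm (h ^ (p ^ a)) (X : K[X]))
      rw [map_mul, map_mul, aeval_X] at h2
      exact h2
    have h3 := LinearMap.congr_fun h1 y
    rw [Module.End.mul_apply, Module.End.mul_apply] at h3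
    rw [h3, frob_apply]
  · intro d z hd hz
    have hd0 : 0 < d := Nat.pos_of_dvd_of_pos hd hn
    have hN : 0 < deg K L / d := Nat.div_pos (Nat.le_of_dvd hn hd) hd0
    have hz0 : z ≠ 0 := by
      rintro rfl
      rw [zero_pow hN.ne'] at hz
      exact zero_ne_one hz
    have hvan := van d z hd hz (h ^ (p ^ a))
    constructor
    · rintro ⟨w, hw, hwz⟩
      by_contra hcon
      push Not at hcon
      have h1 : ∀ x : L, Res K d z (aeval (frob K L) (h ^ (p ^ a)) x) = 0 := fun x =>
        hcon _ ⟨x, rfl⟩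
      obtain ⟨u, hu⟩ := hvan.1 h1
      have h2 := congrArg (Polynomial.eval w) hu
      rw [eval_mul, eval_sub, eval_pow, eval_X, eval_C, eq_inv_of_mul_eq_one_left hwz, sub_self,
        zero_mul, Polynomial.eval_map_algebraMap, map_pow] at h2
      exact hhw w hw (pow_eq_zero_iff (pow_ne_zero _ hpp.out.ne_zero) |>.1 h2)
    · intro hnt x hx
      obtain ⟨y, rfl⟩ := hx
      refine hvan.2 ?_ y
      -- coprimality
      have hc : IsCoprime (X ^ d - C z⁻¹ : Om[X]) (f.map (algebraMap K Om)) := by
        rw [Polynomial.isCoprime_iff_aeval_ne_zero_of_isAlgClosed Om Om]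
        intro w
        by_contra hcon
        push Not at hcon
        obtain ⟨h1, h2⟩ := hcon
        apply hnt
        refine ⟨w, ?_, ?_⟩
        · rw [aeval_map_algebraMap] at h2
          exact h2
        · rw [map_sub, map_pow, aeval_X, aeval_C, sub_eq_zero] at h1
          rw [h1]
          exact inv_mul_cancel₀ hz0
      have hdvd : (X ^ d - C z⁻¹ : Om[X]) ∣ (X ^ (deg K L) - 1 : Om[X]) := by
        have h1 := sub_dvd_pow_sub_pow (X ^ d : Om[X]) (C z⁻¹) (deg K L / d)
        rw [← pow_mul, Nat.mul_div_cancel' hd, ← C_pow, inv_pow, hz, inv_one, C_1] at h1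
        exact h1
      have hfac : (X ^ (deg K L) - 1 : Om[X]) =
          (f.map (algebraMap K Om)) ^ (p ^ a) * (h ^ (p ^ a)).map (algebraMap K Om) := by
        have h1 := congrArg (Polynomial.map (algebraMap K Om)) hXn
        rw [hh, mul_pow] at h1
        simpa using h1
      rw [hfac] at hdvd
      exact (hc.pow_right).dvd_of_dvd_mul_left hdvd

end

end Pool.Agent.MM
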