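import Mathlib
import Pool.Agent.MM.Defs

/-! # Module SK: the sum of `d / q ^ ord` -/

namespace Pool.Agent.MM

open Finset Polynomial

theorem sk_range (t : ℕ) : ∑ d ∈ range (t + 1), (d : ℝ) = ((t : ℝ) ^ 2 + t) / 2 := by
  induction t with
  | zero => simp
  | succ t ih =>
    rw [sum_range_succ, ih]
    push_cast
    ring

theorem sk_sigma_le (t : ℕ) : ∑ d ∈ t.divisors, (d : ℝ) ≤ ((t : ℝ) ^ 2 + t) / 2 := by
  rw [← sk_range]
  apply sum_le_sum_of_subset_of_nonneg
  · intro d hd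
    have := Nat.divisor_le hd
    rw [mem_range]
    omega
  · intro d _ _
    positivity

theorem sk_tail3 (N : ℕ) (hN : 4 ≤ N) :
    ∑ n ∈ Icc 5 N, (((n : ℝ) ^ 2 + n) / 2) / 3 ^ n ≤
      (3 / 4 * (5 : ℝ) ^ 2 + 3 / 2 * 5 + 9 / 8) / 3 ^ 5 -
        (3 / 4 * ((N : ℝ) + 1) ^ 2 + 3 / 2 * ((N : ℝ) + 1) + 9 / 8) / 3 ^ (N + 1) := by
  induction N, hN using Nat.le_induction with
  | base => norm_num
  | succ N hN ih =>
    rw [← Finset.insert_Icc_right_eq_Icc_add_one (by omega : 5 ≤ N + 1), sum_insert (by simp)]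
    have e : (((((N + 1 : ℕ) : ℝ)) ^ 2 + ((N + 1 : ℕ) : ℝ)) / 2) / 3 ^ (N + 1) =
        (3 / 4 * ((N : ℝ) + 1) ^ 2 + 3 / 2 * ((N : ℝ) + 1) + 9 / 8) / 3 ^ (N + 1) -
        (3 / 4 * (((N + 1 : ℕ) : ℝ) + 1) ^ 2 + 3 / 2 * (((N + 1 : ℕ) : ℝ) + 1) + 9 / 8) /
          3 ^ (N + 1 + 1) := by
      rw [pow_succ (3 : ℝ) (N + 1)]
      push_cast
      field_simp
      ring
    rw [e]
    linarith

theorem sk_tail2 (N : ℕ) (hN : 8 ≤ N) :
    ∑ n ∈ Icc 9 N, (((n : ℝ) ^ 2 + n) / 2) / 2 ^ n ≤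
      ((9 : ℝ) ^ 2 + 3 * 9 + 4) / 2 ^ 9 -
        (((N : ℝ) + 1) ^ 2 + 3 * ((N : ℝ) + 1) + 4) / 2 ^ (N + 1) := by
  induction N, hN using Nat.le_induction with
  | base => norm_num
  | succ N hN ih =>
    rw [← Finset.insert_Icc_right_eq_Icc_add_one (by omega : 9 ≤ N + 1), sum_insert (by simp)]
    have e : (((((N + 1 : ℕ) : ℝ)) ^ 2 + ((N + 1 : ℕ) : ℝ)) / 2) / 2 ^ (N + 1) =
        (((N : ℝ) + 1) ^ 2 + 3 * ((N : ℝ) + 1) + 4) / 2 ^ (N + 1) -
        ((((N + 1 : ℕ) : ℝ) + 1) ^ 2 + 3 * (((N + 1 : ℕ) : ℝ) + 1) + 4) /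
          2 ^ (N + 1 + 1) := by
      rw [pow_succ (2 : ℝ) (N + 1)]
      push_cast
      field_simp
      ring
    rw [e]
    linarith

theorem sk_num3 (N : ℕ) :
    ∑ n ∈ Icc 2 N, (∑ d ∈ n.divisors, (d : ℝ)) / 3 ^ n ≤ 3 / 4 := by
  have hsub : Icc 2 N ⊆ ({2, 3, 4} : Finset ℕ) ∪ Icc 5 (N + 4) := by
    intro n hn
    simp only [mem_Icc, mem_union, mem_insert, mem_singleton] at hn ⊢
    omega
  have hdis : Disjoint ({2, 3, 4} : Finset ℕ) (Icc 5 (N + 4)) := by
    rw [Finset.disjoint_left]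
    intro n hn hn'
    simp only [mem_Icc, mem_insert, mem_singleton] at hn hn'
    omega
  have h1 : ∑ n ∈ Icc 2 N, (∑ d ∈ n.divisors, (d : ℝ)) / 3 ^ n ≤
      ∑ n ∈ ({2, 3, 4} : Finset ℕ) ∪ Icc 5 (N + 4), (∑ d ∈ n.divisors, (d : ℝ)) / 3 ^ n := by
    apply sum_le_sum_of_subset_of_nonneg hsub
    intro n _ _
    positivity
  rw [sum_union hdis] at h1
  have h2 : ∑ n ∈ Icc 5 (N + 4), (∑ d ∈ n.divisors, (d : ℝ)) / 3 ^ n ≤
      ∑ n ∈ Icc 5 (N + 4), (((n : ℝ) ^ 2 + n) / 2) / 3 ^ n := by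
    apply sum_le_sum
    intro n _
    gcongr
    exact sk_sigma_le n
  have h3 := sk_tail3 (N + 4) (by omega)
  have h4 : (0 : ℝ) ≤ (3 / 4 * (((N + 4 : ℕ) : ℝ) + 1) ^ 2 + 3 / 2 * (((N + 4 : ℕ) : ℝ) + 1) + 9 / 8) /
      3 ^ (N + 4 + 1) := by positivity
  have h5 : ∑ n ∈ ({2, 3, 4} : Finset ℕ), (∑ d ∈ n.divisors, (d : ℝ)) / 3 ^ n =
      3 / 9 + 4 / 27 + 7 / 81 := by
    rw [sum_insert (by decide), sum_insert (by decide), sum_singleton,
      show Nat.divisors 2 = {1, 2} from by decide, show Nat.divisors 3 = {1, 3} from by decide,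
      show Nat.divisors 4 = {1, 2, 4} from by decide]
    norm_num
  rw [h5] at h1
  norm_num at h3 h4
  linarith

theorem sk_num2 (N : ℕ) :
    ∑ n ∈ Icc 5 N, (∑ d ∈ n.divisors, (d : ℝ)) / 2 ^ n ≤ 3 / 4 := by
  have hsub : Icc 5 N ⊆ ({5, 6, 7, 8} : Finset ℕ) ∪ Icc 9 (N + 8) := by
    intro n hn
    simp only [mem_Icc, mem_union, mem_insert, mem_singleton] at hn ⊢
    omega
  have hdis : Disjoint ({5, 6, 7, 8} : Finset ℕ) (Icc 9 (N + 8)) := by
    rw [Finset.disjoint_left]
    intro n hn hn'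
    simp only [mem_Icc, mem_insert, mem_singleton] at hn hn'
    omega
  have h1 : ∑ n ∈ Icc 5 N, (∑ d ∈ n.divisors, (d : ℝ)) / 2 ^ n ≤
      ∑ n ∈ ({5, 6, 7, 8} : Finset ℕ) ∪ Icc 9 (N + 8), (∑ d ∈ n.divisors, (d : ℝ)) / 2 ^ n := by
    apply sum_le_sum_of_subset_of_nonneg hsub
    intro n _ _
    positivity
  rw [sum_union hdis] at h1
  have h2 : ∑ n ∈ Icc 9 (N + 8), (∑ d ∈ n.divisors, (d : ℝ)) / 2 ^ n ≤
      ∑ n ∈ Icc 9 (N + 8), (((n : ℝ) ^ 2 + n) / 2) / 2 ^ n := by
    apply sum_le_sum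
    intro n _
    gcongr
    exact sk_sigma_le n
  have h3 := sk_tail2 (N + 8) (by omega)
  have h4 : (0 : ℝ) ≤ ((((N + 8 : ℕ) : ℝ) + 1) ^ 2 + 3 * (((N + 8 : ℕ) : ℝ) + 1) + 4) /
      2 ^ (N + 8 + 1) := by positivity
  have h5 : ∑ n ∈ ({5, 6, 7, 8} : Finset ℕ), (∑ d ∈ n.divisors, (d : ℝ)) / 2 ^ n =
      6 / 32 + 12 / 64 + 8 / 128 + 15 / 256 := by
    rw [sum_insert (by decide), sum_insert (by decide), sum_insert (by decide), sum_singleton,
      show Nat.divisors 5 = {1, 5} from by decide, show Nat.divisors 6 = {1, 2, 3, 6} from by decide,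
      show Nat.divisors 7 = {1, 7} from by decide,
      show Nat.divisors 8 = {1, 2, 4, 8} from by decide]
    norm_num
  rw [h5] at h1
  norm_num at h3 h4
  linarith

/-- grouping by the order -/
theorem sk_fiber (x : ℝ) (hx : 0 < x) (D : Finset ℕ) (t : ℕ → ℕ) (T0 N : ℕ)
    (h : ∀ d ∈ D, T0 ≤ t d ∧ t d ≤ N ∧ d ∈ (t d).divisors) :
    ∑ d ∈ D, (d : ℝ) / x ^ (t d) ≤
      ∑ n ∈ Icc T0 N, (∑ d ∈ n.divisors, (d : ℝ)) / x ^ n := by
  have hmap : ∀ d ∈ D, t d ∈ Icc T0 N := fun d hd => by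
    rw [mem_Icc]
    exact ⟨(h d hd).1, (h d hd).2.1⟩
  rw [← Finset.sum_fiberwise_of_maps_to hmap]
  apply sum_le_sum
  intro n _
  rw [Finset.sum_div]
  calc ∑ d ∈ D with t d = n, (d : ℝ) / x ^ (t d) = ∑ d ∈ D with t d = n, (d : ℝ) / x ^ n := by
        apply sum_congr rfl
        intro d hd
        rw [mem_filter] at hd
        rw [hd.2]
    _ ≤ ∑ d ∈ n.divisors, (d : ℝ) / x ^ n := by
        apply sum_le_sum_of_subset_of_nonneg
        · intro d hd
          rw [mem_filter] at hd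
          rw [← hd.2]
          exact (h d hd.1).2.2
        · intro d _ _
          positivity

theorem sk_dvd (q m : ℕ) (hq : 1 ≤ q) : m ∣ q ^ (orderOf (q : ZMod m)) - 1 := by
  rw [← ZMod.natCast_eq_zero_iff, Nat.cast_sub (Nat.one_le_pow _ _ hq)]
  push_cast
  rw [pow_orderOf_eq_one, sub_self]

theorem sk_ord_dvd (q m j : ℕ) (hq : 1 ≤ q) (h : m ∣ q ^ j - 1) : orderOf (q : ZMod m) ∣ j := by
  apply orderOf_dvd_of_pow_eq_one
  rw [← ZMod.natCast_eq_zero_iff, Nat.cast_sub (Nat.one_le_pow _ _ hq)] at h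
  push_cast at h
  exact sub_eq_zero.mp h

/-- explicit superset -/
theorem sk_explicit (D E : Finset ℕ) (f g : ℕ → ℝ) (hsub : D ⊆ E) (hf : ∀ d ∈ D, f d ≤ g d)
    (hg : ∀ d ∈ E, 0 ≤ g d) : ∑ d ∈ D, f d ≤ ∑ d ∈ E, g d :=
  (sum_le_sum hf).trans (sum_le_sum_of_subset_of_nonneg hsub fun d hd _ => hg d hd)

theorem sk (q k : ℕ) (hq : 2 ≤ q) (hk : 0 < k) (hkq : k.Coprime q) (D : Finset ℕ)
    (hD : ∀ d ∈ D, 0 < d ∧ d ∣ orderOf (q : ZMod (k / k.gcd d))) :
    ∑ d ∈ D, (d : ℝ) / (q : ℝ) ^ (orderOf (q : ZMod (k / k.gcd d))) ≤ 3 / 4 := by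
  set t : ℕ → ℕ := fun d => orderOf (q : ZMod (k / k.gcd d)) with ht
  have hq1 : 1 ≤ q := by omega
  have hq0' : (0 : ℝ) < q := by exact_mod_cast (by omega : 0 < q)
  have hm0 : ∀ d, 0 < k / k.gcd d := fun d =>
    Nat.div_pos (Nat.le_of_dvd hk (Nat.gcd_dvd_left k d)) (Nat.gcd_pos_of_pos_left d hk)
  have htpos : ∀ d, 0 < t d := by
    intro d
    have : NeZero (k / k.gcd d) := ⟨(hm0 d).ne'⟩
    have hc : Nat.Coprime q (k / k.gcd d) :=
      (hkq.symm).coprime_dvd_right (Nat.div_dvd_of_dvd (Nat.gcd_dvd_left k d))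
    have hu : IsUnit (q : ZMod (k / k.gcd d)) := (ZMod.isUnit_iff_coprime q _).mpr hc
    obtain ⟨u, hu⟩ := hu
    rw [ht]
    simp only
    rw [← hu, orderOf_units]
    exact orderOf_pos u
  have hdvd : ∀ d, k / k.gcd d ∣ q ^ (t d) - 1 := fun d => sk_dvd q _ hq1
  have hmem : ∀ d ∈ D, d ∈ (t d).divisors := fun d hd => by
    rw [Nat.mem_divisors]
    exact ⟨(hD d hd).2, (htpos d).ne'⟩
  have hsup : ∀ d ∈ D, t d ≤ D.sup t := fun d hd => Finset.le_sup hd
  change ∑ d ∈ D, (d : ℝ) / (q : ℝ) ^ (t d) ≤ 3 / 4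
  by_cases hA : ∃ d ∈ D, t d = 1
  · -- order one
    obtain ⟨d, hd, htd⟩ := hA
    have hd1 : d = 1 := by
      have := (hD d hd).2
      change d ∣ t d at this
      rw [htd] at this
      exact Nat.dvd_one.mp this
    subst hd1
    have hkq1 : k ∣ q - 1 := by
      have := hdvd 1
      rw [htd, pow_one, Nat.gcd_one_right, Nat.div_one] at this
      exact this
    have hall : ∀ d ∈ D, d = 1 ∧ t d = 1 := by
      intro d hd
      have h1 : t d ∣ 1 := by
        apply sk_ord_dvd q _ 1 hq1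
        rw [pow_one]
        exact (Nat.div_dvd_of_dvd (Nat.gcd_dvd_left k d)).trans hkq1
      have h2 : t d = 1 := Nat.dvd_one.mp h1
      have h3 := (hD d hd).2
      change d ∣ t d at h3
      rw [h2] at h3
      exact ⟨Nat.dvd_one.mp h3, h2⟩
    have hE := sk_explicit D {1} (fun d => (d : ℝ) / (q : ℝ) ^ (t d)) (fun _ => 1 / 2)
      (fun d hd => by rw [mem_singleton]; exact (hall d hd).1) (by
        intro d hd
        rw [(hall d hd).2, (hall d hd).1, pow_one, Nat.cast_one]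
        apply one_div_le_one_div_of_le (by norm_num)
        exact_mod_cast hq) (by intro d _; norm_num)
    simp only [sum_singleton] at hE
    linarith
  push Not at hA
  have h2 : ∀ d ∈ D, 2 ≤ t d := fun d hd => by
    have := hA d hd
    have := htpos d
    omega
  by_cases hq3 : 3 ≤ q
  · have h3 : ∑ d ∈ D, (d : ℝ) / (q : ℝ) ^ (t d) ≤ ∑ d ∈ D, (d : ℝ) / (3 : ℝ) ^ (t d) := by
      apply sum_le_sum
      intro d _
      have : (3 : ℝ) ≤ q := by exact_mod_cast hq3
      gcongr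
    exact h3.trans ((sk_fiber 3 (by norm_num) D t 2 (D.sup t) fun d hd =>
      ⟨h2 d hd, hsup d hd, hmem d hd⟩).trans (sk_num3 _))
  have hq2 : q = 2 := by omega
  subst hq2
  push_cast
  have hkodd : ¬ 2 ∣ k := by
    intro h
    have := Nat.Coprime.eq_one_of_dvd hkq.symm h
    omega
  -- the values of `k` for small orders
  have hcop : ∀ d, (d = 1 ∨ d = 2 ∨ d = 4) → k.gcd d = 1 := by
    intro d hd
    have hk2 : Nat.Coprime k 2 := hkq
    rcases hd with h | h | h
    · subst h; simp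
    · subst h; exact hk2
    · subst h
      exact hk2.pow_right 2
  by_cases hB : ∃ d ∈ D, t d = 2
  · obtain ⟨d, hd, htd⟩ := hB
    have hd' : d ∣ 2 := by
      have := (hD d hd).2
      change d ∣ t d at this
      rwa [htd] at this
    have hg : k.gcd d = 1 := hcop d (by
      have := Nat.le_of_dvd (by norm_num) hd'
      have := (hD d hd).1
      omega)
    have hk3 : k ∣ 3 := by
      have := hdvd d
      rw [htd, hg, Nat.div_one] at this
      exact this
    have hall : ∀ d ∈ D, d ∣ 2 ∧ t d = 2 := by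
      intro d hd
      have h1 : t d ∣ 2 := by
        apply sk_ord_dvd 2 _ 2 hq1
        exact (Nat.div_dvd_of_dvd (Nat.gcd_dvd_left k d)).trans (by simpa using hk3)
      have h3 : t d = 2 := by
        have := Nat.le_of_dvd (by norm_num) h1
        have := h2 d hd
        omega
      have h4 := (hD d hd).2
      change d ∣ t d at h4
      rw [h3] at h4
      exact ⟨h4, h3⟩
    have hE := sk_explicit D {1, 2} (fun d => (d : ℝ) / (2 : ℝ) ^ (t d)) (fun d => (d : ℝ) / 4)
      (fun d hd => by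
        have := (hall d hd).1
        have h5 := Nat.le_of_dvd (by norm_num) this
        have h6 := (hD d hd).1
        simp only [mem_insert, mem_singleton]
        omega) (by
        intro d hd
        rw [(hall d hd).2]
        norm_num) (by intro d _; positivity)
    rw [sum_insert (by decide), sum_singleton] at hE
    norm_num at hE
    linarith
  push Not at hB
  have h3 : ∀ d ∈ D, 3 ≤ t d := fun d hd => by
    have := hB d hd
    have := h2 d hd
    omega
  by_cases hC : ∃ d ∈ D, t d = 3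
  · obtain ⟨d, hd, htd⟩ := hC
    have hd' : d ∣ 3 := by
      have := (hD d hd).2
      change d ∣ t d at this
      rwa [htd] at this
    have hm7 : k / k.gcd d ∣ 7 := by
      have := hdvd d
      rw [htd] at this
      exact this
    have hk21 : k ∣ 21 := by
      have h5 : k.gcd d ∣ 3 := (Nat.gcd_dvd_right k d).trans hd'
      have h6 : k = (k / k.gcd d) * k.gcd d := (Nat.div_mul_cancel (Nat.gcd_dvd_left k d)).symm
      rw [h6]
      exact mul_dvd_mul hm7 h5
    -- orders are 3 or 6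
    have hall : ∀ d ∈ D, (d = 3 ∧ t d = 3) ∨ (d = 1 ∧ 3 ≤ t d) ∨ (d = 2 ∧ 6 ≤ t d) := by
      intro d hd
      have h1 : t d ∣ 6 := by
        apply sk_ord_dvd 2 _ 6 hq1
        exact (Nat.div_dvd_of_dvd (Nat.gcd_dvd_left k d)).trans (hk21.trans (by norm_num))
      have h4 : t d = 3 ∨ t d = 6 := by
        have h5 := Nat.le_of_dvd (by norm_num) h1
        have h6 := h3 d hd
        interval_cases h : t d <;> omega
      have h5 := (hD d hd).2
      change d ∣ t d at h5
      have h6 := (hD d hd).1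
      rcases h4 with h4 | h4
      · rw [h4] at h5
        have h7 := Nat.le_of_dvd (by norm_num) h5
        interval_cases d
        · right; left; exact ⟨rfl, h4.ge⟩
        · omega
        · left; exact ⟨rfl, h4⟩
      · rw [h4] at h5
        have h7 := Nat.le_of_dvd (by norm_num) h5
        -- `3 ∣ d` gives `k / gcd ∣ 7`
        have h8 : ¬ 3 ∣ d := by
          intro h8
          have h9 : k / k.gcd d ∣ 7 := by
            rcases Nat.coprime_or_dvd_of_prime Nat.prime_three k with hc | hc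
            · have : k ∣ 7 := (hc.symm).dvd_of_dvd_mul_left (by simpa using hk21)
              exact (Nat.div_dvd_of_dvd (Nat.gcd_dvd_left k d)).trans this
            · have h10 : 3 ∣ k.gcd d := Nat.dvd_gcd hc h8
              obtain ⟨c, hc'⟩ := h10
              have h11 : (k / k.gcd d) * (3 * c) = k := by
                rw [← hc']
                exact Nat.div_mul_cancel (Nat.gcd_dvd_left k d)
              have h12 : 3 * (k / k.gcd d) ∣ 3 * 7 := by
                calc 3 * (k / k.gcd d) ∣ k := ⟨c, by rw [mul_comm 3, mul_assoc]; exact h11.symm⟩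
                  _ ∣ 3 * 7 := by simpa using hk21
              exact Nat.dvd_of_mul_dvd_mul_left (by norm_num) h12
          have h10 : t d ∣ 3 := by
            apply sk_ord_dvd 2 _ 3 hq1
            simpa using h9
          rw [h4] at h10
          omega
        interval_cases d
        · right; left; exact ⟨rfl, by omega⟩
        · right; right; exact ⟨rfl, by omega⟩
        · omega
        · omega
        · omega
        · omega
    have hE := sk_explicit D {1, 2, 3} (fun d => (d : ℝ) / (2 : ℝ) ^ (t d))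
      (fun d => if d = 1 then 1 / 8 else if d = 2 then 2 / 64 else 3 / 8)
      (fun d hd => by
        simp only [mem_insert, mem_singleton]
        rcases hall d hd with h | h | h
        · right; right; exact h.1
        · left; exact h.1
        · right; left; exact h.1) (by
        intro d hd
        rcases hall d hd with ⟨rfl, h⟩ | ⟨rfl, h⟩ | ⟨rfl, h⟩
        · rw [h]
          norm_num
        · have h8 : (8 : ℝ) ≤ 2 ^ (t 1) := by
            calc (8 : ℝ) = 2 ^ 3 := by norm_num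
              _ ≤ 2 ^ (t 1) := pow_le_pow_right₀ (by norm_num) h
          rw [if_pos rfl, Nat.cast_one]
          exact one_div_le_one_div_of_le (by norm_num) h8
        · have h8 : (64 : ℝ) ≤ 2 ^ (t 2) := by
            calc (64 : ℝ) = 2 ^ 6 := by norm_num
              _ ≤ 2 ^ (t 2) := pow_le_pow_right₀ (by norm_num) h
          rw [if_neg (by norm_num), if_pos rfl]
          push_cast
          gcongr) (by
        intro d _
        split_ifs <;> norm_num)
    rw [sum_insert (by decide), sum_insert (by decide), sum_singleton] at hE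
    norm_num at hE
    linarith
  push Not at hC
  have h4 : ∀ d ∈ D, 4 ≤ t d := fun d hd => by
    have := hC d hd
    have := h3 d hd
    omega
  by_cases hF : ∃ d ∈ D, t d = 4
  · obtain ⟨d, hd, htd⟩ := hF
    have hd' : d ∣ 4 := by
      have := (hD d hd).2
      change d ∣ t d at this
      rwa [htd] at this
    have hg : k.gcd d = 1 := hcop d (by
      have h5 := Nat.le_of_dvd (by norm_num) hd'
      have h6 := (hD d hd).1
      interval_cases d <;> omega)
    have hk15 : k ∣ 15 := by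
      have := hdvd d
      rw [htd, hg, Nat.div_one] at this
      exact this
    have hall : ∀ d ∈ D, d ∣ 4 ∧ t d = 4 := by
      intro d hd
      have h1 : t d ∣ 4 := by
        apply sk_ord_dvd 2 _ 4 hq1
        exact (Nat.div_dvd_of_dvd (Nat.gcd_dvd_left k d)).trans (by simpa using hk15)
      have h5 : t d = 4 := by
        have := Nat.le_of_dvd (by norm_num) h1
        have := h4 d hd
        omega
      have h6 := (hD d hd).2
      change d ∣ t d at h6
      rw [h5] at h6
      exact ⟨h6, h5⟩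
    have hE := sk_explicit D {1, 2, 4} (fun d => (d : ℝ) / (2 : ℝ) ^ (t d)) (fun d => (d : ℝ) / 16)
      (fun d hd => by
        have := (hall d hd).1
        have h5 := Nat.le_of_dvd (by norm_num) this
        have h6 := (hD d hd).1
        simp only [mem_insert, mem_singleton]
        interval_cases d <;> omega) (by
        intro d hd
        rw [(hall d hd).2]
        norm_num) (by intro d _; positivity)
    rw [sum_insert (by decide), sum_insert (by decide), sum_singleton] at hE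
    norm_num at hE
    linarith
  push Not at hF
  have h5 : ∀ d ∈ D, 5 ≤ t d := fun d hd => by
    have := hF d hd
    have := h4 d hd
    omega
  exact (sk_fiber 2 (by norm_num) D t 5 (D.sup t) fun d hd =>
    ⟨h5 d hd, hsup d hd, hmem d hd⟩).trans (sk_num2 _)

end Pool.Agent.MM
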