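import Mathlib
import Pool.Agent.MM.Defs
import Pool.Agent.MM.PER
import Pool.Agent.MM.PERB
import Pool.Agent.MM.SK

/-!
The weighted number of events touching one irreducible factor of `X^n - 1` is at most `3/4`.
-/

namespace Pool.Agent.MM

open Finset Polynomial

section

variable {K L Om : Type} [Field K] [Field L] [Field Om] [Algebra K L] [Algebra K Om]
  [Algebra L Om] [IsScalarTower K L Om] [Finite K] [Finite L]

omit [Algebra K Om] [Finite K] in
theorem sumf_inv (a : Om) (d k : ℕ) (hd : d ≠ 0) (hk : k = orderOf a) :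
    orderOf ((a ^ d)⁻¹) = k / k.gcd d := by
  rw [hk, ← orderOf_pow' a hd]
  apply orderOf_eq_orderOf_iff.2
  intro n
  rw [inv_pow, inv_eq_one]

theorem sumf (f : K[X]) (hf : Irreducible f) (hfd : f ∣ X ^ (deg K L) - 1)
    (S : Finset (ℕ × Om))
    (hS : ∀ e ∈ S, Ev K L e.1 e.2 ∧ ∃ w : Om, aeval w f = 0 ∧ w ^ e.1 * e.2 = 1) :
    ∑ e ∈ S, (e.1 : ℝ) / (per K e.2 : ℝ) / (Nat.card K : ℝ) ^ (per K e.2) ≤ 3 / 4 := by
  classical
  have hfin : Module.Finite K L := inferInstance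
  have hn : 0 < deg K L := Module.finrank_pos
  rcases S.eq_empty_or_nonempty with h0 | ⟨e0, he0⟩
  · rw [h0, sum_empty]; norm_num
  obtain ⟨w0, hw0, -⟩ := (hS e0 he0).2
  have hw0n : w0 ^ (deg K L) = 1 := by
    obtain ⟨c, hc⟩ := hfd
    have h1 := congrArg (aeval w0) hc
    rw [map_mul, hw0, zero_mul, map_sub, map_pow, aeval_X, map_one, sub_eq_zero] at h1
    exact h1
  have hq : 2 ≤ Nat.card K := Finite.one_lt_card
  set k := orderOf w0 with hk
  have hk0 : 0 < k := (isOfFinOrder_iff_pow_eq_one.2 ⟨_, hn, hw0n⟩).orderOf_pos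
  have hkq : k.Coprime (Nat.card K) := orderOf_coprime _ hn w0 hw0n
  -- structure of the elements of S
  have hstr : ∀ e ∈ S, 0 < e.1 ∧ per K e.2 = orderOf ((Nat.card K : ℕ) : ZMod (k / k.gcd e.1)) ∧
      ∃ j : ℕ, e.2 = ((w0 ^ e.1)⁻¹) ^ (Nat.card K ^ j) := by
    intro e he
    obtain ⟨hev, w, hw, hwz⟩ := hS e he
    have hd0 : 0 < e.1 := Nat.pos_of_dvd_of_pos hev.1 hn
    obtain ⟨j, rfl⟩ := root_conj f hf w0 w hw0 hw
    have h1 : e.2 = ((w0 ^ e.1)⁻¹) ^ (Nat.card K ^ j) := by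
      have h2 := eq_inv_of_mul_eq_one_right hwz
      rw [h2, inv_pow, ← pow_mul, ← pow_mul, mul_comm]
    have hz0n : ((w0 ^ e.1)⁻¹) ^ (deg K L) = 1 := by
      rw [inv_pow, ← pow_mul, mul_comm, pow_mul, hw0n, one_pow, inv_one]
    have h3 : per K e.2 = per K ((w0 ^ e.1)⁻¹) := by
      rw [h1]
      exact per_frob (K := K) _ hn _ hz0n j
    refine ⟨hd0, ?_, j, h1⟩
    rw [h3, per_eq_orderOf (K := K) _ hn _ hz0n, sumf_inv w0 e.1 k hd0.ne' hk]
  let D : Finset ℕ := S.image Prod.fst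
  have hmaps : ∀ e ∈ S, e.1 ∈ D := fun e he => mem_image_of_mem _ he
  rw [← sum_fiberwise_of_maps_to hmaps]
  have hsk := sk (Nat.card K) k hq hk0 hkq D (by
    intro d hd
    obtain ⟨e, he, rfl⟩ := mem_image.1 hd
    have h1 := hstr e he
    refine ⟨h1.1, ?_⟩
    rw [← h1.2.1]
    exact (hS e he).1.2.2)
  refine le_trans (sum_le_sum fun d hd => ?_) hsk
  obtain ⟨e1, he1, hed⟩ := mem_image.1 hd
  have h1 := hstr e1 he1
  rw [hed] at h1
  set t := orderOf ((Nat.card K : ℕ) : ZMod (k / k.gcd d)) with ht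
  have hp : 0 < t := by
    rw [← h1.2.1]
    have h2 := (hS e1 he1).1
    exact per_pos _ (Nat.div_pos (Nat.le_of_dvd hn h2.1) (Nat.pos_of_dvd_of_pos h2.1 hn)) _ h2.2.1
  have h2 : ∀ e ∈ S.filter (fun e => e.1 = d), (e.1 : ℝ) / (per K e.2 : ℝ) /
      (Nat.card K : ℝ) ^ (per K e.2) = (d : ℝ) / t / (Nat.card K : ℝ) ^ t := by
    intro e he
    obtain ⟨heS, hed'⟩ := mem_filter.1 he
    have h3 := hstr e heS
    rw [h3.2.1, hed']
  rw [sum_congr rfl h2, sum_const, nsmul_eq_mul]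
  have hcard : (S.filter (fun e => e.1 = d)).card ≤ t := by
    have hz0n : ((w0 ^ d)⁻¹) ^ (deg K L) = 1 := by
      rw [inv_pow, ← pow_mul, mul_comm, pow_mul, hw0n, one_pow, inv_one]
    have hperz : per K ((w0 ^ d)⁻¹) = t := by
      rw [per_eq_orderOf (K := K) _ hn _ hz0n, sumf_inv w0 d k h1.1.ne' hk]
    have hsub : S.filter (fun e => e.1 = d) ⊆
        (range t).image (fun j => (d, ((w0 ^ d)⁻¹) ^ (Nat.card K ^ j))) := by
      intro e he
      obtain ⟨heS, hed'⟩ := mem_filter.1 he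
      obtain ⟨-, -, j, hj⟩ := hstr e heS
      rw [mem_image]
      refine ⟨j % t, mem_range.2 (Nat.mod_lt _ hp), ?_⟩
      rw [← hed']
      apply Prod.ext
      · rfl
      · simp only
        rw [hj, hed']
        have h5 : ((w0 ^ d)⁻¹) ^ (Nat.card K ^ (t * (j / t))) = ((w0 ^ d)⁻¹) := by
          rw [← per_dvd_iff, hperz]
          exact dvd_mul_right _ _
        conv_rhs => rw [← Nat.div_add_mod j t, pow_add, pow_mul, h5]
    refine (card_le_card hsub).trans (card_image_le.trans ?_)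
    rw [card_range]
  have htR : (0 : ℝ) < t := by exact_mod_cast hp
  have hqR : (0 : ℝ) < (Nat.card K : ℝ) ^ t := by
    have : (0 : ℝ) < Nat.card K := by exact_mod_cast (by omega : 0 < Nat.card K)
    positivity
  calc ((S.filter (fun e => e.1 = d)).card : ℝ) * ((d : ℝ) / t / (Nat.card K : ℝ) ^ t)
      ≤ (t : ℝ) * ((d : ℝ) / t / (Nat.card K : ℝ) ^ t) := by
        apply mul_le_mul_of_nonneg_right
        · exact_mod_cast hcard
        · positivity
    _ = (d : ℝ) / (Nat.card K : ℝ) ^ t := by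
        field_simp

end

end Pool.Agent.MM
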