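import Mathlib

/-!
The triangular lemma: a lower bound for the number of vectors avoiding the kernels of a family of
homomorphisms, when each homomorphism is assigned to a subgroup on which its image is large and
the later subgroups are killed.
-/

namespace Pool.Agent.MM

open Finset

/-- the basic counting step -/
theorem tri_step {V A : Type} [AddCommGroup V] [Fintype V] [AddCommGroup A] [DecidableEq V]
    (r : V →+ A) (U : AddSubgroup V) (G : Finset V) (hG : ∀ v ∈ G, ∀ u ∈ U, v + u ∈ G)
    (B : Finset V) (hB : ∀ v ∈ B, v ∈ G ∧ r v = 0) :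
    B.card * Nat.card (U.map r) ≤ G.card := by
  classical
  have hex : ∀ y : U.map r, ∃ u : V, u ∈ U ∧ r u = y := fun y => by
    obtain ⟨u, hu, h⟩ := AddSubgroup.mem_map.1 y.2
    exact ⟨u, hu, h⟩
  choose c hcU hc using hex
  have hfin : Finite (U.map r) := by
    have : Finite U := inferInstance
    exact Set.Finite.to_subtype ((Set.toFinite (U : Set V)).image r)
  have : Fintype (U.map r) := Fintype.ofFinite _
  have h1 : B.card * Nat.card (U.map r) = (B ×ˢ (univ : Finset (U.map r))).card := by
    rw [card_product, Nat.card_eq_fintype_card, card_univ]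
  rw [h1]
  apply card_le_card_of_injOn (fun x => x.1 + c x.2)
  · intro x hx
    have h2 := (mem_product.1 (mem_coe.1 hx)).1
    exact hG _ (hB _ h2).1 _ (hcU _)
  · intro x hx y hy hxy
    have h2 := (mem_product.1 (mem_coe.1 hx)).1
    have h3 := (mem_product.1 (mem_coe.1 hy)).1
    simp only at hxy
    have h4 := congrArg r hxy
    rw [map_add, map_add, (hB _ h2).2, (hB _ h3).2, hc, hc, zero_add, zero_add] at h4
    have h5 : x.2 = y.2 := Subtype.ext h4
    rw [h5] at hxy
    exact Prod.ext (add_right_cancel hxy) h5

open scoped Classical in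
theorem tri {V A E I : Type} [AddCommGroup V] [Finite V] [AddCommGroup A] [LinearOrder I]
    [Fintype I] (S : Finset E) (R : E → V →+ A) (U : I → AddSubgroup V) (idx : E → I)
    (w s : E → ℝ) (hw : ∀ e ∈ S, 0 ≤ w e)
    (hs : ∀ e ∈ S, (Nat.card ((U (idx e)).map (R e)) : ℝ) = s e)
    (hvan : ∀ e ∈ S, ∀ j, idx e < j → ∀ u ∈ U j, R e u = 0)
    (hmult : ∀ e ∈ S, ∀ v, R e v = 0 →
      1 ≤ ∑ e' ∈ S with (idx e' = idx e ∧ R e' v = 0), w e')
    (hS : ∀ i, ∑ e ∈ S with idx e = i, w e / s e ≤ 1) :
    (∏ i, (1 - ∑ e ∈ S with idx e = i, w e / s e)) * (Nat.card V : ℝ) ≤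
      Nat.card {v : V // ∀ e ∈ S, R e v ≠ 0} := by
  have hFV : Fintype V := Fintype.ofFinite V
  let G : Finset I → Finset V := fun J => univ.filter (fun v => ∀ e ∈ S, idx e ∈ J → R e v ≠ 0)
  have hspos : ∀ e ∈ S, 0 < s e := by
    intro e he
    rw [← hs e he]
    have hfin : Finite ((U (idx e)).map (R e)) :=
      Set.Finite.to_subtype ((Set.toFinite ((U (idx e)) : Set V)).image (R e))
    exact_mod_cast Nat.card_pos
  have key : ∀ J : Finset I, (∏ i ∈ J, (1 - ∑ e ∈ S with idx e = i, w e / s e)) * (Nat.card V : ℝ) ≤
      ((G J).card : ℝ) := by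
    intro J
    induction J using Finset.induction_on_max with
    | empty =>
      have : G ∅ = univ := by
        ext v
        simp [G]
      rw [this, card_univ, prod_empty, one_mul, Nat.card_eq_fintype_card]
    | insert a J hmax ih =>
      have haJ : a ∉ J := fun h => lt_irrefl _ (hmax a h)
      rw [prod_insert haJ, mul_assoc]
      have h1 : (1 - ∑ e ∈ S with idx e = a, w e / s e) * ((G J).card : ℝ) ≤
          ((G (insert a J)).card : ℝ) := by
        -- G (insert a J) = G J minus bad
        let Bd : Finset V := (G J).filter (fun v => ∃ e ∈ S, idx e = a ∧ R e v = 0)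
        have hsub : (G J) \ Bd ⊆ G (insert a J) := by
          intro v hv
          obtain ⟨h2, h3⟩ := mem_sdiff.1 hv
          refine mem_filter.2 ⟨mem_univ _, ?_⟩
          intro e he hidx
          rcases mem_insert.1 hidx with h | h
          · intro h0
            exact h3 (mem_filter.2 ⟨h2, e, he, h, h0⟩)
          · exact (mem_filter.1 h2).2 e he h
        have hcard : ((G J).card : ℝ) - (Bd.card : ℝ) ≤ ((G (insert a J)).card : ℝ) := by
          have h2 := card_le_card hsub
          have h3 : ((G J) \ Bd).card = (G J).card - Bd.card :=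
            card_sdiff_of_subset (filter_subset _ _)
          have h4 : Bd.card ≤ (G J).card := card_le_card (filter_subset _ _)
          have h5 : (((G J) \ Bd).card : ℝ) = (G J).card - Bd.card := by
            rw [h3, Nat.cast_sub h4]
          rw [← h5]
          exact_mod_cast h2
        have hbad : (Bd.card : ℝ) ≤ ∑ e ∈ S with idx e = a, w e *
            (((G J).filter (fun v => R e v = 0)).card : ℝ) := by
          calc (Bd.card : ℝ) = ∑ v ∈ Bd, (1 : ℝ) := by simp
            _ ≤ ∑ v ∈ Bd, ∑ e ∈ S with (idx e = a ∧ R e v = 0), w e := by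
                refine sum_le_sum fun v hv => ?_
                obtain ⟨e, he, hea, he0⟩ := (mem_filter.1 hv).2
                have := hmult e he v he0
                rw [hea] at this
                exact this
            _ ≤ ∑ v ∈ G J, ∑ e ∈ S with (idx e = a ∧ R e v = 0), w e := by
                apply sum_le_sum_of_subset_of_nonneg (filter_subset _ _)
                intro v _ _
                exact sum_nonneg fun e he => hw e (mem_filter.1 he).1
            _ = ∑ v ∈ G J, ∑ e ∈ S with idx e = a, if R e v = 0 then w e else 0 := by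
                refine sum_congr rfl fun v _ => ?_
                rw [← sum_filter, filter_filter]
            _ = ∑ e ∈ S with idx e = a, ∑ v ∈ G J, if R e v = 0 then w e else 0 := sum_comm
            _ = _ := by
                refine sum_congr rfl fun e _ => ?_
                rw [← sum_filter, sum_const, nsmul_eq_mul, mul_comm]
        have hbad2 : ∑ e ∈ S with idx e = a, w e *
            (((G J).filter (fun v => R e v = 0)).card : ℝ) ≤
            (∑ e ∈ S with idx e = a, w e / s e) * ((G J).card : ℝ) := by
          rw [sum_mul]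
          refine sum_le_sum fun e he => ?_
          obtain ⟨heS, hea⟩ := mem_filter.1 he
          have h2 := tri_step (R e) (U (idx e)) (G J) (by
            intro v hv u hu
            refine mem_filter.2 ⟨mem_univ _, ?_⟩
            intro e' he' hidx'
            rw [map_add, hvan e' he' (idx e) (by rw [hea]; exact hmax _ hidx') u hu, add_zero]
            exact (mem_filter.1 hv).2 e' he' hidx')
            ((G J).filter (fun v => R e v = 0)) (fun v hv => mem_filter.1 hv)
          have h3 : (((G J).filter (fun v => R e v = 0)).card : ℝ) * s e ≤ ((G J).card : ℝ) := by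
            rw [← hs e heS]
            exact_mod_cast h2
          have h4 : (((G J).filter (fun v => R e v = 0)).card : ℝ) ≤ ((G J).card : ℝ) / s e :=
            (le_div_iff₀ (hspos e heS)).2 h3
          calc w e * (((G J).filter (fun v => R e v = 0)).card : ℝ)
              ≤ w e * (((G J).card : ℝ) / s e) := mul_le_mul_of_nonneg_left h4 (hw e heS)
            _ = _ := by ring
        linarith
      calc (1 - ∑ e ∈ S with idx e = a, w e / s e) *
            ((∏ i ∈ J, (1 - ∑ e ∈ S with idx e = i, w e / s e)) * (Nat.card V : ℝ))
          ≤ (1 - ∑ e ∈ S with idx e = a, w e / s e) * ((G J).card : ℝ) :=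
            mul_le_mul_of_nonneg_left ih (by linarith [hS a])
        _ ≤ _ := h1
  refine (key univ).trans (le_of_eq ?_)
  rw [Nat.card_eq_fintype_card, Fintype.card_subtype]
  congr 2
  ext v
  simp [G]

end Pool.Agent.MM
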