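import Mathlib
import Pool.Agent.MM.Defs
import Pool.Agent.MM.CNE
import Pool.Agent.MM.KERN
import Pool.Agent.MM.PC
import Pool.Agent.MM.EB
import Pool.Agent.MM.KB
import Pool.Agent.MM.INEQ
import Pool.Agent.MM.CRIT
import Pool.Agent.MM.OMEGA

/-!
Existence of primitive completely normal elements for large degree.
-/

namespace Pool.Agent.MM

open Finset Polynomial


/-- real inequality behind the main case -/
theorem fina_real (E Q P X Y n2 sD : ℝ) (hE : 1 ≤ E) (hQ : 1 ≤ Q) (hP : 0 < P)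
    (hX : 1 ≤ X) (hn2 : 1 ≤ n2) (hYn : Y ≤ n2)
    (hmain : 16 * E * X * n2 ≤ P * Q ^ ((3 : ℝ) / 8)) (hsD : sD ≤ P * Q / 8) :
    E * Q ^ ((1 : ℝ) / 8) * √Q * (X + Y) + 1 + sD < P * Q := by
  have h4 : Q ^ ((1 : ℝ) / 8) * √Q * Q ^ ((3 : ℝ) / 8) = Q := by
    have hQ0 : 0 < Q := by linarith
    rw [Real.sqrt_eq_rpow, ← Real.rpow_add hQ0, ← Real.rpow_add hQ0]
    norm_num
  have h5 : 0 < Q ^ ((1 : ℝ) / 8) * √Q := by positivity
  have hXY : X + Y ≤ 2 * (X * n2) := by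
    have h1 : Y ≤ X * n2 := by nlinarith
    have h2 : X ≤ X * n2 := by nlinarith
    linarith
  have h6 : E * (X + Y) * 8 ≤ P * Q ^ ((3 : ℝ) / 8) := by
    refine le_trans ?_ hmain
    nlinarith
  have h7 : E * Q ^ ((1 : ℝ) / 8) * √Q * (X + Y) ≤ P * Q / 8 := by
    have h8 : (Q ^ ((1 : ℝ) / 8) * √Q) * (E * (X + Y) * 8) ≤
        (Q ^ ((1 : ℝ) / 8) * √Q) * (P * Q ^ ((3 : ℝ) / 8)) := mul_le_mul_of_nonneg_left h6 h5.le
    have h9 : (Q ^ ((1 : ℝ) / 8) * √Q) * (P * Q ^ ((3 : ℝ) / 8)) = P * Q := by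
      calc (Q ^ ((1 : ℝ) / 8) * √Q) * (P * Q ^ ((3 : ℝ) / 8)) =
          P * (Q ^ ((1 : ℝ) / 8) * √Q * Q ^ ((3 : ℝ) / 8)) := by ring
        _ = P * Q := by rw [h4]
    rw [h9] at h8
    linarith
  have h10 : 1 ≤ P * Q / 8 := by
    have h11 : (8 : ℝ) ≤ P * Q := by
      have h12 : 16 ≤ 16 * E * X * n2 := by
        have a1 : 1 ≤ E * X := by nlinarith
        have a2 : 1 ≤ E * X * n2 := by nlinarith
        linarith
      have h13 : Q ^ ((3 : ℝ) / 8) ≤ Q := by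
        calc Q ^ ((3 : ℝ) / 8) ≤ Q ^ (1 : ℝ) := Real.rpow_le_rpow_of_exponent_le hQ (by norm_num)
          _ = Q := Real.rpow_one Q
      have h14 : P * Q ^ ((3 : ℝ) / 8) ≤ P * Q := mul_le_mul_of_nonneg_left h13 hP.le
      linarith
    linarith
  have hPQ : 0 < P * Q := by positivity
  linarith

theorem fina_exp (u : ℝ) (hu : 0 ≤ u) (x : ℝ) (hx : x ≤ 2 * u) :
    (2 : ℝ) ^ (-(6 * u)) ≤ Real.exp (-(37 / 20) * x) := by
  rw [Real.rpow_def_of_pos (by norm_num)]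
  apply Real.exp_le_exp.2
  have h1 := Real.log_two_gt_d9
  nlinarith

theorem fina : ∃ N0 : ℕ, ∀ (K L : Type) [Field K] [Field L] [Finite K] [Finite L] [Algebra K L],
    N0 ≤ Module.finrank K L → ∃ x : L, Prim x ∧ CN K x := by
  obtain ⟨N1, hN1⟩ := ineq
  refine ⟨max N1 2, ?_⟩
  intro K L _ _ _ _ _ hNn
  have hfin : Module.Finite K L := inferInstance
  have hn : 0 < deg K L := Module.finrank_pos
  have hn2 : 2 ≤ deg K L := (le_max_right _ _).trans hNn
  have hnN1 : N1 ≤ deg K L := (le_max_left _ _).trans hNn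
  have hq : 2 ≤ Nat.card K := Finite.one_lt_card
  set n := deg K L with hndef
  set q := Nat.card K with hqdef
  set t1 := Nat.clog q n with ht1
  set T := 8 * (t1 + 1) with hT
  have hmainineq := hN1 n q t1 hnN1 hq ht1
  set B : ℝ := 64 * ((t1 : ℝ) + 1) ^ 2 * (n : ℝ) ^ ((3 : ℝ) / 4) +
      2048 * (n : ℝ) / √(max 1 (3 * ((t1 : ℝ) - 1) / 4)) with hB
  have hKB : KT K L (AlgebraicClosure L) T ≤ B :=
    kb (K := K) (L := L) (Om := AlgebraicClosure L) hn2 t1 ht1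
  have hET : ET K L (AlgebraicClosure L) T ≤ 2 * ((t1 : ℝ) + 1) := by
    have := eb (K := K) (L := L) (Om := AlgebraicClosure L) T
    have h2 : (2 : ℝ) * (Nat.clog (Nat.card K) (deg K L) : ℝ) + 2 = 2 * ((t1 : ℝ) + 1) := by
      rw [ht1, hqdef, hndef]; ring
    linarith
  obtain ⟨C, hCcard, hCker, hCall⟩ := kern_core (K := K) (L := L) (Om := AlgebraicClosure L) T
  obtain ⟨D, hDcard, hDsize, hDall⟩ := kern_tail (K := K) (L := L) (Om := AlgebraicClosure L) T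
  have hcardL := card_eq_pow_deg K (L := L)
  have hLpos : (0 : ℝ) < Nat.card L := by exact_mod_cast (Nat.card_pos (α := L))
  have hL1 : (1 : ℝ) ≤ Nat.card L := by exact_mod_cast (Nat.card_pos (α := L))
  have hL2 : 1 < Nat.card L := Finite.one_lt_card
  have hqR : (2 : ℝ) ≤ (q : ℝ) := by exact_mod_cast hq
  set u : ℝ := (t1 : ℝ) + 1 with hu
  have hu0 : 0 ≤ u := by positivity
  set P : ℝ := (2 : ℝ) ^ (-(6 * u)) with hPdef
  have hPpos : 0 < P := Real.rpow_pos_of_pos (by norm_num) _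
  -- density of the core
  have hPcore : P * Nat.card L ≤ Nat.card {x : L // ∀ M ∈ C, x ∉ M} := by
    have h1 := pct (K := K) (L := L) (Om := AlgebraicClosure L) T
    have h2 := fina_exp u hu0 _ hET
    calc P * Nat.card L ≤ (Nat.card L : ℝ) *
          Real.exp (-(37 / 20) * ET K L (AlgebraicClosure L) T) := by
          rw [mul_comm]
          exact mul_le_mul_of_nonneg_left h2 hLpos.le
      _ ≤ _ := h1
      _ ≤ _ := by
          have : Nat.card {x : L // ∀ (d : ℕ) (z : AlgebraicClosure L), Ev K L d z →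
              per K z ≤ T → Res K d z x ≠ 0} ≤ Nat.card {x : L // ∀ M ∈ C, x ∉ M} := by
            apply Nat.card_le_card_of_injective
              (fun x => (⟨x.1, ?_⟩ : {x : L // ∀ M ∈ C, x ∉ M}))
            · intro a b hab
              exact Subtype.ext
                (congrArg (fun y : {x : L // ∀ M ∈ C, x ∉ M} => (y : L)) hab)
            · intro M hM hxM
              obtain ⟨d, z, he, hper, hker⟩ := hCker M hM
              exact x.2 d z he hper ((hker x.1).1 hxM)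
          exact_mod_cast this
  have hom := omega (Nat.card L - 1) (by omega)
  have hom2 : (2 : ℝ) ^ ((Nat.card L - 1).primeFactors.card) ≤
      2 ^ 256 * (Nat.card L : ℝ) ^ ((1 : ℝ) / 8) := by
    refine hom.trans (mul_le_mul_of_nonneg_left ?_ (by positivity))
    apply Real.rpow_le_rpow (by positivity) _ (by norm_num)
    exact_mod_cast Nat.sub_le _ _
  have hnR : (1 : ℝ) ≤ (n : ℝ) := by exact_mod_cast hn
  have hDn : ((D.card : ℕ) : ℝ) ≤ (n : ℝ) ^ 2 := by exact_mod_cast hDcard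
  -- tail
  have hsD : ∑ M ∈ D, (Nat.card M : ℝ) ≤ P * Nat.card L / 8 := by
    have hqT : (0 : ℝ) < (q : ℝ) ^ (T + 1) := by positivity
    have h1 : ∀ M ∈ D, (Nat.card M : ℝ) ≤ Nat.card L / (q : ℝ) ^ (T + 1) := by
      intro M hM
      rw [le_div_iff₀ hqT]
      exact_mod_cast hDsize M hM
    refine (sum_le_sum h1).trans ?_
    rw [sum_const, nsmul_eq_mul]
    have h2 : (n : ℝ) ≤ (q : ℝ) ^ t1 := by
      have : n ≤ q ^ t1 := Nat.le_pow_clog (by omega) n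
      exact_mod_cast this
    have h3 : (n : ℝ) ^ 2 * 8 ≤ P * (q : ℝ) ^ (T + 1) := by
      have h4 : (n : ℝ) ^ 2 ≤ (q : ℝ) ^ (2 * t1) := by
        rw [mul_comm 2, pow_mul]
        exact pow_le_pow_left₀ (by positivity) h2 2
      have h5 : P * (2 : ℝ) ^ (6 * t1 + 6) = 1 := by
        rw [hPdef, ← Real.rpow_natCast, ← Real.rpow_add (by norm_num)]
        have : -(6 * u) + ((6 * t1 + 6 : ℕ) : ℝ) = 0 := by
          rw [hu]; push_cast; ring
        rw [this, Real.rpow_zero]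
      have h6 : (q : ℝ) ^ (T + 1) = (q : ℝ) ^ (2 * t1) * (q : ℝ) ^ (6 * t1 + 6) *
          (q : ℝ) ^ 3 := by
        rw [← pow_add, ← pow_add]
        congr 1
        omega
      have h7 : (2 : ℝ) ^ (6 * t1 + 6) ≤ (q : ℝ) ^ (6 * t1 + 6) :=
        pow_le_pow_left₀ (by norm_num) hqR _
      have h8 : (8 : ℝ) ≤ (q : ℝ) ^ 3 := by
        calc (8 : ℝ) = 2 ^ 3 := by norm_num
          _ ≤ _ := pow_le_pow_left₀ (by norm_num) hqR _
      have h9 : 1 ≤ P * (q : ℝ) ^ (6 * t1 + 6) := by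
        rw [← h5]
        exact mul_le_mul_of_nonneg_left h7 hPpos.le
      calc (n : ℝ) ^ 2 * 8 ≤ (q : ℝ) ^ (2 * t1) * (q : ℝ) ^ 3 :=
            mul_le_mul h4 h8 (by norm_num) (by positivity)
        _ = (q : ℝ) ^ (2 * t1) * (q : ℝ) ^ 3 * 1 := by ring
        _ ≤ (q : ℝ) ^ (2 * t1) * (q : ℝ) ^ 3 * (P * (q : ℝ) ^ (6 * t1 + 6)) :=
            mul_le_mul_of_nonneg_left h9 (by positivity)
        _ = _ := by rw [h6]; ring
    calc (D.card : ℝ) * (Nat.card L / (q : ℝ) ^ (T + 1))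
        ≤ (n : ℝ) ^ 2 * (Nat.card L / (q : ℝ) ^ (T + 1)) := by
          apply mul_le_mul_of_nonneg_right hDn; positivity
      _ = ((n : ℝ) ^ 2 * 8) * (Nat.card L / (q : ℝ) ^ (T + 1)) / 8 := by ring
      _ ≤ (P * (q : ℝ) ^ (T + 1)) * (Nat.card L / (q : ℝ) ^ (T + 1)) / 8 := by
          have : 0 ≤ (Nat.card L / (q : ℝ) ^ (T + 1)) := by positivity
          gcongr
      _ = _ := by field_simp
  -- core size
  have hX1 : (1 : ℝ) ≤ (2 : ℝ) ^ C.card := one_le_pow₀ (by norm_num)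
  have hXB : (2 : ℝ) ^ C.card ≤ (2 : ℝ) ^ B := by
    rw [← Real.rpow_natCast]
    exact Real.rpow_le_rpow_of_exponent_le (by norm_num) (hCcard.trans hKB)
  have hmain : 16 * (2 : ℝ) ^ 256 * (2 : ℝ) ^ C.card * (n : ℝ) ^ 2 ≤
      P * (Nat.card L : ℝ) ^ ((3 : ℝ) / 8) := by
    have h1 : (Nat.card L : ℝ) ^ ((3 : ℝ) / 8) = (q : ℝ) ^ (3 * (n : ℝ) / 8) := by
      rw [hcardL]
      push_cast
      rw [← Real.rpow_natCast, ← Real.rpow_mul (by positivity)]
      congr 1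
      ring
    rw [h1]
    have h2 : (2 : ℝ) ^ (260 + B + 6 * u) = (16 * (2 : ℝ) ^ 256) * (2 : ℝ) ^ B * (P)⁻¹ := by
      rw [hPdef, ← Real.rpow_neg (by norm_num), neg_neg, Real.rpow_add (by norm_num),
        Real.rpow_add (by norm_num)]
      congr 2
      have : (260 : ℝ) = ((4 : ℕ) : ℝ) + ((256 : ℕ) : ℝ) := by norm_num
      rw [this, Real.rpow_add (by norm_num), Real.rpow_natCast, Real.rpow_natCast]
      norm_num
    rw [h2] at hmainineq
    have h3 : 16 * (2 : ℝ) ^ 256 * (2 : ℝ) ^ C.card * (n : ℝ) ^ 2 ≤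
        16 * (2 : ℝ) ^ 256 * (2 : ℝ) ^ B * (n : ℝ) ^ 2 := by
      gcongr
    refine h3.trans ?_
    calc 16 * (2 : ℝ) ^ 256 * (2 : ℝ) ^ B * (n : ℝ) ^ 2
        = P * (16 * (2 : ℝ) ^ 256 * (2 : ℝ) ^ B * P⁻¹ * (n : ℝ) ^ 2) := by
          field_simp
      _ ≤ _ := mul_le_mul_of_nonneg_left hmainineq hPpos.le
  have hn21 : (1 : ℝ) ≤ (n : ℝ) ^ 2 := one_le_pow₀ hnR
  have hreal := fina_real (2 ^ 256) (Nat.card L) P ((2 : ℝ) ^ C.card) (D.card) ((n : ℝ) ^ 2)
    (∑ M ∈ D, (Nat.card M : ℝ)) (one_le_pow₀ (by norm_num)) hL1 hPpos hX1 hn21 hDn hmain hsD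
  obtain ⟨x, hx1, hx2, hx3⟩ := crit (L := L) C D (Nat.card L - 1).primeFactors ∅ (by simp) (by simp)
    P hPpos.le hPcore (by
      simp only [sum_empty, sub_zero, card_empty, Nat.cast_zero, add_zero, one_mul]
      have h3 : (2 : ℝ) ^ ((Nat.card L - 1).primeFactors.card) * √(Nat.card L : ℝ) *
          (2 ^ C.card + D.card) ≤ 2 ^ 256 * (Nat.card L : ℝ) ^ ((1 : ℝ) / 8) * √(Nat.card L : ℝ) *
          (2 ^ C.card + D.card) := by
        gcongr
      linarith)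
  refine ⟨x, hx1, cn_of_events (Om := AlgebraicClosure L) x ?_⟩
  intro d z he h0
  rcases le_or_gt (per K z) T with h | h
  · obtain ⟨M, hM, hM2⟩ := hCall d z he h
    exact hx2 M hM ((hM2 x).2 h0)
  · obtain ⟨M, hM, hM2⟩ := hDall d z he h
    exact hx3 M hM ((hM2 x).2 h0)

end Pool.Agent.MM
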