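import Mathlib
import Pool.Agent.MM.Defs
import Pool.Agent.MM.CNE
import Pool.Agent.MM.KERN
import Pool.Agent.MM.CRIT
import Pool.Agent.MM.OMEGA

/-!
Existence of primitive completely normal elements for bounded degree and large base field.
-/

namespace Pool.Agent.MM

open Finset Polynomial


theorem finb_real (E Q : ℝ) (hE : 1 ≤ E) (hQ : 0 < Q) (N0 : ℕ)
    (hbig : (16 * E * (1 + (N0 : ℝ) ^ 2)) ^ 3 ≤ Q) :
    E * Q ^ ((1 : ℝ) / 8) * √Q * (1 + (N0 : ℝ) ^ 2) + 1 ≤ Q / 2 := by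
  set b : ℝ := 1 + (N0 : ℝ) ^ 2 with hb
  have hb1 : 1 ≤ b := by
    have : (0 : ℝ) ≤ (N0 : ℝ) ^ 2 := by positivity
    linarith
  have hEb : 1 ≤ E * b := by nlinarith
  have h16 : 16 ≤ 16 * E * b := by nlinarith
  have hQ1 : (1 : ℝ) ≤ Q := by
    refine le_trans ?_ hbig
    apply one_le_pow₀
    linarith
  have h1 : 16 * E * b ≤ Q ^ ((3 : ℝ) / 8) := by
    have h2 : 16 * E * b ≤ Q ^ ((1 : ℝ) / 3) := by
      have h3 := Real.rpow_le_rpow (by positivity) hbig (show (0 : ℝ) ≤ 1 / 3 by norm_num)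
      rw [← Real.rpow_natCast, ← Real.rpow_mul (by positivity)] at h3
      norm_num at h3 ⊢
      exact h3
    exact h2.trans (Real.rpow_le_rpow_of_exponent_le hQ1 (by norm_num))
  have h4 : Q ^ ((1 : ℝ) / 8) * √Q * Q ^ ((3 : ℝ) / 8) = Q := by
    rw [Real.sqrt_eq_rpow, ← Real.rpow_add hQ, ← Real.rpow_add hQ]
    norm_num
  have h5 : 0 < Q ^ ((1 : ℝ) / 8) * √Q := by positivity
  have h6 : Q ^ ((1 : ℝ) / 8) * √Q * (16 * E * b) ≤ Q := by
    calc _ ≤ Q ^ ((1 : ℝ) / 8) * √Q * Q ^ ((3 : ℝ) / 8) := mul_le_mul_of_nonneg_left h1 h5.le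
      _ = Q := h4
  have h7 : (1 : ℝ) ≤ Q / 4 := by
    have : (16 : ℝ) ≤ Q := by
      refine le_trans ?_ hbig
      calc (16 : ℝ) ≤ 16 * E * b := h16
        _ ≤ (16 * E * b) ^ 3 := le_self_pow₀ (by linarith) (by norm_num)
    linarith
  have h9 : E * Q ^ ((1 : ℝ) / 8) * √Q * b * 16 =
      Q ^ ((1 : ℝ) / 8) * √Q * (16 * E * b) := by
    ring
  linarith

theorem finb (N0 : ℕ) : ∃ Q0 : ℕ, ∀ (K L : Type) [Field K] [Field L] [Finite K] [Finite L]
    [Algebra K L], 2 ≤ Module.finrank K L → Module.finrank K L ≤ N0 → Q0 ≤ Nat.card K →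
    ∃ x : L, Prim x ∧ CN K x := by
  refine ⟨4 * N0 ^ 2 + (16 * 2 ^ 256 * (1 + N0 ^ 2)) ^ 3, ?_⟩
  intro K L _ _ _ _ _ h2 hN hQ
  have hfin : Module.Finite K L := inferInstance
  have hn : 0 < deg K L := Module.finrank_pos
  obtain ⟨D, hDcard, hDsize, hDall⟩ := kern_tail (K := K) (L := L) (Om := AlgebraicClosure L) 0
  have hcardL := card_eq_pow_deg K (L := L)
  have hqL : Nat.card K ≤ Nat.card L := by
    rw [hcardL]
    calc Nat.card K = Nat.card K ^ 1 := (pow_one _).symm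
      _ ≤ _ := Nat.pow_le_pow_right Nat.card_pos hn
  have hqpos : (0 : ℝ) < Nat.card K := by exact_mod_cast (Nat.card_pos (α := K))
  have hLpos : (0 : ℝ) < Nat.card L := by exact_mod_cast (Nat.card_pos (α := L))
  have hL2 : 1 < Nat.card L := Finite.one_lt_card
  have hDn : ((D.card : ℕ) : ℝ) ≤ (N0 : ℝ) ^ 2 := by
    have : D.card ≤ N0 ^ 2 := hDcard.trans (Nat.pow_le_pow_left hN 2)
    exact_mod_cast this
  have hq4 : 4 * (N0 : ℝ) ^ 2 ≤ Nat.card K := by
    have : 4 * N0 ^ 2 ≤ Nat.card K := le_trans (Nat.le_add_right _ _) hQ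
    exact_mod_cast this
  have hbig : (16 * (2 : ℝ) ^ 256 * (1 + (N0 : ℝ) ^ 2)) ^ 3 ≤ Nat.card L := by
    have : (16 * 2 ^ 256 * (1 + N0 ^ 2)) ^ 3 ≤ Nat.card L := by
      refine le_trans ?_ (hQ.trans hqL)
      exact Nat.le_add_left _ _
    exact_mod_cast this
  have hreal := finb_real (2 ^ 256) (Nat.card L) (one_le_pow₀ (by norm_num)) hLpos N0 hbig
  have hsumD : ∑ M ∈ D, (Nat.card M : ℝ) ≤ Nat.card L / 4 := by
    have h1 : ∀ M ∈ D, (Nat.card M : ℝ) ≤ Nat.card L / Nat.card K := by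
      intro M hM
      rw [le_div_iff₀ hqpos]
      have := hDsize M hM
      rw [zero_add, pow_one] at this
      exact_mod_cast this
    refine (sum_le_sum h1).trans ?_
    rw [sum_const, nsmul_eq_mul]
    calc (D.card : ℝ) * (Nat.card L / Nat.card K) ≤ (N0 : ℝ) ^ 2 * (Nat.card L / Nat.card K) := by
          apply mul_le_mul_of_nonneg_right hDn; positivity
      _ ≤ (Nat.card K / 4) * (Nat.card L / Nat.card K) := by
          apply mul_le_mul_of_nonneg_right _ (by positivity); linarith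
      _ = _ := by field_simp
  have hom := omega (Nat.card L - 1) (by omega)
  have hom2 : (2 : ℝ) ^ ((Nat.card L - 1).primeFactors.card) ≤
      2 ^ 256 * (Nat.card L : ℝ) ^ ((1 : ℝ) / 8) := by
    refine hom.trans (mul_le_mul_of_nonneg_left ?_ (by positivity))
    apply Real.rpow_le_rpow (by positivity) _ (by norm_num)
    exact_mod_cast Nat.sub_le _ _
  obtain ⟨x, hx1, -, hx3⟩ := crit (L := L) ∅ D (Nat.card L - 1).primeFactors ∅ (by simp) (by simp)
    1 zero_le_one (by simp) (by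
      simp only [sum_empty, sub_zero, card_empty, Nat.cast_zero, add_zero, pow_zero, mul_one,
        one_mul]
      have h3 : (2 : ℝ) ^ ((Nat.card L - 1).primeFactors.card) * √(Nat.card L : ℝ) *
          (1 + D.card) ≤ 2 ^ 256 * (Nat.card L : ℝ) ^ ((1 : ℝ) / 8) * √(Nat.card L : ℝ) *
          (1 + (N0 : ℝ) ^ 2) := by
        gcongr
      linarith)
  refine ⟨x, hx1, cn_of_events (Om := AlgebraicClosure L) x ?_⟩
  intro d z he h0
  obtain ⟨-, -, hp⟩ := size_facts d z he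
  obtain ⟨M, hM, hM2⟩ := hDall d z he hp
  exact hx3 M hM ((hM2 x).2 h0)

end Pool.Agent.MM
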